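import Mathlib

-- part MP_2790d1_an.Stokes
section

/-! Asymptotically closed currents of integration over pieces of the plane. -/

open Complex MeasureTheory Set ComplexConjugate

namespace Pool.Agent.MP_2790d1_an

/-- twice the `∂/∂ conj v` derivative -/
noncomputable def db (ψ : ℂ → ℂ) (v : ℂ) : ℂ := fderiv ℝ ψ v 1 + I * fderiv ℝ ψ v I

/-- the Laplacian, written as `db ∘ conj ∘ db` -/
noncomputable def lap (φ : ℂ → ℝ) (v : ℂ) : ℝ :=
  (db (fun w => conj (db (fun z => (φ z : ℂ)) w)) v).re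

/-- `φ` is continuous and its `G²`-weighted integral is at most a small multiple of the
`G²`-weighted integral of `m` plus a multiple of the Dirichlet energy of `G`. -/
def Neg (m φ : ℂ → ℝ) : Prop :=
  Continuous φ ∧ (∀ x, 0 ≤ m x) ∧ ∀ θ : ℝ, 0 < θ → ∃ C : ℝ, ∀ G : ℂ → ℝ, ContDiff ℝ 1 G → HasCompactSupport G →
    ∫ x, G x ^ 2 * φ x ≤ θ * (∫ x, G x ^ 2 * m x) + C * ∫ x, ‖fderiv ℝ G x‖ ^ 2

/-- a holomorphic function on an open set which is proper over `K` -/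
structure Adm (V : Set ℂ) (f : ℂ → ℂ) (K : Set ℂ) : Prop where
  op : IsOpen V
  hol : DifferentiableOn ℂ f V
  cl : IsClosed {x | x ∈ V ∧ f x ∈ K}

theorem integrable_sq_mul {G φ : ℂ → ℝ} (hG : Continuous G) (hc : HasCompactSupport G)
    (hφ : Continuous φ) : Integrable (fun x => G x ^ 2 * φ x) := by
  refine ((hG.pow 2).mul hφ).integrable_of_hasCompactSupport ?_
  refine hc.mono fun x hx h0 => hx ?_
  simp [h0]

theorem integrable_energy {G : ℂ → ℝ} (hG : ContDiff ℝ 1 G) (hc : HasCompactSupport G) :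
    Integrable (fun x => ‖fderiv ℝ G x‖ ^ 2) := by
  refine (((hG.continuous_fderiv one_ne_zero).norm).pow 2).integrable_of_hasCompactSupport ?_
  refine (hc.fderiv ℝ).mono fun x hx h0 => hx ?_
  simp [h0]

theorem Neg.add {m φ φ' : ℂ → ℝ} (h : Neg m φ) (h' : Neg m φ') :
    Neg m (fun x => φ x + φ' x) := by
  refine ⟨h.1.add h'.1, h.2.1, fun θ hθ => ?_⟩
  obtain ⟨C, hC⟩ := h.2.2 (θ / 2) (by positivity)
  obtain ⟨C', hC'⟩ := h'.2.2 (θ / 2) (by positivity)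
  refine ⟨C + C', fun G hG hc => ?_⟩
  simp only [mul_add]
  rw [integral_add (integrable_sq_mul hG.continuous hc h.1)
    (integrable_sq_mul hG.continuous hc h'.1)]
  linarith [hC G hG hc, hC' G hG hc]

theorem Neg.smul {m φ : ℂ → ℝ} (h : Neg m φ) {c : ℝ} (hc : 0 ≤ c) :
    Neg m (fun x => c * φ x) := by
  refine ⟨continuous_const.mul h.1, h.2.1, fun θ hθ => ?_⟩
  obtain ⟨C, hC⟩ := h.2.2 (θ / (c + 1)) (by positivity)
  refine ⟨c * C, fun G hG hs => ?_⟩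
  have e : (fun x => G x ^ 2 * (c * φ x)) = fun x => c * (G x ^ 2 * φ x) := by
    funext x; ring
  rw [e, integral_const_mul]
  have h1 := mul_le_mul_of_nonneg_left (hC G hG hs) hc
  have h2 : 0 ≤ ∫ x, G x ^ 2 * m x := integral_nonneg fun x => mul_nonneg (sq_nonneg _) (h.2.1 x)
  have h3 : c * (θ / (c + 1)) ≤ θ := by
    rw [← mul_div_assoc, div_le_iff₀ (by positivity)]
    nlinarith
  nlinarith [mul_le_mul_of_nonneg_right h3 h2]

theorem Neg.mono {m φ φ' : ℂ → ℝ} (h : Neg m φ) (hc : Continuous φ') (hle : ∀ x, φ' x ≤ φ x) :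
    Neg m φ' := by
  refine ⟨hc, h.2.1, fun θ hθ => ?_⟩
  obtain ⟨C, hC⟩ := h.2.2 θ hθ
  refine ⟨C, fun G hG hs => le_trans ?_ (hC G hG hs)⟩
  exact integral_mono (integrable_sq_mul hG.continuous hs hc)
    (integrable_sq_mul hG.continuous hs h.1)
    fun x => mul_le_mul_of_nonneg_left (hle x) (sq_nonneg _)

/-- functions of height `n` and energy `O(n)` -/
theorem exists_tower (ρ : ℝ) : ∃ E : ℝ, ∀ n : ℕ, ∃ G : ℂ → ℝ, ContDiff ℝ 1 G ∧
    HasCompactSupport G ∧ (∀ x ∈ Metric.ball (0 : ℂ) ρ, G x = n) ∧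
    ∫ x, ‖fderiv ℝ G x‖ ^ 2 ≤ n * E := by
  let χ : ContDiffBump (0 : ℂ) := ⟨1, 2, one_pos, one_lt_two⟩
  refine ⟨∫ x, ‖fderiv ℝ χ x‖ ^ 2, fun n => ?_⟩
  induction n with
  | zero => exact ⟨fun _ => 0, contDiff_const, HasCompactSupport.zero, by simp, by simp⟩
  | succ n ih =>
    obtain ⟨G, hG, hc, h1, h2⟩ := ih
    obtain ⟨S, hS, hS0⟩ := hc.isCompact.isBounded.subset_ball_lt (max ρ 0) (0 : ℂ)
    have hSp : 0 < S := lt_of_le_of_lt (le_max_right _ _) hS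
    have hSρ : ρ < S := lt_of_le_of_lt (le_max_left _ _) hS
    have hH : ContDiff ℝ 1 (fun x : ℂ => χ (S⁻¹ • x)) := χ.contDiff.comp (contDiff_const_smul _)
    have hHc : HasCompactSupport (fun x : ℂ => χ (S⁻¹ • x)) :=
      χ.hasCompactSupport.comp_smul (inv_ne_zero hSp.ne')
    have hH1 : ∀ x ∈ Metric.ball (0 : ℂ) S, χ (S⁻¹ • x) = 1 := fun x hx => by
      refine χ.one_of_mem_closedBall ?_
      rw [mem_ball_zero_iff] at hx
      rw [mem_closedBall_zero_iff, norm_smul, norm_inv, Real.norm_of_nonneg hSp.le]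
      exact inv_mul_le_one_of_le₀ hx.le hSp.le
    have hE : ∫ x, ‖fderiv ℝ (fun x : ℂ => χ (S⁻¹ • x)) x‖ ^ 2 = ∫ x, ‖fderiv ℝ χ x‖ ^ 2 := by
      have e : (fun x : ℂ => ‖fderiv ℝ (fun x : ℂ => χ (S⁻¹ • x)) x‖ ^ 2) =
          fun x : ℂ => S⁻¹ ^ 2 * ‖fderiv ℝ χ (S⁻¹ • x)‖ ^ 2 := by
        funext x
        rw [fderiv_comp_smul, norm_smul, mul_pow, Real.norm_eq_abs, sq_abs]
      rw [e, integral_const_mul, Measure.integral_comp_smul_of_nonneg volume
        (fun x : ℂ => ‖fderiv ℝ χ x‖ ^ 2) S⁻¹ (hR := by positivity), Complex.finrank_real_complex,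
        smul_eq_mul, ← mul_assoc, mul_inv_cancel₀ (by positivity), one_mul]
    refine ⟨fun x => G x + χ (S⁻¹ • x), hG.add hH, hc.add hHc, fun x hx => ?_, ?_⟩
    · simp only [h1 x hx, hH1 x (Metric.ball_subset_ball hSρ.le hx)]
      push_cast; ring
    · have e : (fun x => ‖fderiv ℝ (fun x => G x + χ (S⁻¹ • x)) x‖ ^ 2) = fun x =>
          ‖fderiv ℝ G x‖ ^ 2 + ‖fderiv ℝ (fun x : ℂ => χ (S⁻¹ • x)) x‖ ^ 2 := by
        funext x
        rw [fderiv_fun_add (hG.differentiable one_ne_zero x) (hH.differentiable one_ne_zero x)]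
        by_cases hx : x ∈ Metric.ball (0 : ℂ) S
        · have : (fun x : ℂ => χ (S⁻¹ • x)) =ᶠ[nhds x] fun _ => 1 := by
            filter_upwards [Metric.isOpen_ball.mem_nhds hx] with y hy using hH1 y hy
          rw [this.fderiv_eq]
          simp
        · have : fderiv ℝ G x = 0 := by
            by_contra h
            exact hx (hS0 (support_fderiv_subset ℝ h))
          rw [this]
          simp
      rw [e, integral_add (integrable_energy hG hc) (integrable_energy hH hHc), hE]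
      push_cast
      linarith

/-- parabolicity of the plane -/
theorem not_neg_self {m : ℂ → ℝ} {x₀ : ℂ} (hx : 0 < m x₀) : ¬ Neg m m := by
  rintro ⟨hm, h0, h⟩
  obtain ⟨C, hC⟩ := h (1 / 2) (by norm_num)
  obtain ⟨E, hE⟩ := exists_tower (‖x₀‖ + 1)
  let χ : ContDiffBump x₀ := ⟨1 / 2, 1, by norm_num, by norm_num⟩
  have hcont : Continuous fun x => χ x * m x := χ.continuous.mul hm
  have hcs : HasCompactSupport fun x => χ x * m x := χ.hasCompactSupport.mul_right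
  have ha : 0 < ∫ x, χ x * m x := hcont.integral_pos_of_hasCompactSupport_nonneg_nonzero hcs
    (fun x => mul_nonneg χ.nonneg (h0 x)) (x := x₀) (by
      rw [χ.one_of_mem_closedBall (Metric.mem_closedBall_self χ.rIn_pos.le), one_mul]
      exact hx.ne')
  obtain ⟨n, hn⟩ := exists_nat_gt (2 * |C| * |E| / ∫ x, χ x * m x)
  obtain ⟨G, hG, hc, h1, h2⟩ := hE n
  have h3 := hC G hG hc
  have h4 : (n : ℝ) ^ 2 * ∫ x, χ x * m x ≤ ∫ x, G x ^ 2 * m x := by
    rw [← integral_const_mul]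
    refine integral_mono ((hcont.integrable_of_hasCompactSupport hcs).const_mul _)
      (integrable_sq_mul hG.continuous hc hm) fun x => ?_
    by_cases hx1 : x ∈ Metric.ball x₀ 1
    · have hx2 : x ∈ Metric.ball (0 : ℂ) (‖x₀‖ + 1) := by
        rw [Metric.mem_ball, dist_eq_norm] at hx1
        rw [mem_ball_zero_iff]
        linarith [norm_sub_norm_le x x₀]
      simp only [h1 x hx2]
      exact mul_le_mul_of_nonneg_left (mul_le_of_le_one_left (h0 x) χ.le_one) (sq_nonneg _)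
    · have : χ x = 0 := χ.zero_of_le_dist (not_lt.1 hx1)
      simp only [this, zero_mul, mul_zero]
      exact mul_nonneg (sq_nonneg _) (h0 x)
  have h5 : 0 ≤ ∫ x, ‖fderiv ℝ G x‖ ^ 2 := integral_nonneg fun x => sq_nonneg _
  have h6 : C * ∫ x, ‖fderiv ℝ G x‖ ^ 2 ≤ |C| * (n * |E|) :=
    (mul_le_mul_of_nonneg_right (le_abs_self C) h5).trans (mul_le_mul_of_nonneg_left
      (h2.trans (mul_le_mul_of_nonneg_left (le_abs_self E) n.cast_nonneg)) (abs_nonneg C))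
  have hnp : (0 : ℝ) < n := lt_of_le_of_lt (by positivity) hn
  rw [div_lt_iff₀ ha] at hn
  nlinarith [mul_lt_mul_of_pos_left hn hnp]

theorem Adm.eventually_zero {V K : Set ℂ} {f : ℂ → ℂ} (h : Adm V f K) {β : Type*} [Zero β]
    {F : ℂ → β} (h0 : ∀ x ∈ V, f x ∉ K → F x = 0) {x : ℂ} (hx : x ∉ V) :
    V.indicator F =ᶠ[nhds x] fun _ => 0 := by
  filter_upwards [h.cl.isOpen_compl.mem_nhds (fun hh => hx hh.1)] with y hy
  by_cases hV : y ∈ V
  · rw [indicator_of_mem hV]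
    exact h0 y hV fun hK => hy ⟨hV, hK⟩
  · exact indicator_of_notMem hV F

theorem Adm.eventually_eq {V K : Set ℂ} {f : ℂ → ℂ} (h : Adm V f K) {β : Type*} [Zero β]
    (F : ℂ → β) {x : ℂ} (hx : x ∈ V) : V.indicator F =ᶠ[nhds x] F := by
  filter_upwards [h.op.mem_nhds hx] with y hy using indicator_of_mem hy F

theorem Adm.continuous {V K : Set ℂ} {f : ℂ → ℂ} (h : Adm V f K) {F : ℂ → ℝ}
    (hF : ContinuousOn F V) (h0 : ∀ x ∈ V, f x ∉ K → F x = 0) :
    Continuous (V.indicator F) := by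
  refine continuous_iff_continuousAt.2 fun x => ?_
  by_cases hx : x ∈ V
  · exact (hF.continuousAt (h.op.mem_nhds hx)).congr (h.eventually_eq F hx).symm
  · exact continuousAt_const.congr (h.eventually_zero h0 hx).symm

theorem Adm.continuousOn_deriv {V K : Set ℂ} {f : ℂ → ℂ} (h : Adm V f K) :
    ContinuousOn (deriv f) V := (h.hol.deriv h.op).continuousOn

/-! ### Calculus of `db` -/

theorem db_of_hasFDerivAt {ψ : ℂ → ℂ} {L : ℂ →L[ℝ] ℂ} {v : ℂ} (h : HasFDerivAt ψ L v) :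
    db ψ v = L 1 + I * L I := by rw [db, h.fderiv]

theorem db_ofReal {F : ℂ → ℝ} {L : ℂ →L[ℝ] ℝ} {v : ℂ} (h : HasFDerivAt F L v) :
    db (fun w => (F w : ℂ)) v = L 1 + I * L I :=
  db_of_hasFDerivAt (ofRealCLM.hasFDerivAt.comp v h)

theorem db_congr {ψ ψ' : ℂ → ℂ} {v : ℂ} (h : ψ =ᶠ[nhds v] ψ') : db ψ v = db ψ' v := by
  rw [db, db, h.fderiv_eq]

theorem db_const (c v : ℂ) : db (fun _ => c) v = 0 := by simp [db]

theorem db_add {a b : ℂ → ℂ} {v : ℂ} (ha : DifferentiableAt ℝ a v) (hb : DifferentiableAt ℝ b v) :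
    db (fun w => a w + b w) v = db a v + db b v := by
  rw [db_of_hasFDerivAt (ha.hasFDerivAt.fun_add hb.hasFDerivAt), db, db]
  simp only [add_apply]
  ring

theorem db_mul {a b : ℂ → ℂ} {v : ℂ} (ha : DifferentiableAt ℝ a v) (hb : DifferentiableAt ℝ b v) :
    db (fun w => a w * b w) v = db a v * b v + a v * db b v := by
  rw [db_of_hasFDerivAt (ha.hasFDerivAt.fun_mul hb.hasFDerivAt), db, db]
  simp only [add_apply, smul_apply, smul_eq_mul]
  ring

theorem db_comp_hol {ψ f : ℂ → ℂ} {v : ℂ} (hψ : DifferentiableAt ℝ ψ (f v))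
    (hf : DifferentiableAt ℂ f v) :
    db (fun w => ψ (f w)) v = db ψ (f v) * conj (deriv f v) := by
  have h := hψ.hasFDerivAt.comp v (hf.hasDerivAt.hasFDerivAt.restrictScalars ℝ)
  rw [db_of_hasFDerivAt (ψ := fun w => ψ (f w)) h, db]
  have key : ∀ z : ℂ, fderiv ℝ ψ (f v) z =
      z.re * fderiv ℝ ψ (f v) 1 + z.im * fderiv ℝ ψ (f v) I := fun z => by
    have e : z = z.re • (1 : ℂ) + z.im • I := by simp
    conv_lhs => rw [e]
    rw [map_add, map_smul, map_smul, real_smul, real_smul]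
  simp only [ContinuousLinearMap.comp_apply, ContinuousLinearMap.coe_restrictScalars',
    ContinuousLinearMap.toSpanSingleton_apply, smul_eq_mul, one_mul]
  rw [key (deriv f v), key (I * deriv f v)]
  have e : conj (deriv f v) = (deriv f v).re - (deriv f v).im * I := by
    apply Complex.ext <;> simp
  rw [e]
  simp only [mul_re, mul_im, I_re, I_im, zero_mul, one_mul, zero_sub, zero_add, ofReal_neg]
  linear_combination ((deriv f v).im * fderiv ℝ ψ (f v) I) * I_mul_I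

theorem db_id (v : ℂ) : db (fun w => w) v = 0 := by
  rw [db_of_hasFDerivAt (ψ := fun w => w) (hasFDerivAt_id v)]
  simp

theorem db_conj (v : ℂ) : db (fun w => conj w) v = 2 := by
  rw [db_of_hasFDerivAt (ψ := fun w => conj w) (conjCLE.hasFDerivAt (x := v))]
  simp only [ContinuousLinearEquiv.coe_coe, conjCLE_apply, map_one, conj_I]
  linear_combination (-1 : ℂ) * I_mul_I

theorem db_hol {f : ℂ → ℂ} {v : ℂ} (hf : DifferentiableAt ℂ f v) : db f v = 0 := by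
  have := db_comp_hol (ψ := fun w => w) differentiableAt_fun_id hf
  rwa [db_id, zero_mul] at this

theorem differentiable_conj' : Differentiable ℝ (fun w : ℂ => conj w) := conjCLE.differentiable

theorem db_conj_hol {f : ℂ → ℂ} {v : ℂ} (hf : DifferentiableAt ℂ f v) :
    db (fun w => conj (f w)) v = 2 * conj (deriv f v) := by
  rw [db_comp_hol (ψ := fun w => conj w) (differentiable_conj' _) hf, db_conj]

theorem db_eq_zero {ψ : ℂ → ℂ} {v : ℂ} (h : v ∉ tsupport ψ) : db ψ v = 0 := by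
  rw [db_congr (notMem_tsupport_iff_eventuallyEq.1 h)]
  exact db_const 0 v

theorem contDiff_db {ψ : ℂ → ℂ} {n : ℕ} (h : ContDiff ℝ (n + 1 : ℕ) ψ) : ContDiff ℝ n (db ψ) := by
  have h1 : ContDiff ℝ n (fderiv ℝ ψ) := h.fderiv_right (by push_cast; exact le_rfl)
  exact (h1.clm_apply contDiff_const).add (contDiff_const.mul (h1.clm_apply contDiff_const))

theorem continuous_db {ψ : ℂ → ℂ} (h : ContDiff ℝ 1 ψ) : Continuous (db ψ) :=
  (contDiff_db (n := 0) h).continuous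

theorem norm_db_ofReal_le {G : ℂ → ℝ} {v : ℂ} (h : DifferentiableAt ℝ G v) :
    ‖db (fun w => (G w : ℂ)) v‖ ≤ 2 * ‖fderiv ℝ G v‖ := by
  rw [db_ofReal h.hasFDerivAt]
  refine (norm_add_le _ _).trans ?_
  rw [norm_mul, norm_I, one_mul, norm_real, norm_real]
  have h1 := (fderiv ℝ G v).le_opNorm 1
  have h2 := (fderiv ℝ G v).le_opNorm I
  rw [norm_one] at h1
  rw [norm_I] at h2
  linarith

/-- the conjugate gradient -/
noncomputable def cgrad (φ : ℂ → ℝ) (w : ℂ) : ℂ := conj (db (fun z => (φ z : ℂ)) w)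

theorem contDiff_cgrad {φ : ℂ → ℝ} (h : ContDiff ℝ 2 φ) : ContDiff ℝ 1 (cgrad φ) :=
  conjCLE.contDiff.comp (contDiff_db (n := 1) (ofRealCLM.contDiff.comp h))

theorem tsupport_cgrad (φ : ℂ → ℝ) : tsupport (cgrad φ) ⊆ tsupport φ := by
  refine closure_minimal (fun x hx => ?_) (isClosed_tsupport φ)
  by_contra hn
  refine hx ?_
  have : (fun z => (φ z : ℂ)) =ᶠ[nhds x] fun _ => 0 := by
    filter_upwards [notMem_tsupport_iff_eventuallyEq.1 hn] with y hy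
    simp [hy]
  rw [cgrad, db_congr this, db_const, map_zero]

theorem lap_eq (φ : ℂ → ℝ) (v : ℂ) : lap φ v = (db (cgrad φ) v).re := rfl

/-- Stokes -/
theorem integral_db {Q : ℂ → ℂ} (hQ : ContDiff ℝ 1 Q) (hc : HasCompactSupport Q) :
    Integrable (db Q) ∧ ∫ x, db Q x = 0 := by
  have hi : ∀ v : ℂ, Integrable (fun x => fderiv ℝ Q x v) := fun v =>
    ((hQ.continuous_fderiv one_ne_zero).clm_apply continuous_const).integrable_of_hasCompactSupport
      (hc.fderiv_apply ℝ v)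
  have hz : ∀ v : ℂ, ∫ x, fderiv ℝ Q x v = 0 := fun v => by
    have := integral_mul_fderiv_eq_neg_fderiv_mul_of_integrable (μ := volume)
      (f := fun _ : ℂ => (1 : ℂ)) (g := Q) (v := v) (by simp) (by simpa using hi v)
      (by simpa using hQ.continuous.integrable_of_hasCompactSupport hc)
      (fun x _ => differentiableAt_const _) (fun x _ => hQ.differentiable one_ne_zero x)
    simpa using this
  refine ⟨(hi 1).add ((hi I).const_mul I), ?_⟩
  simp only [db]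
  rw [integral_add (hi 1) ((hi I).const_mul I), integral_const_mul, hz, hz, mul_zero, add_zero]

/-- Stokes for the test forms -/
theorem Adm.stokes {V K : Set ℂ} {f : ℂ → ℂ} (h : Adm V f K) {ψ : ℂ → ℂ} (hψ : ContDiff ℝ 1 ψ)
    (hK : tsupport ψ ⊆ K) {A B : ℂ → ℂ} (hA : DifferentiableOn ℂ A V) (hB : DifferentiableOn ℂ B V)
    {G : ℂ → ℝ} (hG : ContDiff ℝ 1 G) (hc : HasCompactSupport G) :
    ∃ R : ℂ → ℂ, Integrable R ∧ ∫ x, R x = 0 ∧ (∀ x, x ∉ V → R x = 0) ∧ ∀ x ∈ V,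
      R x = 2 * G x * db (fun w => (G w : ℂ)) x * (A x * conj (B x) * ψ (f x)) +
        (G x) ^ 2 * (2 * A x * conj (deriv B x) * ψ (f x) +
          A x * conj (B x) * (db ψ (f x) * conj (deriv f x))) := by
  let F : ℂ → ℂ := fun x => ((G x : ℂ) * G x) * ((A x * conj (B x)) * ψ (f x))
  have h0 : ∀ x ∈ V, f x ∉ K → F x = 0 := fun x _ hx => by
    simp only [F, image_eq_zero_of_notMem_tsupport (fun hh => hx (hK hh)), mul_zero]
  have hG' : ContDiff ℝ 1 (fun w => (G w : ℂ)) := ofRealCLM.contDiff.comp hG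
  have hr : ∀ {a : ℂ → ℂ}, DifferentiableOn ℂ a V → ∀ x ∈ V, ContDiffAt ℝ 1 a x :=
    fun ha x hx => (ha.analyticAt (h.op.mem_nhds hx)).contDiffAt.restrict_scalars ℝ
  have hQ : ContDiff ℝ 1 (V.indicator F) := by
    refine contDiff_iff_contDiffAt.2 fun x => ?_
    by_cases hx : x ∈ V
    · refine ContDiffAt.congr_of_eventuallyEq ?_ (h.eventually_eq F hx)
      exact (hG'.contDiffAt.mul hG'.contDiffAt).mul (((hr hA x hx).mul
        (conjCLE.contDiff.contDiffAt.comp x (hr hB x hx))).mul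
          (hψ.contDiffAt.comp x (hr h.hol x hx)))
    · exact contDiffAt_const.congr_of_eventuallyEq (h.eventually_zero h0 hx)
  have hQc : HasCompactSupport (V.indicator F) := by
    refine hc.mono fun x hx hG0 => hx ?_
    by_cases hV : x ∈ V
    · simp [indicator_of_mem hV, F, hG0]
    · exact indicator_of_notMem hV F
  obtain ⟨i1, i2⟩ := integral_db hQ hQc
  refine ⟨db (V.indicator F), i1, i2, fun x hx => ?_, fun x hx => ?_⟩
  · rw [db_congr (h.eventually_zero h0 hx), db_const]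
  · have dG := hG'.differentiable one_ne_zero x
    have dA := (hr hA x hx).differentiableAt one_ne_zero
    have dB : DifferentiableAt ℝ (fun w => conj (B w)) x :=
      (differentiable_conj' _).comp x ((hr hB x hx).differentiableAt one_ne_zero)
    have dψ : DifferentiableAt ℝ (fun w => ψ (f w)) x :=
      (hψ.differentiable one_ne_zero _).comp x ((hr h.hol x hx).differentiableAt one_ne_zero)
    rw [db_congr (h.eventually_eq F hx), db_mul (dG.fun_mul dG) ((dA.fun_mul dB).fun_mul dψ),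
      db_mul dG dG, db_mul (dA.fun_mul dB) dψ, db_mul dA dB,
      db_hol (hA.differentiableAt (h.op.mem_nhds hx)),
      db_conj_hol (hB.differentiableAt (h.op.mem_nhds hx)),
      db_comp_hol (hψ.differentiable one_ne_zero _) (h.hol.differentiableAt (h.op.mem_nhds hx))]
    ring

/-- pointwise criterion -/
theorem neg_of_pointwise {m φ : ℂ → ℝ} (hm : Continuous m) (h0 : ∀ x, 0 ≤ m x)
    (hφ : Continuous φ) (h : ∀ θ : ℝ, 0 < θ → ∃ C : ℝ, ∀ G : ℂ → ℝ, ContDiff ℝ 1 G →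
      HasCompactSupport G → ∃ R : ℂ → ℂ, Integrable R ∧ ∫ x, R x = 0 ∧
        ∀ x, G x ^ 2 * φ x ≤ θ * (G x ^ 2 * m x) + C * ‖fderiv ℝ G x‖ ^ 2 + (R x).re) :
    Neg m φ := by
  refine ⟨hφ, h0, fun θ hθ => ?_⟩
  obtain ⟨C, hC⟩ := h θ hθ
  refine ⟨C, fun G hG hc => ?_⟩
  obtain ⟨R, i1, i2, hR⟩ := hC G hG hc
  have j1 := (integrable_sq_mul hG.continuous hc hm).const_mul θ
  have j2 := (integrable_energy hG hc).const_mul C
  have j3 : Integrable (fun x => (R x).re) := i1.re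
  have j4 : ∫ x, (R x).re = 0 := by
    have := integral_re i1
    rw [i2] at this
    simpa using this
  refine (integral_mono (integrable_sq_mul hG.continuous hc hφ) ((j1.add j2).add j3) hR).trans ?_
  have e := integral_add (j1.add j2) j3
  have e' := integral_add j1 j2
  simp only [Pi.add_apply] at e ⊢
  rw [e, e', j4, integral_const_mul, integral_const_mul, add_zero]

/-- weighted arithmetic-geometric mean inequality -/
theorem amgm {θ a b C μ : ℝ} (hθ : 0 < θ) (hμ : 0 ≤ μ) (h : a ^ 2 ≤ C * μ) (g : ℝ) :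
    2 * (|g| * a) * b ≤ θ * (g ^ 2 * μ) + (|C| + 1) / θ * b ^ 2 := by
  have hC : 0 < |C| + 1 := by positivity
  have h1 : a ^ 2 ≤ (|C| + 1) * μ := by nlinarith [le_abs_self C]
  have h2 : θ / (|C| + 1) * (|g| * a) ^ 2 ≤ θ * (g ^ 2 * μ) := by
    rw [mul_pow, sq_abs, div_mul_eq_mul_div, div_le_iff₀ hC]
    nlinarith [mul_le_mul_of_nonneg_left h1 (mul_nonneg hθ.le (sq_nonneg g))]
  have h3 : 0 ≤ θ / (|C| + 1) * (|g| * a - (|C| + 1) / θ * b) ^ 2 := by positivity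
  have h4 : θ / (|C| + 1) * (|g| * a - (|C| + 1) / θ * b) ^ 2 = θ / (|C| + 1) * (|g| * a) ^ 2
      - 2 * (|g| * a) * b + (|C| + 1) / θ * b ^ 2 := by
    field_simp
    ring
  linarith

theorem mul_conj_norm (z : ℂ) : z * conj z = ((‖z‖ ^ 2 : ℝ) : ℂ) := by
  rw [mul_conj, normSq_eq_norm_sq]

/-- asymptotic closedness -/
theorem Adm.closed {V K : Set ℂ} {f : ℂ → ℂ} (h : Adm V f K) {m : ℂ → ℝ} (hm : Continuous m)
    (h0 : ∀ x, 0 ≤ m x) {ψ : ℂ → ℂ} (hψ : ContDiff ℝ 1 ψ) (hK : tsupport ψ ⊆ K) {C : ℝ}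
    (hC : ∀ x ∈ V, ‖ψ (f x)‖ ^ 2 * ‖deriv f x‖ ^ 2 ≤ C * m x) (c : ℂ) :
    Neg m (V.indicator fun x => (c * db ψ (f x)).re * ‖deriv f x‖ ^ 2) := by
  refine neg_of_pointwise hm h0 (h.continuous ?_ fun x _ hx => ?_) fun θ hθ => ?_
  · exact (continuous_re.comp_continuousOn (continuousOn_const.mul
      ((continuous_db hψ).comp_continuousOn h.hol.continuousOn))).mul
      (h.continuousOn_deriv.norm.pow 2)
  · rw [db_eq_zero fun hh => hx (hK hh)]
    simp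
  refine ⟨(|C| + 1) / θ * (2 * ‖c‖) ^ 2, fun G hG hc => ?_⟩
  obtain ⟨R, i1, i2, hR0, hR⟩ := h.stokes hψ hK (h.hol.deriv h.op)
    (differentiableOn_const (c := (1 : ℂ))) hG hc
  refine ⟨fun x => c * R x, i1.const_mul c, by rw [integral_const_mul, i2, mul_zero], fun x => ?_⟩
  by_cases hx : x ∈ V
  · rw [indicator_of_mem hx]
    have e : c * R x = 2 * (c * G x * db (fun w => (G w : ℂ)) x * deriv f x * ψ (f x)) +
        ((G x ^ 2 * ‖deriv f x‖ ^ 2 : ℝ) : ℂ) * (c * db ψ (f x)) := by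
      rw [hR x hx, ofReal_mul, ← mul_conj_norm]
      simp only [deriv_const, map_zero, map_one]
      push_cast
      ring
    have e1 : ‖c * G x * db (fun w => (G w : ℂ)) x * deriv f x * ψ (f x)‖ ≤
        |G x| * (‖ψ (f x)‖ * ‖deriv f x‖) * (2 * ‖c‖ * ‖fderiv ℝ G x‖) := by
      have := norm_db_ofReal_le (hG.differentiable one_ne_zero x)
      simp only [norm_mul, norm_real, Real.norm_eq_abs]
      calc _ = (|G x| * (‖ψ (f x)‖ * ‖deriv f x‖) * ‖c‖) * ‖db (fun w => (G w : ℂ)) x‖ := by ring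
        _ ≤ (|G x| * (‖ψ (f x)‖ * ‖deriv f x‖) * ‖c‖) * (2 * ‖fderiv ℝ G x‖) := by gcongr
        _ = _ := by ring
    have e2 := amgm (b := 2 * ‖c‖ * ‖fderiv ℝ G x‖) hθ (h0 x)
      (a := ‖ψ (f x)‖ * ‖deriv f x‖) (by rw [mul_pow]; exact hC x hx) (G x)
    have e3 := (neg_le_abs _).trans ((abs_re_le_norm _).trans e1)
    simp only [e, add_re, re_ofReal_mul]
    rw [show ∀ z : ℂ, (2 * z).re = 2 * z.re from fun z => by simp]
    nlinarith
  · rw [indicator_of_notMem hx]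
    simp only [hR0 x hx, mul_zero, zero_re, add_zero]
    have := h0 x
    positivity

theorem exists_bound_on {K : Set ℂ} (hKc : IsCompact K) {β : Type*} [NormedAddCommGroup β]
    {u : ℂ → β} (hu : Continuous u) : ∃ M : ℝ, 0 ≤ M ∧ ∀ v ∈ K, ‖u v‖ ≤ M := by
  obtain ⟨M, hM⟩ := hKc.exists_bound_of_continuousOn hu.continuousOn
  exact ⟨|M|, abs_nonneg M, fun v hv => (hM v hv).trans (le_abs_self M)⟩

theorem lap_congr {φ φ' : ℂ → ℝ} {v : ℂ} (h : φ =ᶠ[nhds v] φ') : lap φ v = lap φ' v := by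
  rw [lap_eq, lap_eq, db_congr (ψ' := cgrad φ')]
  filter_upwards [h.eventuallyEq_nhds] with y hy
  rw [cgrad, cgrad, db_congr (ψ' := fun z => (φ' z : ℂ))]
  filter_upwards [hy] with z hz
  rw [hz]

theorem lap_zero (v : ℂ) : lap (fun _ => 0) v = 0 := by
  simp [lap, db]

theorem continuous_lap {φ : ℂ → ℝ} (h : ContDiff ℝ 2 φ) : Continuous (lap φ) :=
  continuous_re.comp (continuous_db (contDiff_cgrad h))

theorem lap_eq_zero {φ : ℂ → ℝ} {v : ℂ} (h : v ∉ tsupport φ) : lap φ v = 0 := by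
  rw [lap_congr (notMem_tsupport_iff_eventuallyEq.1 h)]
  exact lap_zero v

/-- asymptotic sub-mean value inequality for `‖g‖²` -/
theorem Adm.subharm {V K : Set ℂ} {f : ℂ → ℂ} (h : Adm V f K) (hKc : IsCompact K) {m : ℂ → ℝ}
    (hm : Continuous m) (h0 : ∀ x, 0 ≤ m x) {φ : ℂ → ℝ} (hφ : ContDiff ℝ 2 φ) (hφ0 : ∀ v, 0 ≤ φ v)
    (hK : tsupport φ ⊆ K) {g : ℂ → ℂ} (hg : DifferentiableOn ℂ g V) {B C : ℝ}
    (hB : ∀ x ∈ V, f x ∈ K → ‖g x‖ ≤ B) (hC : ∀ x ∈ V, f x ∈ K → ‖deriv f x‖ ^ 2 ≤ C * m x) :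
    Neg m (V.indicator fun x => -(‖g x‖ ^ 2 * lap φ (f x) * ‖deriv f x‖ ^ 2)) := by
  refine neg_of_pointwise hm h0 (h.continuous ?_ fun x _ hx => ?_) fun θ hθ => ?_
  · exact (((hg.continuousOn.norm.pow 2).mul ((continuous_lap hφ).comp_continuousOn
      h.hol.continuousOn)).mul (h.continuousOn_deriv.norm.pow 2)).neg
  · rw [lap_eq_zero fun hh => hx (hK hh)]
    simp
  obtain ⟨M, hM0, hM⟩ := exists_bound_on hKc (contDiff_cgrad hφ).continuous
  obtain ⟨N, hN0, hN⟩ := exists_bound_on hKc hφ.continuous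
  refine ⟨(|C| + 1) / θ * (2 * B ^ 2 * M) ^ 2 + 4 * B ^ 2 * N, fun G hG hc => ?_⟩
  have hφ1 : ContDiff ℝ 1 (fun z => (φ z : ℂ)) :=
    ofRealCLM.contDiff.comp (hφ.of_le one_le_two)
  have hK2 : tsupport (fun z => (φ z : ℂ)) ⊆ K :=
    (tsupport_comp_subset (g := fun r : ℝ => (r : ℂ)) ofReal_zero φ).trans hK
  obtain ⟨R, i1, i2, hR0, hR⟩ := h.stokes (contDiff_cgrad hφ) ((tsupport_cgrad φ).trans hK)
    (hg.fun_mul (h.hol.deriv h.op)) hg hG hc
  obtain ⟨S, j1, j2, hS0, hS⟩ := h.stokes hφ1 hK2 (hg.deriv h.op) hg hG hc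
  refine ⟨fun x => 2 * S x - R x, (j1.const_mul 2).sub i1, ?_, fun x => ?_⟩
  · rw [integral_sub (j1.const_mul 2) i1, integral_const_mul, i2, j2, mul_zero, sub_zero]
  have hpos : 0 ≤ θ * (G x ^ 2 * m x) + ((|C| + 1) / θ * (2 * B ^ 2 * M) ^ 2 + 4 * B ^ 2 * N) *
      ‖fderiv ℝ G x‖ ^ 2 := by
    have := h0 x
    positivity
  by_cases hx : x ∈ V
  swap
  · rw [indicator_of_notMem hx]
    simpa only [hR0 x hx, hS0 x hx, mul_zero, sub_zero, zero_re, add_zero] using hpos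
  rw [indicator_of_mem hx]
  have hdb : db (fun z => (φ z : ℂ)) (f x) = conj (cgrad φ (f x)) := by rw [cgrad, conj_conj]
  by_cases hf : f x ∈ K
  swap
  · have z1 : φ (f x) = 0 := image_eq_zero_of_notMem_tsupport fun hh => hf (hK hh)
    have z2 : cgrad φ (f x) = 0 :=
      image_eq_zero_of_notMem_tsupport fun hh => hf (hK (tsupport_cgrad φ hh))
    have z3 : db (cgrad φ) (f x) = 0 := db_eq_zero fun hh => hf (hK (tsupport_cgrad φ hh))
    have z4 : lap φ (f x) = 0 := lap_eq_zero fun hh => hf (hK hh)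
    simpa only [hR x hx, hS x hx, hdb, z1, z2, z3, z4, ofReal_zero, map_zero, mul_zero, zero_mul,
      neg_zero, sub_zero, zero_re, add_zero] using hpos
  obtain ⟨W, hW⟩ : ∃ W, W = (G x : ℂ) ^ 2 * (2 * (g x * deriv f x) * conj (deriv g x) *
      cgrad φ (f x)) := ⟨_, rfl⟩
  obtain ⟨D, hD⟩ : ∃ D, D = db (fun w => (G w : ℂ)) x := ⟨_, rfl⟩
  have e : 2 * S x - R x = ((4 * φ (f x) : ℝ) : ℂ) * (G x * D * deriv g x * conj (g x)) +
      ((4 * G x ^ 2 * ‖deriv g x‖ ^ 2 * φ (f x) : ℝ) : ℂ) + (conj W - W)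
      - ((2 * ‖g x‖ ^ 2 : ℝ) : ℂ) * (G x * D * deriv f x * cgrad φ (f x))
      - ((G x ^ 2 * ‖g x‖ ^ 2 * ‖deriv f x‖ ^ 2 : ℝ) : ℂ) * db (cgrad φ) (f x) := by
    rw [hR x hx, hS x hx, hdb, hW, ← hD]
    simp only [ofReal_mul, ← mul_conj_norm, map_mul, map_pow, conj_ofReal, conj_conj, map_ofNat]
    push_cast
    ring
  have hDn : ‖D‖ ≤ 2 * ‖fderiv ℝ G x‖ := hD ▸ norm_db_ofReal_le (hG.differentiable one_ne_zero x)
  have hgB := hB x hx hf
  have hgB2 : ‖g x‖ ^ 2 ≤ B ^ 2 := pow_le_pow_left₀ (norm_nonneg _) hgB 2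
  have hφN : φ (f x) ≤ N := (le_abs_self _).trans (hN _ hf)
  have e1 : ‖g x‖ ^ 2 * (G x * D * deriv f x * cgrad φ (f x)).re ≤
      |G x| * ‖deriv f x‖ * (2 * B ^ 2 * M * ‖fderiv ℝ G x‖) := by
    have a1 := hM _ hf
    calc _ ≤ ‖g x‖ ^ 2 * ‖G x * D * deriv f x * cgrad φ (f x)‖ :=
          mul_le_mul_of_nonneg_left (re_le_norm _) (sq_nonneg _)
      _ = |G x| * ‖deriv f x‖ * (‖g x‖ ^ 2 * ‖cgrad φ (f x)‖ * ‖D‖) := by
          simp only [norm_mul, norm_real, Real.norm_eq_abs]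
          ring
      _ ≤ |G x| * ‖deriv f x‖ * (B ^ 2 * M * (2 * ‖fderiv ℝ G x‖)) := by gcongr
      _ = _ := by ring
  have e2 := amgm (b := 2 * B ^ 2 * M * ‖fderiv ℝ G x‖) hθ (h0 x) (hC x hx hf) (G x)
  have e3 : -(4 * (G x * D * deriv g x * conj (g x)).re) ≤
      4 * G x ^ 2 * ‖deriv g x‖ ^ 2 + 4 * B ^ 2 * ‖fderiv ℝ G x‖ ^ 2 := by
    have a1 := (neg_le_abs _).trans (abs_re_le_norm (G x * D * deriv g x * conj (g x)))
    simp only [norm_mul, norm_real, Real.norm_eq_abs, norm_conj] at a1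
    have a2 : (‖D‖ * ‖g x‖) ^ 2 ≤ (2 * ‖fderiv ℝ G x‖) ^ 2 * B ^ 2 := by
      rw [mul_pow]
      gcongr
    nlinarith [sq_nonneg (2 * (|G x| * ‖deriv g x‖) - ‖D‖ * ‖g x‖), sq_abs (G x)]
  have e4 := mul_le_mul_of_nonneg_left e3 (hφ0 (f x))
  have e5 : φ (f x) * (4 * B ^ 2 * ‖fderiv ℝ G x‖ ^ 2) ≤ N * (4 * B ^ 2 * ‖fderiv ℝ G x‖ ^ 2) :=
    mul_le_mul_of_nonneg_right hφN (by positivity)
  simp only [e, add_re, sub_re, re_ofReal_mul, ofReal_re, conj_re, lap_eq]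
  nlinarith

/-- closedness applied to a gradient -/
theorem Adm.lapl {V K : Set ℂ} {f : ℂ → ℂ} (h : Adm V f K) (hKc : IsCompact K) {m : ℂ → ℝ}
    (hm : Continuous m) (h0 : ∀ x, 0 ≤ m x) {φ : ℂ → ℝ} (hφ : ContDiff ℝ 2 φ)
    (hK : tsupport φ ⊆ K) {C : ℝ} (hC : ∀ x ∈ V, f x ∈ K → ‖deriv f x‖ ^ 2 ≤ C * m x) (c : ℝ) :
    Neg m (V.indicator fun x => c * lap φ (f x) * ‖deriv f x‖ ^ 2) := by
  obtain ⟨M, hM0, hM⟩ := exists_bound_on hKc (contDiff_cgrad hφ).continuous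
  have key := h.closed hm h0 (contDiff_cgrad hφ) ((tsupport_cgrad φ).trans hK)
    (C := M ^ 2 * |C|) (fun x hx => ?_) (c : ℂ)
  · simpa only [re_ofReal_mul, ← lap_eq] using key
  have := h0 x
  by_cases hf : f x ∈ K
  · have a1 := hM _ hf
    have a2 : ‖deriv f x‖ ^ 2 ≤ |C| * m x :=
      (hC x hx hf).trans (mul_le_mul_of_nonneg_right (le_abs_self C) this)
    rw [mul_assoc]
    gcongr
  · rw [image_eq_zero_of_notMem_tsupport fun hh => hf (hK (tsupport_cgrad φ hh))]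
    simp only [norm_zero, ne_eq, OfNat.ofNat_ne_zero, not_false_eq_true, zero_pow, zero_mul]
    positivity

theorem db_prod {F₁ F₂ : ℝ → ℝ} (h₁ : Differentiable ℝ F₁) (h₂ : Differentiable ℝ F₂) (v : ℂ) :
    db (fun w => ((F₁ w.re * F₂ w.im : ℝ) : ℂ)) v
      = (deriv F₁ v.re * F₂ v.im : ℝ) + I * (F₁ v.re * deriv F₂ v.im : ℝ) := by
  have a := (h₁ v.re).hasDerivAt.comp_hasFDerivAt v (reCLM.hasFDerivAt (x := v))
  have b := (h₂ v.im).hasDerivAt.comp_hasFDerivAt v (imCLM.hasFDerivAt (x := v))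
  rw [db_ofReal (F := fun w => F₁ w.re * F₂ w.im) (a.mul b)]
  simp [mul_comm]

theorem hasFDerivAt_normSq (c v : ℂ) : HasFDerivAt (fun w => normSq (w - c))
    ((2 * (v - c).re) • reCLM + (2 * (v - c).im) • imCLM) v := by
  have a := (reCLM.hasFDerivAt (x := v)).sub_const c.re
  have b := (imCLM.hasFDerivAt (x := v)).sub_const c.im
  refine ((a.mul a).add (b.mul b)).congr_fderiv ?_ |>.congr_of_eventuallyEq
    (Filter.Eventually.of_forall fun w => by simp [normSq_apply])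
  ext w
  simp
  ring

theorem db_normSq {k : ℝ → ℝ} (hk : Differentiable ℝ k) (c v : ℂ) :
    db (fun w => (k (normSq (w - c)) : ℂ)) v
      = (v - c) * ((2 * deriv k (normSq (v - c)) : ℝ) : ℂ) := by
  rw [db_ofReal (F := fun w => k (normSq (w - c)))
    ((hk _).hasDerivAt.comp_hasFDerivAt v (hasFDerivAt_normSq c v))]
  apply Complex.ext <;> simp <;> ring

theorem db_radial {k : ℝ → ℝ} (hk : Differentiable ℝ k) (c v : ℂ) :
    db (fun w => conj (w - c) * (k (normSq (w - c)) : ℂ)) v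
      = (2 * (k (normSq (v - c)) + normSq (v - c) * deriv k (normSq (v - c))) : ℝ) := by
  have a : DifferentiableAt ℝ (fun w : ℂ => conj (w - c)) v :=
    (differentiable_conj' _).comp v (differentiableAt_fun_id.sub_const c)
  have b : DifferentiableAt ℝ (fun w : ℂ => (k (normSq (w - c)) : ℂ)) v :=
    ofRealCLM.differentiableAt.comp v ((hk _).comp v (hasFDerivAt_normSq c v).differentiableAt)
  rw [db_mul a b, db_normSq hk, db_conj_hol (differentiableAt_fun_id.sub_const c), ← mul_assoc,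
    ← normSq_eq_conj_mul_self]
  simp only [deriv_sub_const, deriv_id'', map_one]
  push_cast
  ring

theorem lap_radial {Φ : ℝ → ℝ} (hΦ : ContDiff ℝ 2 Φ) (c v : ℂ) :
    lap (fun w => Φ (normSq (w - c))) v
      = 4 * (deriv Φ (normSq (v - c)) + normSq (v - c) * deriv (deriv Φ) (normSq (v - c))) := by
  have h1 : Differentiable ℝ Φ := hΦ.differentiable two_ne_zero
  have h2 : Differentiable ℝ (deriv Φ) := by
    have : ContDiff ℝ 1 (deriv Φ) := hΦ.deriv'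
    exact this.differentiable one_ne_zero
  have e : (fun w => conj (db (fun z => (Φ (normSq (z - c)) : ℂ)) w)) =
      fun w => conj (w - c) * (((fun s => 2 * deriv Φ s) (normSq (w - c)) : ℝ) : ℂ) := by
    funext w
    rw [db_normSq h1, map_mul, conj_ofReal]
  rw [lap, e, db_radial (k := fun s => 2 * deriv Φ s) (h2.const_mul 2), ofReal_re,
    deriv_const_mul _ (h2 _)]
  ring

theorem lap_add {φ φ' : ℂ → ℝ} (h : ContDiff ℝ 2 φ) (h' : ContDiff ℝ 2 φ') (v : ℂ) :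
    lap (fun w => φ w + φ' w) v = lap φ v + lap φ' v := by
  have e : cgrad (fun w => φ w + φ' w) = fun w => cgrad φ w + cgrad φ' w := by
    funext w
    have a : DifferentiableAt ℝ (fun z => (φ z : ℂ)) w :=
      ofRealCLM.differentiableAt.comp w (h.differentiable two_ne_zero w)
    have b : DifferentiableAt ℝ (fun z => (φ' z : ℂ)) w :=
      ofRealCLM.differentiableAt.comp w (h'.differentiable two_ne_zero w)
    simp only [cgrad, ofReal_add]
    rw [db_add a b, map_add]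
  rw [lap_eq, lap_eq, lap_eq, e, db_add ((contDiff_cgrad h).differentiable one_ne_zero v)
    ((contDiff_cgrad h').differentiable one_ne_zero v), add_re]

end Pool.Agent.MP_2790d1_an

end

-- part MP_2790d1_an.Step
section

/-! Piecewise polynomial `C¹` cut-offs, transport lemmas and a radial test function. -/

open Complex Set

namespace Pool.Agent.MP_2790d1_an

/-- square of the positive part -/
noncomputable def qq (x : ℝ) : ℝ := (max x 0) ^ 2

/-- the tent function -/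
noncomputable def tn (x : ℝ) : ℝ := max (1 - |x|) 0

/-- a `C¹` step with derivative the tent function -/
noncomputable def st (x : ℝ) : ℝ := (qq (x + 1) - 2 * qq x + qq (x - 1)) / 2

/-- a `C¹` bump -/
noncomputable def bp (x : ℝ) : ℝ := qq (1 - x ^ 2)

theorem qq_nonneg (x : ℝ) : 0 ≤ qq x := sq_nonneg _

theorem qq_of_nonpos {x : ℝ} (h : x ≤ 0) : qq x = 0 := by simp [qq, max_eq_right h]

theorem qq_of_nonneg {x : ℝ} (h : 0 ≤ x) : qq x = x ^ 2 := by simp [qq, max_eq_left h]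

theorem qq_hasDerivAt (x : ℝ) : HasDerivAt qq (2 * max x 0) x := by
  rcases lt_trichotomy x 0 with h | h | h
  · have : qq =ᶠ[nhds x] fun _ => 0 := by
      filter_upwards [Iio_mem_nhds h] with y hy using qq_of_nonpos (le_of_lt hy)
    rw [max_eq_right h.le, mul_zero]
    exact (hasDerivAt_const x 0).congr_of_eventuallyEq this
  · subst h
    rw [max_self, mul_zero, hasDerivAt_iff_isLittleO_nhds_zero]
    have h2 : (fun y : ℝ => y ^ 2) =o[nhds 0] fun y => y := by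
      simpa using Asymptotics.isLittleO_pow_id (𝕜 := ℝ) (n := 2) (by norm_num)
    refine Asymptotics.IsBigO.trans_isLittleO ?_ h2
    refine Asymptotics.IsBigO.of_bound' (Filter.Eventually.of_forall fun y => ?_)
    simp only [zero_add, smul_zero, sub_zero, qq_of_nonpos (le_refl (0 : ℝ)), Real.norm_eq_abs]
    rw [abs_of_nonneg (qq_nonneg y), abs_of_nonneg (sq_nonneg y)]
    rcases le_total y 0 with hy | hy
    · rw [qq_of_nonpos hy]; positivity
    · rw [qq_of_nonneg hy]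
  · have : qq =ᶠ[nhds x] fun y => y ^ 2 := by
      filter_upwards [Ioi_mem_nhds h] with y hy using qq_of_nonneg (le_of_lt hy)
    rw [max_eq_left h.le]
    refine HasDerivAt.congr_of_eventuallyEq ?_ this
    simpa using hasDerivAt_pow 2 x

theorem qq_contDiff : ContDiff ℝ 1 qq := by
  rw [contDiff_one_iff_deriv]
  refine ⟨fun x => (qq_hasDerivAt x).differentiableAt, ?_⟩
  have : deriv qq = fun x => 2 * max x 0 := funext fun x => (qq_hasDerivAt x).deriv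
  rw [this]; fun_prop

theorem tn_nonneg (x : ℝ) : 0 ≤ tn x := le_max_right _ _

theorem tn_le_one (x : ℝ) : tn x ≤ 1 := max_le (by linarith [abs_nonneg x]) zero_le_one

theorem tn_eq_zero {x : ℝ} (h : 1 ≤ |x|) : tn x = 0 := max_eq_right (by linarith)

theorem abs_lt_of_tn {x : ℝ} (h : tn x ≠ 0) : |x| < 1 := by
  by_contra hc; exact h (tn_eq_zero (not_lt.1 hc))

theorem le_tn (x : ℝ) : 1 - |x| ≤ tn x := le_max_left _ _

theorem tn_continuous : Continuous tn := by unfold tn; fun_prop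

theorem st_hasDerivAt (x : ℝ) : HasDerivAt st (tn x) x := by
  have h1 := (qq_hasDerivAt (x + 1)).comp_add_const x 1
  have h2 := (qq_hasDerivAt x).const_mul 2
  have h3 := (qq_hasDerivAt (x - 1)).comp_sub_const x 1
  refine (((h1.fun_sub h2).fun_add h3).div_const 2).congr_deriv ?_
  unfold tn
  rcases abs_cases x with h | h <;> simp only [max_def] <;> split_ifs <;> linarith [h.1, h.2]

theorem st_contDiff : ContDiff ℝ 1 st := by
  rw [contDiff_one_iff_deriv]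
  refine ⟨fun x => (st_hasDerivAt x).differentiableAt, ?_⟩
  have : deriv st = tn := funext fun x => (st_hasDerivAt x).deriv
  rw [this]; exact tn_continuous

theorem st_zero {x : ℝ} (h : x ≤ -1) : st x = 0 := by
  unfold st
  rw [qq_of_nonpos (by linarith), qq_of_nonpos (by linarith), qq_of_nonpos (by linarith)]; ring

theorem st_one {x : ℝ} (h : 1 ≤ x) : st x = 1 := by
  unfold st
  rw [qq_of_nonneg (by linarith), qq_of_nonneg (by linarith), qq_of_nonneg (by linarith)]; ring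

theorem st_mono : Monotone st :=
  monotone_of_deriv_nonneg (fun x => (st_hasDerivAt x).differentiableAt) fun x => by
    rw [(st_hasDerivAt x).deriv]; exact tn_nonneg x

theorem st_nonneg (x : ℝ) : 0 ≤ st x := by
  rw [← st_zero (min_le_right x (-1))]; exact st_mono (min_le_left _ _)

theorem st_le_one (x : ℝ) : st x ≤ 1 := by
  rw [← st_one (le_max_right x 1)]; exact st_mono (le_max_left _ _)

theorem bp_nonneg (x : ℝ) : 0 ≤ bp x := qq_nonneg _

theorem bp_eq_zero {x : ℝ} (h : 1 ≤ |x|) : bp x = 0 :=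
  qq_of_nonpos (by nlinarith [sq_abs x])

theorem abs_lt_of_bp {x : ℝ} (h : bp x ≠ 0) : |x| < 1 := by
  by_contra hc; exact h (bp_eq_zero (not_lt.1 hc))

theorem bp_le_one (x : ℝ) : bp x ≤ 1 := by
  unfold bp qq
  have h1 : max (1 - x ^ 2) 0 ≤ 1 := max_le (by nlinarith) zero_le_one
  have h0 : 0 ≤ max (1 - x ^ 2) 0 := le_max_right _ _
  nlinarith

theorem le_bp {x : ℝ} (h : |x| ≤ 1 / 2) : 1 / 2 ≤ bp x := by
  have h1 : x ^ 2 ≤ 1 / 4 := by nlinarith [sq_abs x, abs_nonneg x]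
  unfold bp
  rw [qq_of_nonneg (by linarith)]; nlinarith

theorem bp_contDiff : ContDiff ℝ 1 bp := qq_contDiff.comp (by fun_prop)

/-- difference of two steps -/
noncomputable def sd (r r' a : ℝ) (x : ℝ) : ℝ := st ((x - r) / a) - st ((x - r') / a)

theorem sd_contDiff (r r' a : ℝ) : ContDiff ℝ 1 (sd r r' a) :=
  (st_contDiff.comp (by fun_prop)).sub (st_contDiff.comp (by fun_prop))

theorem sd_deriv (r r' a x : ℝ) :
    deriv (sd r r' a) x = (tn ((x - r) / a) - tn ((x - r') / a)) / a := by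
  have h : ∀ r : ℝ, HasDerivAt (fun x => st ((x - r) / a)) (tn ((x - r) / a) * (1 / a)) x :=
    fun r => (st_hasDerivAt _).comp x (((hasDerivAt_id x).sub_const r).div_const a)
  have := ((h r).fun_sub (h r')).deriv
  unfold sd
  rw [this]; ring

theorem abs_sd_le (r r' a x : ℝ) : |sd r r' a x| ≤ 1 := by
  unfold sd
  rw [abs_le]
  constructor <;>
    linarith [st_nonneg ((x - r) / a), st_nonneg ((x - r') / a), st_le_one ((x - r) / a),
      st_le_one ((x - r') / a)]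

theorem sd_supp {r r' a lo hi x : ℝ} (ha : 0 < a) (h1 : lo + a ≤ r) (h2 : lo + a ≤ r')
    (h3 : r + a ≤ hi) (h4 : r' + a ≤ hi) (h : sd r r' a x ≠ 0) : lo ≤ x ∧ x ≤ hi := by
  constructor
  · by_contra hc
    apply h
    unfold sd
    rw [st_zero, st_zero, sub_zero] <;> rw [div_le_iff₀ ha] <;> linarith
  · by_contra hc
    apply h
    unfold sd
    rw [st_one, st_one, sub_self] <;> rw [le_div_iff₀ ha] <;> linarith

theorem bp_supp {y w x : ℝ} (hw : 0 < w) (h : bp ((x - y) / w) ≠ 0) : y - w ≤ x ∧ x ≤ y + w := by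
  have := abs_lt_of_bp h
  rw [abs_div, abs_of_pos hw, div_lt_one hw, abs_lt] at this
  constructor <;> linarith [this.1, this.2]

theorem tn_supp {y w x : ℝ} (hw : 0 < w) (h : tn ((x - y) / w) ≠ 0) : y - w < x ∧ x < y + w := by
  have := abs_lt_of_tn h
  rw [abs_div, abs_of_pos hw, div_lt_one hw, abs_lt] at this
  constructor <;> linarith [this.1, this.2]

/-- closedness tested against a product -/
theorem Adm.prod {V K : Set ℂ} {f : ℂ → ℂ} (h : Adm V f K) (hK : IsClosed K) {m : ℂ → ℝ}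
    (hm : Continuous m) (h0 : ∀ x, 0 ≤ m x) {C : ℝ} (hC0 : 0 ≤ C)
    (hC : ∀ x ∈ V, f x ∈ K → ‖deriv f x‖ ^ 2 ≤ C * m x) {F₁ F₂ : ℝ → ℝ} (h₁ : ContDiff ℝ 1 F₁)
    (h₂ : ContDiff ℝ 1 F₂) (b₁ : ∀ x, |F₁ x| ≤ 1) (b₂ : ∀ x, |F₂ x| ≤ 1)
    (hs : ∀ v : ℂ, F₁ v.re ≠ 0 → F₂ v.im ≠ 0 → v ∈ K) (c₁ c₂ : ℝ) :
    Neg m (V.indicator fun x => (c₁ * (deriv F₁ (f x).re * F₂ (f x).im)
      + c₂ * (F₁ (f x).re * deriv F₂ (f x).im)) * ‖deriv f x‖ ^ 2) := by
  have hψ : ContDiff ℝ 1 fun w : ℂ => ((F₁ w.re * F₂ w.im : ℝ) : ℂ) :=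
    ofRealCLM.contDiff.comp ((h₁.comp reCLM.contDiff).mul (h₂.comp imCLM.contDiff))
  have hsupp : ∀ v : ℂ, ((F₁ v.re * F₂ v.im : ℝ) : ℂ) ≠ 0 → v ∈ K := by
    intro v hv
    rw [ne_eq, ofReal_eq_zero, mul_eq_zero, not_or] at hv
    exact hs v hv.1 hv.2
  have := h.closed hm h0 hψ (closure_minimal hsupp hK) (C := C) ?_ (c₁ - c₂ * I)
  · refine (congrArg (Neg m) ?_).mp this
    congr 1
    funext x
    rw [db_prod (h₁.differentiable one_ne_zero) (h₂.differentiable one_ne_zero)]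
    simp
  · intro x hx
    by_cases hk : f x ∈ K
    · have h1 : ‖((F₁ (f x).re * F₂ (f x).im : ℝ) : ℂ)‖ ≤ 1 := by
        rw [norm_real, Real.norm_eq_abs, abs_mul]
        exact mul_le_one₀ (b₁ _) (abs_nonneg _) (b₂ _)
      calc _ ≤ 1 ^ 2 * ‖deriv f x‖ ^ 2 := by gcongr
        _ ≤ _ := by rw [one_pow, one_mul]; exact hC x hx hk
    · have : ((F₁ (f x).re * F₂ (f x).im : ℝ) : ℂ) = 0 := by
        by_contra hc; exact hk (hsupp _ hc)
      rw [this]
      simpa using mul_nonneg hC0 (h0 x)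

theorem abs_bp_le (x : ℝ) : |bp x| ≤ 1 := by rw [abs_of_nonneg (bp_nonneg x)]; exact bp_le_one x

/-- horizontal transport -/
theorem Adm.transport_re {V K : Set ℂ} {f : ℂ → ℂ} (h : Adm V f K) (hK : IsClosed K) {m : ℂ → ℝ}
    (hm : Continuous m) (h0 : ∀ x, 0 ≤ m x) {C : ℝ} (hC0 : 0 ≤ C)
    (hC : ∀ x ∈ V, f x ∈ K → ‖deriv f x‖ ^ 2 ≤ C * m x) {r r' a y w : ℝ} (ha : 0 < a) (hw : 0 < w)
    (hr : r ≤ r')
    (hs : ∀ v : ℂ, r - a ≤ v.re → v.re ≤ r' + a → y - w ≤ v.im → v.im ≤ y + w → v ∈ K) :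
    Neg m (V.indicator fun x => (tn (((f x).re - r) / a) - tn (((f x).re - r') / a))
      * bp (((f x).im - y) / w) * ‖deriv f x‖ ^ 2) := by
  have := h.prod hK hm h0 hC0 hC (sd_contDiff r r' a) (F₂ := fun x => bp ((x - y) / w))
    (bp_contDiff.comp (by fun_prop)) (abs_sd_le r r' a) (fun x => abs_bp_le _) ?_ a 0
  · refine (congrArg (Neg m) ?_).mp this
    congr 1
    funext x
    rw [sd_deriv]
    field_simp
    ring
  · intro v h1 h2
    have a1 := sd_supp (lo := r - a) (hi := r' + a) ha (by linarith) (by linarith) (by linarith)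
      (by linarith) h1
    have a2 := bp_supp hw h2
    exact hs v a1.1 a1.2 a2.1 a2.2

/-- vertical transport -/
theorem Adm.transport_im {V K : Set ℂ} {f : ℂ → ℂ} (h : Adm V f K) (hK : IsClosed K) {m : ℂ → ℝ}
    (hm : Continuous m) (h0 : ∀ x, 0 ≤ m x) {C : ℝ} (hC0 : 0 ≤ C)
    (hC : ∀ x ∈ V, f x ∈ K → ‖deriv f x‖ ^ 2 ≤ C * m x) {r r' a : ℝ} (ha : 0 < a) (hr : r' ≤ r)
    (hs : ∀ v : ℂ, -a ≤ v.re → v.re ≤ a → r' - a ≤ v.im → v.im ≤ r + a → v ∈ K) :
    Neg m (V.indicator fun x => (tn (((f x).im - r) / a) - tn (((f x).im - r') / a))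
      * bp (((f x).re - 0) / a) * ‖deriv f x‖ ^ 2) := by
  have := h.prod hK hm h0 hC0 hC (F₁ := fun x => bp ((x - 0) / a))
    (bp_contDiff.comp (by fun_prop)) (sd_contDiff r r' a) (fun x => abs_bp_le _)
    (abs_sd_le r r' a) ?_ 0 a
  · refine (congrArg (Neg m) ?_).mp this
    congr 1
    funext x
    rw [sd_deriv]
    field_simp
    ring
  · intro v h1 h2
    have a1 := sd_supp (lo := r' - a) (hi := r + a) ha (by linarith) (by linarith) (by linarith)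
      (by linarith) h2
    have a2 := bp_supp ha h1
    exact hs v (by linarith [a2.1]) (by linarith [a2.2]) a1.1 a1.2

/-- a radial profile whose Laplacian is an outer ring minus an inner ring -/
theorem exists_profile {ro wo ri wi : ℝ} (hwo : 0 < wo) (hwi : 0 < wi) (h1 : wi < ri)
    (h2 : ri + wi ≤ ro - wo) :
    ∃ Φ : ℝ → ℝ, ContDiff ℝ 2 Φ ∧ (∀ ρ, 0 ≤ Φ ρ) ∧ (∀ ρ, ro + wo ≤ ρ → Φ ρ = 0) ∧
      ∀ ρ, deriv Φ ρ + ρ * deriv (deriv Φ) ρ
        = tn ((ρ - ro) / wo) / wo - tn ((ρ - ri) / wi) / wi := by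
  set κ : ℝ → ℝ := fun ρ => st ((ρ - ro) / wo) - st ((ρ - ri) / wi) with hκ
  have κc : ContDiff ℝ 1 κ := (st_contDiff.comp (by fun_prop)).sub (st_contDiff.comp (by fun_prop))
  have κd : ∀ ρ, HasDerivAt κ (tn ((ρ - ro) / wo) / wo - tn ((ρ - ri) / wi) / wi) ρ := by
    intro ρ
    have h : ∀ r a : ℝ, HasDerivAt (fun x => st ((x - r) / a)) (tn ((ρ - r) / a) * (1 / a)) ρ :=
      fun r a => (st_hasDerivAt _).comp ρ (((hasDerivAt_id ρ).sub_const r).div_const a)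
    exact ((h ro wo).fun_sub (h ri wi)).congr_deriv (by ring)
  have κl : ∀ ρ, ρ ≤ ri - wi → κ ρ = 0 := by
    intro ρ hρ
    simp only [hκ]
    rw [st_zero, st_zero, sub_zero]
    · rw [div_le_iff₀ hwi]; linarith
    · rw [div_le_iff₀ hwo]; linarith
  have κr : ∀ ρ, ro + wo ≤ ρ → κ ρ = 0 := by
    intro ρ hρ
    simp only [hκ]
    rw [st_one, st_one, sub_self]
    · rw [le_div_iff₀ hwi]; linarith
    · rw [le_div_iff₀ hwo]; linarith
  have κn : ∀ ρ, κ ρ ≤ 0 := by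
    intro ρ
    simp only [hκ]
    rcases le_total ρ (ro - wo) with h | h
    · rw [st_zero (by rw [div_le_iff₀ hwo]; linarith)]; linarith [st_nonneg ((ρ - ri) / wi)]
    · rw [st_one (x := (ρ - ri) / wi) (by rw [le_div_iff₀ hwi]; linarith)]
      linarith [st_le_one ((ρ - ro) / wo)]
  set k : ℝ → ℝ := fun ρ => κ ρ / ρ with hk
  have kc : ContDiff ℝ 1 k := by
    rw [contDiff_iff_contDiffAt]
    intro ρ
    by_cases h : ρ = 0
    · have : k =ᶠ[nhds ρ] fun _ => 0 := by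
        filter_upwards [Iio_mem_nhds (show ρ < ri - wi by linarith)] with y hy
        simp only [hk, κl y (le_of_lt hy), zero_div]
      exact contDiffAt_const.congr_of_eventuallyEq this
    · exact κc.contDiffAt.div contDiffAt_id h
  have kn : ∀ ρ, k ρ ≤ 0 := by
    intro ρ
    rcases le_total ρ 0 with h | h
    · simp only [hk, κl ρ (by linarith), zero_div, le_refl]
    · exact div_nonpos_of_nonpos_of_nonneg (κn ρ) h
  have Φd : ∀ ρ, HasDerivAt (fun ρ => ∫ x in (ro + wo)..ρ, k x) (k ρ) ρ := fun ρ =>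
    (kc.continuous.integral_hasStrictDerivAt _ ρ).hasDerivAt
  have Φd' : deriv (fun ρ => ∫ x in (ro + wo)..ρ, k x) = k := funext fun ρ => (Φd ρ).deriv
  have Φ0 : ∀ ρ, ro + wo ≤ ρ → ∫ x in (ro + wo)..ρ, k x = 0 := by
    intro ρ hρ
    rw [intervalIntegral.integral_congr (g := fun _ => 0)]
    · simp
    · intro x hx
      rw [uIcc_of_le hρ] at hx
      simp only [hk, κr x hx.1, zero_div]
  refine ⟨fun ρ => ∫ x in (ro + wo)..ρ, k x, ?_, ?_, Φ0, ?_⟩
  · rw [show (2 : WithTop ℕ∞) = 1 + 1 by rfl, contDiff_succ_iff_deriv, Φd']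
    exact ⟨fun ρ => (Φd ρ).differentiableAt, by simp, kc⟩
  · intro ρ
    rcases le_total (ro + wo) ρ with h | h
    · exact (Φ0 ρ h).ge
    · show 0 ≤ ∫ x in (ro + wo)..ρ, k x
      rw [intervalIntegral.integral_symm, ← intervalIntegral.integral_neg]
      exact intervalIntegral.integral_nonneg h fun x _ => neg_nonneg.2 (kn x)
  · intro ρ
    rw [Φd']
    have e : κ = fun ρ => ρ * k ρ := by
      funext ρ
      by_cases h : ρ = 0
      · rw [κl ρ (by linarith), h, zero_mul]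
      · simp only [hk]; field_simp
    have h3 := ((hasDerivAt_id ρ).fun_mul (kc.differentiable one_ne_zero ρ).hasDerivAt)
    have h4 := κd ρ
    rw [e] at h4
    rw [← h3.unique h4]
    simp

end Pool.Agent.MP_2790d1_an

end

-- part MP_2790d1_an.Chart
section

/-! Logarithmic charts along the ribbon and negligibility of the corridor between two layers. -/

open Complex Set

namespace Pool.Agent.MP_2790d1_an

/-- `2 π i / P`, `P = 10^5` -/
noncomputable def cc : ℂ := 2 * Real.pi * I / 100000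

/-- exponential with period `P` -/
noncomputable def ee (v : ℂ) : ℂ := exp (cc * v)

/-- the (rescaled) ribbon -/
def Rib : Set ℂ := {v | |v.re| < 100004 ∧ |v.im - v.re / 100000| < 5025 / 10000}

/-- chart centred at `p` -/
noncomputable def ch (Z : ℂ → ℂ) (p : ℝ) (x : ℂ) : ℂ := p + log (Z x / ee p) / cc

/-- domain of the chart -/
def Dom (W : Set ℂ) (Z : ℂ → ℂ) (p : ℝ) : Set ℂ := {x | x ∈ W ∧ Z x / ee p ∈ slitPlane}

theorem cc_ne : cc ≠ 0 := by
  unfold cc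
  have : (Real.pi : ℂ) ≠ 0 := ofReal_ne_zero.2 Real.pi_ne_zero
  simp [this]

theorem cc_mul_re (v : ℂ) : (cc * v).re = -(2 * Real.pi / 100000 * v.im) := by
  unfold cc; simp [div_ofNat_re, div_ofNat_im]

theorem cc_mul_im (v : ℂ) : (cc * v).im = 2 * Real.pi / 100000 * v.re := by
  unfold cc; simp [div_ofNat_re, div_ofNat_im]

theorem ee_ne (v : ℂ) : ee v ≠ 0 := exp_ne_zero _

theorem ee_neg (v : ℂ) : ee (-v) = (ee v)⁻¹ := by unfold ee; rw [mul_neg, exp_neg]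

theorem ee_sub_P (v : ℂ) : ee (v - (100000 : ℝ)) = ee v := by
  unfold ee
  have : cc * (v - (100000 : ℝ)) = cc * v - 2 * Real.pi * I := by
    unfold cc; push_cast; ring
  rw [this, exp_sub, exp_two_pi_mul_I, div_one]

theorem ee_continuous : Continuous ee := by unfold ee; fun_prop

theorem ee_ch {Z : ℂ → ℂ} {x : ℂ} (h : Z x ≠ 0) (p : ℝ) : ee (ch Z p x) = Z x := by
  unfold ch
  have e : cc * (p + log (Z x / ee p) / cc) = cc * p + log (Z x / ee p) := by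
    field_simp [cc_ne]
  rw [ee, e, exp_add, exp_log (div_ne_zero h (ee_ne p))]
  exact mul_div_cancel₀ _ (ee_ne p)

theorem chart_eq {W : Set ℂ} {Z : ℂ → ℂ} {x v : ℂ} {p : ℝ} (hx : x ∈ W) (h : Z x = ee v)
    (hv : |v.re - p| < 50000) : x ∈ Dom W Z p ∧ ch Z p x = v := by
  have e : Z x / ee p = exp (cc * (v - p)) := by rw [h, mul_sub, exp_sub]; rfl
  have hi : (cc * (v - p)).im = 2 * Real.pi / 100000 * (v.re - p) := by rw [cc_mul_im]; simp
  rw [abs_lt] at hv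
  have hp := Real.pi_pos
  have h1 : -Real.pi < (cc * (v - p)).im := by rw [hi]; nlinarith
  have h2 : (cc * (v - p)).im < Real.pi := by rw [hi]; nlinarith
  have hl := log_exp h1 h2.le
  refine ⟨⟨hx, ?_⟩, ?_⟩
  · rw [e, mem_slitPlane_iff_arg]
    refine ⟨?_, exp_ne_zero _⟩
    rw [← log_im, hl]; exact h2.ne
  · unfold ch
    rw [e, hl]
    field_simp [cc_ne]
    ring

theorem ann {v : ℂ} (h : |v.im| ≤ 2) : 100 / 101 ≤ ‖ee v‖ ∧ ‖ee v‖ ≤ 101 / 100 := by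
  have key : ∀ y : ℝ, |y| ≤ 2 → Real.exp (2 * Real.pi / 100000 * y) ≤ 101 / 100 := by
    intro y hy
    have h1 : |2 * Real.pi / 100000 * y| ≤ 1 / 1000 := by
      rw [abs_mul, abs_of_pos (by positivity)]
      nlinarith [Real.pi_le_four, Real.pi_pos, abs_nonneg y]
    have := Real.abs_exp_sub_one_le (h1.trans (by norm_num))
    linarith [le_abs_self (Real.exp (2 * Real.pi / 100000 * y) - 1)]
  rw [ee, norm_exp, cc_mul_re]
  constructor
  · rw [Real.exp_neg, le_inv_comm₀ (by norm_num) (Real.exp_pos _)]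
    exact (key _ h).trans (by norm_num)
  · rw [← mul_neg]; exact key _ (by rwa [abs_neg])

theorem isOpen_rib : IsOpen Rib :=
  (isOpen_lt (f := fun v : ℂ => |v.re|) (by fun_prop) continuous_const).inter
    (isOpen_lt (f := fun v : ℂ => |v.im - v.re / 100000|) (by fun_prop) continuous_const)

/-- the data of one half of the argument -/
structure Hyp (W : Set ℂ) (Z gf : ℂ → ℂ) (m σ : ℂ → ℝ) (μ C : ℝ) : Prop where
  op : IsOpen W
  hZ : DifferentiableOn ℂ Z W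
  Z0 : ∀ x ∈ W, Z x ≠ 0
  hg : DifferentiableOn ℂ gf W
  g0 : ∀ x ∈ W, gf x ≠ 0
  cl : IsClosed {x | x ∈ W ∧ 100 / 101 ≤ ‖Z x‖ ∧ ‖Z x‖ ≤ 101 / 100}
  mc : Continuous m
  m0 : ∀ x, 0 ≤ m x
  C0 : 0 ≤ C
  dom : ∀ x ∈ W, 100 / 101 ≤ ‖Z x‖ → ‖Z x‖ ≤ 101 / 100 →
    ‖deriv Z x / Z x / cc‖ ^ 2 ≤ C * m x
  σc : ContinuousOn σ Rib
  μ0 : 0 < μ
  av : ∀ x ∈ W, ∀ v ∈ Rib, Z x = ee v → Real.log ‖gf x‖ ≠ σ v
  hA : ∀ v : ℂ, |v.re| ≤ 1 → -(3 / 2) ≤ v.im → v.im ≤ -(4995 / 10000) →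
    μ * (-v.im - 51 / 100) ≤ σ (v - (100000 : ℝ))
  hB : ∀ v : ℂ, |v.re| ≤ 1 → -(5005 / 10000) ≤ v.im → v.im ≤ 1 / 2 → -(μ / 100) ≤ σ v
  ord : ∀ v : ℂ, |v.re| ≤ 3 → |v.im + 1 / 2| ≤ 2 / 1000 → σ (v - (100000 : ℝ)) < σ v
  roof : ∀ x ∈ W, ∀ v : ℂ, Z x = ee v → ‖v + I / 2‖ ≤ 1 / 200 → Real.log ‖gf x‖ ≤ μ / 5

/-- points above the layer `σ (· - c)` in the chart `p` -/
def Ab (W : Set ℂ) (Z gf : ℂ → ℂ) (σ : ℂ → ℝ) (p c : ℝ) : Set ℂ :=
  {x | x ∈ Dom W Z p ∧ ch Z p x - c ∈ Rib ∧ σ (ch Z p x - c) < Real.log ‖gf x‖}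

/-- bump along the band -/
noncomputable def bnd (W : Set ℂ) (Z gf : ℂ → ℂ) (σ : ℂ → ℝ) (p r : ℝ) : ℂ → ℝ :=
  (Ab W Z gf σ p 0).indicator fun x => tn (((ch Z p x).re - r) / 3)
    * bp (((ch Z p x).im - -(1 / 2)) / (2 / 1000)) * ‖deriv (ch Z p) x‖ ^ 2

namespace Hyp
variable {W : Set ℂ} {Z gf : ℂ → ℂ} {m σ : ℂ → ℝ} {μ C : ℝ}

theorem isOpen_dom (H : Hyp W Z gf m σ μ C) (p : ℝ) : IsOpen (Dom W Z p) :=
  (H.hZ.continuousOn.div_const (ee p)).isOpen_inter_preimage H.op isOpen_slitPlane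

theorem ch_hasDerivAt (H : Hyp W Z gf m σ μ C) {p : ℝ} {x : ℂ} (hx : x ∈ Dom W Z p) :
    HasDerivAt (ch Z p) (deriv Z x / Z x / cc) x := by
  have h1 := ((H.hZ.differentiableAt (H.op.mem_nhds hx.1)).hasDerivAt.div_const (ee p)).clog hx.2
  refine ((h1.div_const cc).const_add (p : ℂ)).congr_deriv ?_
  have := H.Z0 x hx.1
  have := ee_ne p
  field_simp

theorem ch_diffOn (H : Hyp W Z gf m σ μ C) (p : ℝ) : DifferentiableOn ℂ (ch Z p) (Dom W Z p) :=
  fun _ hx => (H.ch_hasDerivAt hx).differentiableAt.differentiableWithinAt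

theorem log_contOn (H : Hyp W Z gf m σ μ C) : ContinuousOn (fun x => Real.log ‖gf x‖) W :=
  H.hg.continuousOn.norm.log fun x hx => norm_ne_zero_iff.2 (H.g0 x hx)

theorem win (H : Hyp W Z gf m σ μ C) {p : ℝ} {x : ℂ} (hx : x ∈ Dom W Z p) :
    Z x = ee (ch Z p x) := (ee_ch (H.Z0 x hx.1) p).symm

theorem adm (H : Hyp W Z gf m σ μ C) {p c : ℝ} (hc : ∀ v, ee (v - c) = ee v) {K : Set ℂ}
    (hK : IsCompact K) (h : ∀ v ∈ K, |v.re - p| < 50000 ∧ |v.im| ≤ 2 ∧ v - c ∈ Rib) :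
    Adm (Ab W Z gf σ p c) (ch Z p) K ∧
      ∀ x ∈ Ab W Z gf σ p c, ch Z p x ∈ K → ‖deriv (ch Z p) x‖ ^ 2 ≤ C * m x := by
  have hch : ContinuousOn (fun x => ch Z p x - c) (Dom W Z p) :=
    (H.ch_diffOn p).continuousOn.sub continuousOn_const
  refine ⟨⟨?_, (H.ch_diffOn p).mono fun x hx => hx.1, ?_⟩, ?_⟩
  · have o1 := hch.isOpen_inter_preimage (H.isOpen_dom p) isOpen_rib
    have c1 : ContinuousOn (fun x => Real.log ‖gf x‖ - σ (ch Z p x - c))
        (Dom W Z p ∩ (fun x => ch Z p x - c) ⁻¹' Rib) :=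
      (H.log_contOn.mono fun x hx => hx.1.1).sub
        (H.σc.comp (hch.mono inter_subset_left) fun x hx => hx.2)
    have := c1.isOpen_inter_preimage o1 (isOpen_Ioi (a := (0 : ℝ)))
    refine (congrArg IsOpen ?_).mp this
    ext x
    simp only [Ab, mem_inter_iff, mem_preimage, mem_Ioi, sub_pos, mem_ofPred_eq, and_assoc]
  · have c1 := (H.hZ.continuousOn.mono fun x hx => hx.1).preimage_isClosed_of_isClosed H.cl
      (hK.image ee_continuous).isClosed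
    have e1 : {x | x ∈ W ∧ 100 / 101 ≤ ‖Z x‖ ∧ ‖Z x‖ ≤ 101 / 100} ∩ Z ⁻¹' (ee '' K)
        = {x | x ∈ Dom W Z p ∧ ch Z p x ∈ K} := by
      ext x
      constructor
      · rintro ⟨hx, v, hv, e⟩
        obtain ⟨a, b⟩ := chart_eq hx.1 e.symm (h v hv).1
        exact ⟨a, b ▸ hv⟩
      · rintro ⟨hx, hv⟩
        have := ann (h _ hv).2.1
        rw [← H.win hx] at this
        exact ⟨⟨hx.1, this⟩, _, hv, (H.win hx).symm⟩
    rw [e1] at c1
    have c2 : ContinuousOn (fun x => Real.log ‖gf x‖ - σ (ch Z p x - c))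
        {x | x ∈ Dom W Z p ∧ ch Z p x ∈ K} :=
      (H.log_contOn.mono fun x hx => hx.1.1).sub
        (H.σc.comp (hch.mono fun x hx => hx.1) fun x hx => (h _ hx.2).2.2)
    have := c2.preimage_isClosed_of_isClosed c1 (isClosed_Ici (a := (0 : ℝ)))
    refine (congrArg IsClosed ?_).mp this
    ext x
    simp only [Ab, mem_inter_iff, mem_preimage, mem_Ici, sub_nonneg, mem_ofPred_eq]
    constructor
    · rintro ⟨⟨a, b⟩, d⟩
      refine ⟨⟨a, (h _ b).2.2, lt_of_le_of_ne d ?_⟩, b⟩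
      exact (H.av x a.1 _ (h _ b).2.2 (by rw [hc]; exact H.win a)).symm
    · rintro ⟨⟨a, _, d⟩, b⟩
      exact ⟨⟨a, b⟩, d.le⟩
  · intro x hx hk
    have := ann (h _ hk).2.1
    rw [← H.win hx.1] at this
    rw [(H.ch_hasDerivAt hx.1).deriv]
    exact H.dom x hx.1.1 this.1 this.2

theorem bnd_nonneg (p r : ℝ) (x : ℂ) : 0 ≤ bnd W Z gf σ p r x :=
  indicator_nonneg (fun _ _ => mul_nonneg (mul_nonneg (tn_nonneg _) (bp_nonneg _)) (sq_nonneg _)) x

theorem bnd_ne {p r : ℝ} {x : ℂ} (h : bnd W Z gf σ p r x ≠ 0) :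
    x ∈ Ab W Z gf σ p 0 ∧ |(ch Z p x).re - r| < 3 ∧ |(ch Z p x).im + 1 / 2| ≤ 2 / 1000 := by
  have h1 := mem_of_indicator_ne_zero h
  rw [bnd, indicator_of_mem h1] at h
  have a := tn_supp (by norm_num) (left_ne_zero_of_mul (left_ne_zero_of_mul h))
  have b := bp_supp (by norm_num) (right_ne_zero_of_mul (left_ne_zero_of_mul h))
  refine ⟨h1, ?_, ?_⟩
  · rw [abs_lt]; constructor <;> linarith [a.1, a.2]
  · rw [abs_le]; constructor <;> linarith [b.1, b.2]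

theorem bnd_val (H : Hyp W Z gf m σ μ C) {p r : ℝ} {x v : ℂ} (hx : x ∈ W) (e : Z x = ee v)
    (hp : |v.re - p| < 50000) (hv : v ∈ Rib) (hs : σ v < Real.log ‖gf x‖) :
    bnd W Z gf σ p r x = tn ((v.re - r) / 3) * bp ((v.im - -(1 / 2)) / (2 / 1000))
      * ‖deriv Z x / Z x / cc‖ ^ 2 := by
  obtain ⟨a, b⟩ := chart_eq hx e hp
  have h1 : x ∈ Ab W Z gf σ p 0 := ⟨a, by simpa [b] using hv, by simpa [b] using hs⟩
  rw [bnd, indicator_of_mem h1, (H.ch_hasDerivAt a).deriv, b]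

theorem bnd_le (H : Hyp W Z gf m σ μ C) {p p' r : ℝ} (h : |r - p| + 3 ≤ 50000)
    (h' : |r - p'| + 3 ≤ 50000) (x : ℂ) : bnd W Z gf σ p r x ≤ bnd W Z gf σ p' r x := by
  by_cases h0 : bnd W Z gf σ p r x = 0
  · rw [h0]; exact bnd_nonneg _ _ _
  · obtain ⟨⟨a, b, d⟩, e, -⟩ := bnd_ne h0
    simp only [ofReal_zero, sub_zero] at b d
    rw [H.bnd_val a.1 (H.win a) (p := p) ?_ b d, H.bnd_val a.1 (H.win a) (p := p') ?_ b d]
    · linarith [abs_sub_le (ch Z p x).re r p']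
    · linarith [abs_sub_le (ch Z p x).re r p]

theorem transport (H : Hyp W Z gf m σ μ C) {p : ℝ} (h1 : -75000 ≤ p) (h2 : p ≤ -25000) :
    Neg m fun x => bnd W Z gf σ p (p - 25000) x - bnd W Z gf σ p (p + 25000) x := by
  have hK : IsCompact (Icc (p - 25003) (p + 25003) ×ℂ Icc (-(502 / 1000) : ℝ) (-(498 / 1000))) :=
    isCompact_Icc.reProdIm isCompact_Icc
  obtain ⟨a, b⟩ := H.adm (p := p) (c := 0) (by simp) hK (by
    rintro v ⟨⟨a1, a2⟩, a3, a4⟩
    simp only [ofReal_zero, sub_zero, Rib, mem_ofPred_eq, abs_lt, abs_le]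
    refine ⟨⟨?_, ?_⟩, ⟨?_, ?_⟩, ⟨?_, ?_⟩, ?_, ?_⟩ <;> linarith)
  have := a.transport_re hK.isClosed H.mc H.m0 H.C0 b (r := p - 25000) (r' := p + 25000) (a := 3)
    (y := -(1 / 2)) (w := 2 / 1000) (by norm_num) (by norm_num) (by linarith)
    (fun v a1 a2 a3 a4 => ⟨⟨by linarith, by linarith⟩, by linarith, by linarith⟩)
  refine (congrArg (Neg m) ?_).mp this
  funext x
  unfold bnd
  by_cases hx : x ∈ Ab W Z gf σ p 0
  · simp only [indicator_of_mem hx]; ring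
  · simp only [indicator_of_notMem hx, sub_zero]

/-- the mass between two consecutive layers is negligible -/
theorem corridor (H : Hyp W Z gf m σ μ C) : ∃ φ : ℂ → ℝ, Neg m φ ∧ (∀ x, 0 ≤ φ x) ∧
    ∀ x ∈ Ab W Z gf σ 0 100000, x ∉ Ab W Z gf σ 0 0 → |(ch Z 0 x).re| ≤ 1 →
      |(ch Z 0 x).im + 1 / 2| ≤ 1 / 1000 → ‖deriv (ch Z 0) x‖ ^ 2 ≤ φ x := by
  have N := ((H.transport (p := -75000) (by norm_num) (by norm_num)).add
    (H.transport (p := -25000) (by norm_num) (by norm_num))).smul (c := 3) (by norm_num)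
  have key : ∀ x, bnd W Z gf σ (-100000) (-100000) x - bnd W Z gf σ 0 0 x ≤
      (bnd W Z gf σ (-75000) (-75000 - 25000) x - bnd W Z gf σ (-75000) (-75000 + 25000) x) +
      (bnd W Z gf σ (-25000) (-25000 - 25000) x - bnd W Z gf σ (-25000) (-25000 + 25000) x) := by
    intro x
    have e1 := H.bnd_le (p := -100000) (p' := -75000) (r := -100000) (by norm_num) (by norm_num) x
    have e2 := H.bnd_le (p := -75000) (p' := -25000) (r := -50000) (by norm_num) (by norm_num) x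
    have e3 := H.bnd_le (p := -25000) (p' := 0) (r := 0) (by norm_num) (by norm_num) x
    norm_num at e1 e2 e3 ⊢
    linarith
  have val : ∀ x ∈ Dom W Z 0, |(ch Z 0 x).re| < 3 → ch Z 0 x - (100000 : ℝ) ∈ Rib →
      σ (ch Z 0 x - (100000 : ℝ)) < Real.log ‖gf x‖ → bnd W Z gf σ (-100000) (-100000) x =
        tn (((ch Z 0 x).re - 0) / 3) * bp (((ch Z 0 x).im - -(1 / 2)) / (2 / 1000))
          * ‖deriv Z x / Z x / cc‖ ^ 2 := by
    intro x a e b d
    rw [H.bnd_val a.1 (v := ch Z 0 x - (100000 : ℝ)) (by rw [ee_sub_P]; exact H.win a) ?_ b d]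
    · simp
    · simp only [sub_re, ofReal_re, sub_neg_eq_add, sub_add_cancel]; linarith
  refine ⟨_, N, fun x => mul_nonneg (by norm_num) (le_trans ?_ (key x)), ?_⟩
  · rw [sub_nonneg]
    by_cases h0 : bnd W Z gf σ 0 0 x = 0
    · rw [h0]; exact bnd_nonneg _ _ _
    · obtain ⟨⟨a, b, d⟩, e, f⟩ := bnd_ne h0
      simp only [ofReal_zero, sub_zero] at b d e
      rw [val x a e ?_ ((H.ord _ e.le f).trans d), H.bnd_val a.1 (H.win a) ?_ b d]
      · rw [sub_zero]; linarith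
      · simp only [Rib, mem_ofPred_eq, abs_lt, abs_le, sub_re, sub_im, ofReal_re, ofReal_im] at e f ⊢
        refine ⟨⟨?_, ?_⟩, ?_, ?_⟩ <;> linarith [e.1, e.2, f.1, f.2]
  · rintro x ⟨a, b, d⟩ hx e f
    refine le_trans ?_ (mul_le_mul_of_nonneg_left (key x) (by norm_num))
    rw [val x a (by linarith) b d, bnd, indicator_of_notMem hx, sub_zero,
      (H.ch_hasDerivAt a).deriv]
    have t1 : 2 / 3 ≤ tn (((ch Z 0 x).re - 0) / 3) := by
      refine le_trans ?_ (le_tn _)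
      rw [abs_div, sub_zero, abs_of_pos (by norm_num : (0 : ℝ) < 3)]; linarith
    have t2 : 1 / 2 ≤ bp (((ch Z 0 x).im - -(1 / 2)) / (2 / 1000)) := by
      refine le_bp ?_
      rw [abs_div, sub_neg_eq_add, abs_of_pos (by norm_num : (0 : ℝ) < 2 / 1000),
        div_le_iff₀ (by norm_num)]
      linarith
    have t3 := mul_le_mul t1 t2 (by norm_num) (tn_nonneg _)
    nlinarith [sq_nonneg ‖deriv Z x / Z x / cc‖]

end Hyp

end Pool.Agent.MP_2790d1_an

end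

-- part MP_2790d1_an.Half
section

/-! The part of the curve above the finger carries negligible mass. -/

open Complex Set

namespace Pool.Agent.MP_2790d1_an

theorem ring_ineq {h μ a y : ℝ} (hμ : 0 < μ)
    (hlow : a ^ 2 + y ^ 2 ≤ 9 / 10 → μ * (max y 0 - 105 / 10000) ≤ h)
    (hup : a ^ 2 + y ^ 2 ≤ 25 / 10 ^ 6 → h ≤ μ / 5) :
    (Real.exp (-(41 / 100) * μ) - Real.exp (-(42 / 100) * μ))
        * (tn ((a ^ 2 + y ^ 2 - 17 / 10 ^ 6) / (8 / 10 ^ 6)) / (8 / 10 ^ 6))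
      ≤ (Real.exp (-(42 / 100) * μ) - Real.exp (-h + μ * (y / 2 - (a ^ 2 - y ^ 2) / 4)) ^ 2)
        * (tn ((a ^ 2 + y ^ 2 - 895 / 1000) / (5 / 1000)) / (5 / 1000)
          - tn ((a ^ 2 + y ^ 2 - 17 / 10 ^ 6) / (8 / 10 ^ 6)) / (8 / 10 ^ 6)) := by
  rw [← Real.exp_nat_mul]
  generalize hG : Real.exp (((2 : ℕ) : ℝ) * (-h + μ * (y / 2 - (a ^ 2 - y ^ 2) / 4))) = G
  have h1 : 0 ≤ (Real.exp (-(42 / 100) * μ) - G)
      * (tn ((a ^ 2 + y ^ 2 - 895 / 1000) / (5 / 1000)) / (5 / 1000)) := by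
    by_cases h0 : tn ((a ^ 2 + y ^ 2 - 895 / 1000) / (5 / 1000)) = 0
    · rw [h0]; simp
    · obtain ⟨b1, b2⟩ := tn_supp (by norm_num) h0
      refine mul_nonneg (sub_nonneg.2 ?_) (div_nonneg (tn_nonneg _) (by norm_num))
      rw [← hG, Real.exp_le_exp]
      have := hlow (by linarith)
      have hy : y / 2 + y ^ 2 / 2 ≤ max y 0 := by
        have : |y| ≤ 1 := by
          rw [← sq_le_one_iff_abs_le_one]; nlinarith [sq_nonneg a]
        rw [abs_le] at this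
        rcases le_total y 0 with h | h
        · rw [max_eq_right h]; nlinarith
        · rw [max_eq_left h]; nlinarith
      push_cast
      have e : y / 2 - (a ^ 2 - y ^ 2) / 4 - (max y 0 - 105 / 10000) ≤ -(21 / 100) := by linarith
      nlinarith [mul_le_mul_of_nonneg_left e hμ.le]
  have h2 : (Real.exp (-(41 / 100) * μ) - Real.exp (-(42 / 100) * μ))
      * (tn ((a ^ 2 + y ^ 2 - 17 / 10 ^ 6) / (8 / 10 ^ 6)) / (8 / 10 ^ 6))
      ≤ (G - Real.exp (-(42 / 100) * μ))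
      * (tn ((a ^ 2 + y ^ 2 - 17 / 10 ^ 6) / (8 / 10 ^ 6)) / (8 / 10 ^ 6)) := by
    by_cases h0 : tn ((a ^ 2 + y ^ 2 - 17 / 10 ^ 6) / (8 / 10 ^ 6)) = 0
    · rw [h0]; simp
    · obtain ⟨b1, b2⟩ := tn_supp (by norm_num) h0
      refine mul_le_mul_of_nonneg_right ?_ (div_nonneg (tn_nonneg _) (by norm_num))
      rw [sub_le_sub_iff_right, ← hG, Real.exp_le_exp]
      have := hup (by linarith)
      have hy : -(5 / 1000) ≤ y := by nlinarith [sq_nonneg a]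
      push_cast
      have e : -(5 / 1000) ≤ y / 2 - (a ^ 2 - y ^ 2) / 4 := by nlinarith [sq_nonneg y]
      nlinarith [mul_le_mul_of_nonneg_left e hμ.le]
  nlinarith

/-- the cut-off separating the two layers -/
noncomputable def chi (v : ℂ) : ℝ := Real.smoothTransition (1000 * (v.im + 1 / 2) + 1 / 2)

theorem chi_contDiff : ContDiff ℝ 2 chi :=
  Real.smoothTransition.contDiff.comp
    ((contDiff_const.mul (imCLM.contDiff.add contDiff_const)).add contDiff_const)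

theorem chi_zero {v : ℂ} (h : v.im ≤ -(5005 / 10000)) : chi v = 0 :=
  Real.smoothTransition.zero_of_nonpos (by linarith)

theorem chi_one {v : ℂ} (h : -(4995 / 10000) ≤ v.im) : chi v = 1 :=
  Real.smoothTransition.one_of_one_le (by linarith)

theorem normSq_c (v : ℂ) : normSq (v - -(I / 2)) = v.re ^ 2 + (-(v.im + 1 / 2)) ^ 2 := by
  simp [normSq_apply]; ring

theorem exists_tests : ∃ φA φB : ℂ → ℝ, ContDiff ℝ 2 φA ∧ ContDiff ℝ 2 φB ∧ (∀ v, 0 ≤ φA v) ∧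
    (∀ v, 0 ≤ φB v) ∧ tsupport φA ⊆ Icc (-1) 1 ×ℂ Icc (-(3 / 2)) (-(4995 / 10000)) ∧
    tsupport φB ⊆ Icc (-1) 1 ×ℂ Icc (-(5005 / 10000)) (1 / 2) ∧ ∀ v : ℂ, lap φA v + lap φB v =
      4 * (tn ((v.re ^ 2 + (-(v.im + 1 / 2)) ^ 2 - 895 / 1000) / (5 / 1000)) / (5 / 1000)
        - tn ((v.re ^ 2 + (-(v.im + 1 / 2)) ^ 2 - 17 / 10 ^ 6) / (8 / 10 ^ 6)) / (8 / 10 ^ 6)) := by
  obtain ⟨Φ, h1, h2, h3, h4⟩ := exists_profile (ro := 895 / 1000) (wo := 5 / 1000)
    (ri := 17 / 10 ^ 6) (wi := 8 / 10 ^ 6) (by norm_num) (by norm_num) (by norm_num) (by norm_num)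
  have hφ : ContDiff ℝ 2 fun v : ℂ => Φ (normSq (v - -(I / 2))) := by
    refine h1.comp ?_
    simp only [normSq_c]
    exact (reCLM.contDiff.pow 2).add ((imCLM.contDiff.add contDiff_const).neg.pow 2)
  have hs : ∀ v : ℂ, Φ (normSq (v - -(I / 2))) ≠ 0 →
      v.re ∈ Icc (-1 : ℝ) 1 ∧ -(3 / 2) ≤ v.im ∧ v.im ≤ 1 / 2 := by
    intro v hv
    have : normSq (v - -(I / 2)) < 895 / 1000 + 5 / 1000 := by
      by_contra hc; exact hv (h3 _ (not_lt.1 hc))
    rw [normSq_c] at this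
    refine ⟨⟨?_, ?_⟩, ?_, ?_⟩ <;> nlinarith [sq_nonneg v.re, sq_nonneg (v.im + 1 / 2)]
  have hA := (contDiff_const (c := (1 : ℝ)).sub chi_contDiff).mul hφ
  have hB := chi_contDiff.mul hφ
  refine ⟨_, _, hA, hB, fun v => mul_nonneg (sub_nonneg.2 (Real.smoothTransition.le_one _)) (h2 _),
    fun v => mul_nonneg (Real.smoothTransition.nonneg _) (h2 _), ?_, ?_, fun v => ?_⟩
  · refine closure_minimal (fun v hv => ?_) (isClosed_Icc.reProdIm isClosed_Icc)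
    obtain ⟨a, b, -⟩ := hs v (right_ne_zero_of_mul hv)
    refine ⟨a, b, ?_⟩
    by_contra hc
    exact left_ne_zero_of_mul hv (by rw [chi_one (not_le.1 hc).le, sub_self])
  · refine closure_minimal (fun v hv => ?_) (isClosed_Icc.reProdIm isClosed_Icc)
    obtain ⟨a, -, b⟩ := hs v (right_ne_zero_of_mul hv)
    refine ⟨a, ?_, b⟩
    by_contra hc
    exact left_ne_zero_of_mul hv (chi_zero (not_le.1 hc).le)
  · rw [← lap_add hA hB, ← normSq_c, ← h4, ← lap_radial h1]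
    congr 1
    funext w
    ring

theorem lap_eq_zero_of_sub {φ : ℂ → ℝ} {K : Set ℂ} (h : tsupport φ ⊆ K) {v : ℂ} (hv : v ∉ K) :
    lap φ v = 0 := by
  rw [lap_congr (φ' := fun _ => 0) (notMem_tsupport_iff_eventuallyEq.1 fun hc => hv (h hc)),
    lap_zero]

/-- the holomorphic comparison function -/
noncomputable def gg (Z gf : ℂ → ℂ) (μ : ℝ) (x : ℂ) : ℂ :=
  (gf x)⁻¹ * exp (μ * (I * (ch Z 0 x + I / 2) / 2 - (ch Z 0 x + I / 2) ^ 2 / 4))

theorem norm_gg {Z gf : ℂ → ℂ} {μ : ℝ} {x : ℂ} (h : gf x ≠ 0) :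
    ‖gg Z gf μ x‖ = Real.exp (-Real.log ‖gf x‖ + μ * (-((ch Z 0 x).im + 1 / 2) / 2
      - ((ch Z 0 x).re ^ 2 - (-((ch Z 0 x).im + 1 / 2)) ^ 2) / 4)) := by
  rw [gg, norm_mul, norm_inv, norm_exp, Real.exp_add, Real.exp_neg,
    Real.exp_log (norm_pos_iff.2 h)]
  congr 2
  rw [re_ofReal_mul]
  congr 1
  simp [pow_two]
  ring

namespace Hyp
variable {W : Set ℂ} {Z gf : ℂ → ℂ} {m σ : ℂ → ℝ} {μ C : ℝ}

theorem gg_diff (H : Hyp W Z gf m σ μ C) : DifferentiableOn ℂ (gg Z gf μ) (Dom W Z 0) := by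
  have h1 := H.ch_diffOn 0
  have h2 : DifferentiableOn ℂ gf (Dom W Z 0) := H.hg.mono fun x hx => hx.1
  exact (h2.inv fun x hx => H.g0 x hx.1).mul (by fun_prop)

theorem lowA (H : Hyp W Z gf m σ μ C) {x : ℂ} (hx : x ∈ Ab W Z gf σ 0 100000)
    (hk : ch Z 0 x ∈ Icc (-1) 1 ×ℂ Icc (-(3 / 2)) (-(4995 / 10000))) :
    μ * (max (-((ch Z 0 x).im + 1 / 2)) 0 - 105 / 10000) ≤ Real.log ‖gf x‖ := by
  obtain ⟨a, b, d⟩ := hk
  refine le_trans ?_ ((H.hA _ (abs_le.2 a) b d).trans hx.2.2.le)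
  refine mul_le_mul_of_nonneg_left ?_ H.μ0.le
  rw [sub_le_iff_le_add, max_le_iff]
  constructor <;> linarith

theorem lowB (H : Hyp W Z gf m σ μ C) {x : ℂ} (hx : x ∈ Ab W Z gf σ 0 0)
    (hk : ch Z 0 x ∈ Icc (-1) 1 ×ℂ Icc (-(5005 / 10000)) (1 / 2)) :
    μ * (max (-((ch Z 0 x).im + 1 / 2)) 0 - 105 / 10000) ≤ Real.log ‖gf x‖ := by
  obtain ⟨a, b, d⟩ := hk
  have h1 := hx.2.2
  rw [ofReal_zero, sub_zero] at h1
  refine le_trans ?_ ((H.hB _ (abs_le.2 a) b d).trans h1.le)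
  have : max (-((ch Z 0 x).im + 1 / 2)) 0 - 105 / 10000 ≤ -(1 / 100) := by
    rw [sub_le_iff_le_add, max_le_iff]
    constructor <;> linarith
  nlinarith [H.μ0]

theorem gg_le (H : Hyp W Z gf m σ μ C) {x : ℂ} (hx : x ∈ W) (a : |(ch Z 0 x).im + 1 / 2| ≤ 1)
    (h : μ * (max (-((ch Z 0 x).im + 1 / 2)) 0 - 105 / 10000) ≤ Real.log ‖gf x‖) :
    ‖gg Z gf μ x‖ ≤ Real.exp μ := by
  rw [norm_gg (H.g0 x hx), Real.exp_le_exp]
  rw [← abs_neg, abs_le] at a
  generalize -((ch Z 0 x).im + 1 / 2) = y at *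
  have h1 := le_max_right y 0
  have h2 : y / 2 - ((ch Z 0 x).re ^ 2 - y ^ 2) / 4 - (max y 0 - 105 / 10000) ≤ 1 := by
    nlinarith [sq_nonneg (ch Z 0 x).re]
  nlinarith [mul_le_mul_of_nonneg_left h2 H.μ0.le]

theorem ring (H : Hyp W Z gf m σ μ C) {x : ℂ} (hx : x ∈ Dom W Z 0)
    (h : (ch Z 0 x).re ^ 2 + (-((ch Z 0 x).im + 1 / 2)) ^ 2 ≤ 9 / 10 →
      μ * (max (-((ch Z 0 x).im + 1 / 2)) 0 - 105 / 10000) ≤ Real.log ‖gf x‖) {l : ℝ}
    (hl : l = 4 * (tn (((ch Z 0 x).re ^ 2 + (-((ch Z 0 x).im + 1 / 2)) ^ 2 - 895 / 1000)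
      / (5 / 1000)) / (5 / 1000) - tn (((ch Z 0 x).re ^ 2 + (-((ch Z 0 x).im + 1 / 2)) ^ 2
        - 17 / 10 ^ 6) / (8 / 10 ^ 6)) / (8 / 10 ^ 6))) :
    (Real.exp (-(41 / 100) * μ) - Real.exp (-(42 / 100) * μ)) * (tn (((ch Z 0 x).im
      - -(496 / 1000)) / (2 / 10000)) * bp (((ch Z 0 x).re - 0) / (2 / 10000)))
      ≤ (Real.exp (-(42 / 100) * μ) - ‖gg Z gf μ x‖ ^ 2) * l := by
  have h1 := ring_ineq H.μ0 h (fun hr => H.roof x hx.1 _ (H.win hx) (by
    rw [← sq_le_sq₀ (norm_nonneg _) (by norm_num), ← normSq_eq_norm_sq, ← sub_neg_eq_add, normSq_c]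
    linarith))
  rw [← norm_gg (H.g0 x hx.1)] at h1
  have he : 0 ≤ Real.exp (-(41 / 100) * μ) - Real.exp (-(42 / 100) * μ) :=
    sub_nonneg.2 (Real.exp_le_exp.2 (by linarith [H.μ0]))
  have h2 : tn (((ch Z 0 x).im - -(496 / 1000)) / (2 / 10000))
      * bp (((ch Z 0 x).re - 0) / (2 / 10000)) ≤ 4 * (tn (((ch Z 0 x).re ^ 2
        + (-((ch Z 0 x).im + 1 / 2)) ^ 2 - 17 / 10 ^ 6) / (8 / 10 ^ 6)) / (8 / 10 ^ 6)) := by
    by_cases h0 : tn (((ch Z 0 x).im - -(496 / 1000)) / (2 / 10000))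
      * bp (((ch Z 0 x).re - 0) / (2 / 10000)) = 0
    · rw [h0]; exact mul_nonneg (by norm_num) (div_nonneg (tn_nonneg _) (by norm_num))
    · obtain ⟨a1, a2⟩ := tn_supp (by norm_num) (left_ne_zero_of_mul h0)
      obtain ⟨a3, a4⟩ := bp_supp (by norm_num) (right_ne_zero_of_mul h0)
      have b1 := mul_le_one₀ (tn_le_one (((ch Z 0 x).im - -(496 / 1000)) / (2 / 10000)))
        (bp_nonneg _) (bp_le_one (((ch Z 0 x).re - 0) / (2 / 10000)))
      have b2 := le_tn (((ch Z 0 x).re ^ 2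
        + (-((ch Z 0 x).im + 1 / 2)) ^ 2 - 17 / 10 ^ 6) / (8 / 10 ^ 6))
      have b3 : |((ch Z 0 x).re ^ 2
        + (-((ch Z 0 x).im + 1 / 2)) ^ 2 - 17 / 10 ^ 6) / (8 / 10 ^ 6)| ≤ 1 / 2 := by
        rw [abs_le, le_div_iff₀ (by norm_num), div_le_iff₀ (by norm_num)]
        constructor <;> nlinarith [sq_nonneg (ch Z 0 x).re]
      rw [div_eq_mul_inv (tn _) (8 / 10 ^ 6)]
      norm_num at b1 b2 b3 ⊢
      linarith
  rw [hl]
  nlinarith [mul_le_mul_of_nonneg_left h2 he]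

theorem inner (H : Hyp W Z gf m σ μ C) : Neg m ((Ab W Z gf σ 0 0).indicator fun x =>
    tn (((ch Z 0 x).im - -(496 / 1000)) / (2 / 10000)) * bp (((ch Z 0 x).re - 0) / (2 / 10000))
      * ‖deriv (ch Z 0) x‖ ^ 2) := by
  obtain ⟨φA, φB, cA, cB, pA, pB, sA, sB, hl⟩ := exists_tests
  obtain ⟨cor, Nc, c0, hcor⟩ := H.corridor
  have kA : IsCompact (Icc (-1 : ℝ) 1 ×ℂ Icc (-(3 / 2) : ℝ) (-(4995 / 10000))) :=
    isCompact_Icc.reProdIm isCompact_Icc
  have kB : IsCompact (Icc (-1 : ℝ) 1 ×ℂ Icc (-(5005 / 10000) : ℝ) (1 / 2)) :=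
    isCompact_Icc.reProdIm isCompact_Icc
  have rA : ∀ v ∈ Icc (-1 : ℝ) 1 ×ℂ Icc (-(3 / 2) : ℝ) (-(4995 / 10000)),
      |v.re - 0| < 50000 ∧ |v.im| ≤ 2 ∧ v - (100000 : ℝ) ∈ Rib := by
    rintro v ⟨⟨a1, a2⟩, a3, a4⟩
    simp only [Rib, mem_ofPred_eq, abs_lt, abs_le, sub_re, sub_im, ofReal_re, ofReal_im]
    refine ⟨⟨?_, ?_⟩, ⟨?_, ?_⟩, ⟨?_, ?_⟩, ?_, ?_⟩ <;> linarith
  obtain ⟨aA, dA⟩ := H.adm (p := 0) (c := 100000) ee_sub_P kA rA
  obtain ⟨aB, dB⟩ := H.adm (p := 0) (c := 0) (by simp) kB (by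
    rintro v ⟨⟨a1, a2⟩, a3, a4⟩
    simp only [ofReal_zero, sub_zero, Rib, mem_ofPred_eq, abs_lt, abs_le]
    refine ⟨⟨?_, ?_⟩, ⟨?_, ?_⟩, ⟨?_, ?_⟩, ?_, ?_⟩ <;> linarith)
  have gA : ∀ x ∈ Ab W Z gf σ 0 100000, ch Z 0 x ∈ Icc (-1 : ℝ) 1 ×ℂ
      Icc (-(3 / 2) : ℝ) (-(4995 / 10000)) → ‖gg Z gf μ x‖ ≤ Real.exp μ := fun x hx hk =>
    H.gg_le hx.1.1 (by rw [abs_le]; constructor <;> linarith [hk.2.1, hk.2.2]) (H.lowA hx hk)
  have gB : ∀ x ∈ Ab W Z gf σ 0 0, ch Z 0 x ∈ Icc (-1 : ℝ) 1 ×ℂ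
      Icc (-(5005 / 10000) : ℝ) (1 / 2) → ‖gg Z gf μ x‖ ≤ Real.exp μ := fun x hx hk =>
    H.gg_le hx.1.1 (by rw [abs_le]; constructor <;> linarith [hk.2.1, hk.2.2]) (H.lowB hx hk)
  obtain ⟨B, hB⟩ := kA.exists_bound_of_continuousOn (continuous_lap cA).continuousOn
  set c := Real.exp (-(42 / 100) * μ) with hc
  set e := Real.exp (-(41 / 100) * μ) - c with he
  have e0 : 0 < e := sub_pos.2 (Real.exp_lt_exp.2 (by linarith [H.μ0]))
  have c0' : 0 < c := Real.exp_pos _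
  have N := (((((aA.subharm kA H.mc H.m0 cA pA sA (H.gg_diff.mono fun x hx => hx.1) gA dA).add
    (aA.lapl kA H.mc H.m0 cA sA dA c)).add
    ((aB.subharm kB H.mc H.m0 cB pB sB (H.gg_diff.mono fun x hx => hx.1) gB dB).add
    (aB.lapl kB H.mc H.m0 cB sB dB c))).add
    (Nc.smul (c := (c + Real.exp μ ^ 2) * |B|) (by positivity))).smul (c := e⁻¹) (by positivity))
  refine N.mono (aB.continuous ?_ ?_) fun x => ?_
  · have h1 := aB.hol.continuousOn
    have h2 := aB.continuousOn_deriv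
    exact ((tn_continuous.comp_continuousOn (((continuous_im.comp_continuousOn h1).sub
      continuousOn_const).div_const _)).mul (bp_contDiff.continuous.comp_continuousOn
        (((continuous_re.comp_continuousOn h1).sub continuousOn_const).div_const _))).mul
          (h2.norm.pow 2)
  · intro x _ hk
    by_contra h0
    obtain ⟨a1, a2⟩ := tn_supp (by norm_num) (left_ne_zero_of_mul (left_ne_zero_of_mul h0))
    obtain ⟨a3, a4⟩ := bp_supp (by norm_num) (right_ne_zero_of_mul (left_ne_zero_of_mul h0))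
    exact hk ⟨⟨by linarith, by linarith⟩, by linarith, by linarith⟩
  rw [le_inv_mul_iff₀ e0]
  have cx : 0 ≤ (c + Real.exp μ ^ 2) * |B| * cor x := mul_nonneg (by positivity) (c0 x)
  have D0 := sq_nonneg ‖deriv (ch Z 0) x‖
  have T0 := mul_nonneg e0.le (mul_nonneg (tn_nonneg (((ch Z 0 x).im - -(496 / 1000)) / (2 / 10000)))
    (bp_nonneg (((ch Z 0 x).re - 0) / (2 / 10000))))
  by_cases kb : ch Z 0 x ∈ Icc (-1 : ℝ) 1 ×ℂ Icc (-(5005 / 10000) : ℝ) (1 / 2)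
  · by_cases xb : x ∈ Ab W Z gf σ 0 0
    · have R := H.ring xb.1 (fun _ => H.lowB xb kb) (hl _)
      rw [← hc, ← he] at R
      have R' := mul_le_mul_of_nonneg_right R D0
      by_cases ka : ch Z 0 x ∈ Icc (-1 : ℝ) 1 ×ℂ Icc (-(3 / 2) : ℝ) (-(4995 / 10000))
      · have xa : x ∈ Ab W Z gf σ 0 100000 := by
          refine ⟨xb.1, (rA _ ka).2.2, (H.ord _ ?_ ?_).trans (by simpa using xb.2.2)⟩
          · exact (abs_le.2 ka.1).trans (by norm_num)
          · rw [abs_le]; constructor <;> linarith [ka.2.2, kb.2.1]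
        simp only [indicator_of_mem xa, indicator_of_mem xb]
        nlinarith
      · have z := lap_eq_zero_of_sub sA ka
        rw [z, zero_add] at R'
        by_cases xa : x ∈ Ab W Z gf σ 0 100000
        · simp only [indicator_of_mem xb, indicator_of_mem xa, z]
          nlinarith
        · simp only [indicator_of_mem xb, indicator_of_notMem xa]
          nlinarith
    · simp only [indicator_of_notMem xb, mul_zero, add_zero]
      by_cases xa : x ∈ Ab W Z gf σ 0 100000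
      · simp only [indicator_of_mem xa]
        by_cases ka : ch Z 0 x ∈ Icc (-1 : ℝ) 1 ×ℂ Icc (-(3 / 2) : ℝ) (-(4995 / 10000))
        · have h1 := hcor x xa xb (abs_le.2 ka.1)
            (by rw [abs_le]; constructor <;> linarith [ka.2.2, kb.2.1])
          have h2 : |lap φA (ch Z 0 x)| ≤ |B| := (hB _ ka).trans (le_abs_self B)
          have h3 : ‖gg Z gf μ x‖ ^ 2 ≤ Real.exp μ ^ 2 := by
            have := gA x xa ka
            gcongr
          have h4 : |c - ‖gg Z gf μ x‖ ^ 2| ≤ c + Real.exp μ ^ 2 := by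
            rw [abs_le]; constructor <;> nlinarith [sq_nonneg ‖gg Z gf μ x‖]
          have h5 := mul_le_mul h4 h2 (abs_nonneg _) (by positivity)
          rw [← abs_mul] at h5
          have h6 := mul_le_mul_of_nonneg_right ((neg_le_abs _).trans h5) D0
          have h7 := mul_le_mul_of_nonneg_left h1
            (show 0 ≤ (c + Real.exp μ ^ 2) * |B| by positivity)
          nlinarith
        · rw [lap_eq_zero_of_sub sA ka]; simpa using cx
      · simpa [indicator_of_notMem xa] using cx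
  · have z := lap_eq_zero_of_sub sB kb
    have t0 : tn (((ch Z 0 x).im - -(496 / 1000)) / (2 / 10000))
        * bp (((ch Z 0 x).re - 0) / (2 / 10000)) = 0 := by
      by_contra h0
      obtain ⟨a1, a2⟩ := tn_supp (by norm_num) (left_ne_zero_of_mul h0)
      obtain ⟨a3, a4⟩ := bp_supp (by norm_num) (right_ne_zero_of_mul h0)
      exact kb ⟨⟨by linarith, by linarith⟩, by linarith, by linarith⟩
    rw [indicator_apply_eq_zero.2 fun _ => by rw [t0, zero_mul],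
      (indicator_apply_eq_zero (s := Ab W Z gf σ 0 0)).2 fun _ => by rw [z]; simp,
      (indicator_apply_eq_zero (s := Ab W Z gf σ 0 0)).2 fun _ => by rw [z]; simp]
    simp only [mul_zero, add_zero]
    by_cases xa : x ∈ Ab W Z gf σ 0 100000
    · simp only [indicator_of_mem xa]
      by_cases ka : ch Z 0 x ∈ Icc (-1 : ℝ) 1 ×ℂ Icc (-(3 / 2) : ℝ) (-(4995 / 10000))
      · have R := H.ring xa.1 (fun _ => H.lowA xa ka) (hl _)
        rw [← hc, ← he, z, add_zero] at R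
        have R' := mul_nonneg (T0.trans R) D0
        nlinarith
      · rw [lap_eq_zero_of_sub sA ka]; simpa using cx
    · simpa [indicator_of_notMem xa] using cx

/-- negligibility of the part above the middle layer, near the centre -/
theorem half (H : Hyp W Z gf m σ μ C) : ∃ φ : ℂ → ℝ, Neg m φ ∧ (∀ x, 0 ≤ φ x) ∧
    ∀ x ∈ W, ∀ v : ℂ, Z x = ee v → |v.re| ≤ 1 / 10000 → |v.im| ≤ 1 / 10000 →
      σ v < Real.log ‖gf x‖ → ‖deriv Z x / Z x / cc‖ ^ 2 ≤ φ x := by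
  have kB : IsCompact (Icc (-1 : ℝ) 1 ×ℂ Icc (-(5005 / 10000) : ℝ) (1 / 2)) :=
    isCompact_Icc.reProdIm isCompact_Icc
  have rB : ∀ v ∈ Icc (-1 : ℝ) 1 ×ℂ Icc (-(5005 / 10000) : ℝ) (1 / 2),
      |v.re - 0| < 50000 ∧ |v.im| ≤ 2 ∧ v - (0 : ℝ) ∈ Rib := by
    rintro v ⟨⟨a1, a2⟩, a3, a4⟩
    simp only [ofReal_zero, sub_zero, Rib, mem_ofPred_eq, abs_lt, abs_le]
    refine ⟨⟨?_, ?_⟩, ⟨?_, ?_⟩, ⟨?_, ?_⟩, ?_, ?_⟩ <;> linarith
  obtain ⟨aB, dB⟩ := H.adm (p := 0) (c := 0) (by simp) kB rB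
  have N := ((aB.transport_im kB.isClosed H.mc H.m0 H.C0 dB (r := 0) (r' := -(496 / 1000))
    (a := 2 / 10000) (by norm_num) (by norm_num)
    (fun v a1 a2 a3 a4 => ⟨⟨by linarith, by linarith⟩, by linarith, by linarith⟩)).add
      H.inner).smul (c := 4) (by norm_num)
  refine ⟨_, N, fun x => ?_, fun x hx v e a1 a2 hs => ?_⟩
  · by_cases xb : x ∈ Ab W Z gf σ 0 0
    · simp only [indicator_of_mem xb]
      have := mul_nonneg (mul_nonneg (tn_nonneg (((ch Z 0 x).im - 0) / (2 / 10000)))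
        (bp_nonneg (((ch Z 0 x).re - 0) / (2 / 10000)))) (sq_nonneg ‖deriv (ch Z 0) x‖)
      nlinarith
    · simp [indicator_of_notMem xb]
  · obtain ⟨a, b⟩ := chart_eq (p := 0) hx e (by rw [sub_zero]; linarith)
    rw [abs_le] at a1 a2
    have xb : x ∈ Ab W Z gf σ 0 0 := by
      refine ⟨a, (rB _ ?_).2.2, by simpa [b] using hs⟩
      rw [b]
      exact ⟨⟨by linarith, by linarith⟩, by linarith, by linarith⟩
    simp only [indicator_of_mem xb]
    rw [(H.ch_hasDerivAt a).deriv, b]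
    have t1 : 1 / 2 ≤ tn ((v.im - 0) / (2 / 10000)) := by
      refine le_trans ?_ (le_tn _)
      have : |(v.im - 0) / (2 / 10000)| ≤ 1 / 2 := by
        rw [abs_le, le_div_iff₀ (by norm_num), div_le_iff₀ (by norm_num)]
        constructor <;> linarith
      linarith
    have t2 : 1 / 2 ≤ bp ((v.re - 0) / (2 / 10000)) := by
      refine le_bp ?_
      rw [abs_le, le_div_iff₀ (by norm_num), div_le_iff₀ (by norm_num)]
      constructor <;> linarith
    have t3 := mul_le_mul t1 t2 (by norm_num) (tn_nonneg _)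
    nlinarith [sq_nonneg ‖deriv Z x / Z x / cc‖]

end Hyp

end Pool.Agent.MP_2790d1_an

end

-- part MP_2790d1_an.Ineq
section

/-! Elementary inequalities for the roof, the floor and the heights of the finger. -/

open Complex

namespace Pool.Agent.MP_2790d1_an

/-- normalised height of the finger over the point `p + i q` -/
noncomputable def hn (s p q : ℝ) : ℝ := 93 * s * (506 / 1000 * s * p - p ^ 2 * q + q ^ 3 / 3)

namespace IneqAux

theorem exp_quad {x : ℝ} (hx : |x| ≤ 1 / 4) :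
    |Real.exp x - (1 + x + x ^ 2 / 2)| ≤ x ^ 2 / 18 := by
  have h := Real.exp_bound (x := x) (by linarith) (n := 3) (by norm_num)
  have e1 : ∑ m ∈ Finset.range 3, x ^ m / (m.factorial : ℝ) = 1 + x + x ^ 2 / 2 := by
    simp [Finset.sum_range_succ, Nat.factorial]
  rw [e1] at h
  refine h.trans ?_
  have e2 : |x| ^ 3 = |x| * x ^ 2 := by rw [pow_succ', sq_abs]
  have e3 : (((3 : ℕ).succ : ℝ) / (((3 : ℕ).factorial : ℝ) * ((3 : ℕ) : ℝ))) = 2 / 9 := by
    norm_num [Nat.factorial]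
  rw [e2, e3]
  nlinarith [sq_nonneg x]

theorem cosh_eq (x : ℝ) :
    Real.cosh (Real.log (3 / 2) - x) = 3 / 4 * Real.exp (-x) + 1 / 3 * Real.exp x := by
  rw [Real.cosh_eq, neg_sub, Real.exp_sub, Real.exp_sub, Real.exp_log (by norm_num), Real.exp_neg]
  field_simp
  ring

theorem cosh_low {x : ℝ} (hx : |x| ≤ 1 / 4) :
    13 / 12 - 5 / 12 * x + 48 / 100 * x ^ 2 ≤ Real.cosh (Real.log (3 / 2) - x) := by
  have h1 := abs_le.1 (exp_quad hx)
  have h2 := abs_le.1 (exp_quad (x := -x) (by rwa [abs_neg]))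
  rw [cosh_eq]
  nlinarith [sq_nonneg x, h1.1, h2.1]

theorem cosh_up {x : ℝ} (hx : |x| ≤ 1 / 4) :
    Real.cosh (Real.log (3 / 2) - x) ≤ 13 / 12 - 5 / 12 * x + 602 / 1000 * x ^ 2 := by
  have h1 := abs_le.1 (exp_quad hx)
  have h2 := abs_le.1 (exp_quad (x := -x) (by rwa [abs_neg]))
  rw [cosh_eq]
  nlinarith [sq_nonneg x, h1.2, h2.2]

theorem log_ge : (1 / 3 : ℝ) ≤ Real.log (3 / 2) := by
  have h := Real.one_sub_inv_le_log_of_pos (x := 3 / 2) (by norm_num)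
  norm_num at h ⊢
  linarith

theorem norm_sq_centre (u : ℂ) :
    ‖(12 / 13 * I + u : ℂ)‖ ^ 2 = u.re ^ 2 + (12 / 13 + u.im) ^ 2 := by
  rw [Complex.sq_norm, Complex.normSq_apply]
  simp
  ring

theorem norm_sq_eq (u : ℂ) : ‖u‖ ^ 2 = u.re ^ 2 + u.im ^ 2 := by
  rw [Complex.sq_norm, Complex.normSq_apply]
  ring

theorem low_poly {Y k : ℝ} (hY : |Y| ≤ 1 / 12) :
    1 + Y ^ 2 - 5 / 13 * k - 14 / 10 * k ^ 2 ≤
      (12 / 13 + Y) * (13 / 12 - 5 / 12 * (169 / 60 * Y + k) + 48 / 100 * (169 / 60 * Y + k) ^ 2) := by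
  obtain ⟨h1, h2⟩ := abs_le.1 hY
  have a1 : 1 + 2 * Y ^ 2 ≤
      (12 / 13 + Y) * (13 / 12 - 5 / 12 * (169 / 60 * Y) + 48 / 100 * (169 / 60 * Y) ^ 2) := by
    nlinarith [mul_nonneg (sq_nonneg Y) (by linarith : 0 ≤ Y + 1 / 12), sq_nonneg Y]
  have a2 : ∃ c : ℝ, |c| ≤ 235 / 100 ∧
      (12 / 13 + Y) * (5 / 12 - 96 / 100 * (169 / 60) * Y) = 5 / 13 + c * Y := by
    refine ⟨5 / 12 - 96 / 100 * (169 / 60) * (12 / 13) - 96 / 100 * (169 / 60) * Y, ?_, by ring⟩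
    rw [abs_le]
    constructor <;> linarith
  obtain ⟨c, hc, e⟩ := a2
  have hc2 : c ^ 2 ≤ (235 / 100) ^ 2 := by
    rw [← sq_abs]
    exact pow_le_pow_left₀ (abs_nonneg _) hc 2
  have a3 : c * Y * k ≤ Y ^ 2 + 14 / 10 * k ^ 2 := by
    nlinarith [sq_nonneg (Y - c * k / 2), mul_le_mul_of_nonneg_right hc2 (sq_nonneg k), sq_nonneg k]
  have a4 : 0 ≤ (12 / 13 + Y) * (48 / 100 * k ^ 2) := by
    apply mul_nonneg <;> nlinarith [sq_nonneg k]
  have e2 : (12 / 13 + Y) *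
      (13 / 12 - 5 / 12 * (169 / 60 * Y + k) + 48 / 100 * (169 / 60 * Y + k) ^ 2) =
      (12 / 13 + Y) * (13 / 12 - 5 / 12 * (169 / 60 * Y) + 48 / 100 * (169 / 60 * Y) ^ 2)
        - ((12 / 13 + Y) * (5 / 12 - 96 / 100 * (169 / 60) * Y)) * k
        + (12 / 13 + Y) * (48 / 100 * k ^ 2) := by ring
  rw [e2, e]
  nlinarith

theorem roof_low_pos {t u : ℂ} {η δ hh e : ℝ} (hδ : 0 < δ) (hδ1 : δ ≤ 1 / 10 ^ 12)
    (hη : η ≤ δ / 100) (hY : |u.im| ≤ 1 / 12) (ht : ‖t‖ ≤ 1)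
    (htu : ‖t - (12 / 13 * I + u)‖ ≤ η) (he : |e| ≤ η) (h1 : hh ≤ 6 / 5 * ‖u‖ ^ 2 + δ / 2)
    (h2 : hh ≤ 300 * δ) (h0 : 0 ≤ hh) :
    1 ≤ ‖t‖ * Real.cosh (Real.log (3 / 2) + δ - 169 / 60 * u.im - hh + e) := by
  obtain ⟨hY1, hY2⟩ := abs_le.1 hY
  obtain ⟨he1, he2⟩ := abs_le.1 he
  have hη0 : 0 ≤ η := (abs_nonneg _).trans he
  obtain ⟨k, hk⟩ : ∃ k, k = hh - δ - e := ⟨_, rfl⟩
  have earg : Real.log (3 / 2) + δ - 169 / 60 * u.im - hh + e =
      Real.log (3 / 2) - (169 / 60 * u.im + k) := by rw [hk]; ring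
  rw [earg]
  have hk1 : -(302 * δ) ≤ k := by linarith
  have hk2 : k ≤ 302 * δ := by linarith
  have hx : |169 / 60 * u.im + k| ≤ 1 / 4 := by
    rw [abs_le]
    constructor <;> linarith
  have hlow := cosh_low hx
  have hup := cosh_up hx
  have hone := Real.one_le_cosh (Real.log (3 / 2) - (169 / 60 * u.im + k))
  have hx2 : (169 / 60 * u.im + k) ^ 2 ≤ (1 / 4) ^ 2 := by
    rw [← sq_abs]
    exact pow_le_pow_left₀ (abs_nonneg _) hx 2
  have hC : Real.cosh (Real.log (3 / 2) - (169 / 60 * u.im + k)) ≤ 13 / 10 := by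
    have := (abs_le.1 hx).1
    linarith
  generalize Real.cosh (Real.log (3 / 2) - (169 / 60 * u.im + k)) = C at *
  have hP2 := norm_sq_centre u
  have hP0 := norm_nonneg (12 / 13 * I + u : ℂ)
  have hPt : ‖(12 / 13 * I + u : ℂ)‖ ≤ ‖t‖ + η := by
    have := norm_sub_norm_le (12 / 13 * I + u : ℂ) t
    rw [norm_sub_rev] at this
    linarith
  generalize ‖(12 / 13 * I + u : ℂ)‖ = P at *
  rw [norm_sq_eq] at h1
  generalize u.re = X at *
  generalize u.im = Y at *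
  generalize ‖t‖ = T at *
  have hB : 0 ≤ 12 / 13 + Y := by linarith
  have hPB : 12 / 13 + Y ≤ P := by
    apply abs_le_of_sq_le_sq' _ hP0 |>.2
    linarith [sq_nonneg X]
  have hP1 : P ≤ 1 + 1 / 200 := by linarith
  have hP : 12 / 13 + Y + 100 / 201 * X ^ 2 ≤ P := by
    have : X ^ 2 = (P - (12 / 13 + Y)) * (P + (12 / 13 + Y)) := by linarith
    have h3 : (P - (12 / 13 + Y)) * (P + (12 / 13 + Y)) ≤ (P - (12 / 13 + Y)) * (201 / 100) :=
      mul_le_mul_of_nonneg_left (by linarith) (by linarith)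
    linarith
  have hpoly := low_poly (k := k) hY
  have hk3 : k ^ 2 ≤ δ / 1000 := by
    have h3 : k ^ 2 ≤ (302 * δ) ^ 2 := sq_le_sq' hk1 hk2
    have h4 : δ * δ ≤ 1 / 10 ^ 12 * δ := mul_le_mul_of_nonneg_right hδ1 hδ.le
    linarith
  have b1 : (12 / 13 + Y + 100 / 201 * X ^ 2 - η) * C ≤ T * C :=
    mul_le_mul_of_nonneg_right (by linarith) (by linarith)
  have b2 := mul_le_mul_of_nonneg_left hlow hB
  have b3 : X ^ 2 * 1 ≤ X ^ 2 * C := mul_le_mul_of_nonneg_left hone (sq_nonneg X)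
  have b4 : η * C ≤ η * (13 / 10) := mul_le_mul_of_nonneg_left hC hη0
  have b5 := hpoly.trans b2
  linarith [sq_nonneg X, sq_nonneg Y]

end IneqAux
open IneqAux

/-- a point below the convex bowl is outside the roof sheet -/
theorem roof_low {t u : ℂ} {η δ hh e : ℝ} (hδ : 0 < δ) (hδ1 : δ ≤ 1 / 10 ^ 12)
    (hη : η ≤ δ / 100) (hY : |u.im| ≤ 1 / 12) (ht : ‖t‖ ≤ 1)
    (htu : ‖t - (12 / 13 * I + u)‖ ≤ η) (he : |e| ≤ η) (h1 : hh ≤ 6 / 5 * ‖u‖ ^ 2 + δ / 2)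
    (h2 : hh ≤ 300 * δ) :
    1 ≤ ‖t‖ * Real.cosh (Real.log (3 / 2) + δ - 169 / 60 * u.im - hh + e) := by
  rcases le_total 0 hh with h0 | h0
  · exact roof_low_pos hδ hδ1 hη hY ht htu he h1 h2 h0
  · have h := roof_low_pos (hh := 0) hδ hδ1 hη hY ht htu he (by positivity) (by positivity) le_rfl
    refine h.trans (mul_le_mul_of_nonneg_left ?_ (norm_nonneg _))
    obtain ⟨hY1, hY2⟩ := abs_le.1 hY
    obtain ⟨he1, he2⟩ := abs_le.1 he
    have hl := log_ge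
    rw [Real.cosh_le_cosh, abs_of_nonneg (by linarith), abs_of_nonneg (by linarith)]
    linarith

/-- near the centre, a point above height `93/5 δ` and below the middle of the roof is inside it -/
theorem roof_up {t u : ℂ} {η δ hh e : ℝ} (hδ : 0 < δ) (hδ1 : δ ≤ 1 / 10 ^ 12)
    (hη : η ≤ δ / 100) (hX : u.re ^ 2 ≤ 101 / 10 * δ) (hY : u.im ^ 2 ≤ δ / 100)
    (htu : ‖t - (12 / 13 * I + u)‖ ≤ η) (he : |e| ≤ η) (h1 : 93 / 5 * δ ≤ hh)
    (h2 : hh ≤ Real.log (3 / 2) + δ - 169 / 60 * u.im) :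
    ‖t‖ * Real.cosh (Real.log (3 / 2) + δ - 169 / 60 * u.im - hh + e) ≤ 1 - δ / 10 := by
  obtain ⟨he1, he2⟩ := abs_le.1 he
  have hY0 : |u.im| ≤ 1 / 10 ^ 7 := by
    apply abs_le_of_sq_le_sq' _ (by norm_num) |> abs_le.2
    linarith
  obtain ⟨hY1, hY2⟩ := abs_le.1 hY0
  have hl := log_ge
  have hmono : Real.cosh (Real.log (3 / 2) + δ - 169 / 60 * u.im - hh + e) ≤
      Real.cosh (Real.log (3 / 2) - (169 / 60 * u.im + 1759 / 100 * δ)) := by
    rw [Real.cosh_le_cosh, abs_of_nonneg (a := Real.log (3 / 2) - _) (by linarith), abs_le]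
    constructor <;> linarith
  have hx : |169 / 60 * u.im + 1759 / 100 * δ| ≤ 1 / 10 ^ 6 := by
    rw [abs_le]
    constructor <;> linarith
  have hup := cosh_up (hx.trans (by norm_num))
  have hx2 : (169 / 60 * u.im + 1759 / 100 * δ) ^ 2 ≤ (1 / 10 ^ 6) ^ 2 := by
    rw [← sq_abs]
    exact pow_le_pow_left₀ (abs_nonneg _) hx 2
  have hC : Real.cosh (Real.log (3 / 2) - (169 / 60 * u.im + 1759 / 100 * δ)) ≤ 1084 / 1000 := by
    have := (abs_le.1 hx).1
    linarith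
  have hC0 := (Real.cosh_pos (Real.log (3 / 2) - (169 / 60 * u.im + 1759 / 100 * δ))).le
  refine (mul_le_mul_of_nonneg_left hmono (norm_nonneg _)).trans ?_
  generalize Real.cosh (Real.log (3 / 2) - (169 / 60 * u.im + 1759 / 100 * δ)) = C at *
  have hP2 := norm_sq_centre u
  have hPt : ‖t‖ ≤ ‖(12 / 13 * I + u : ℂ)‖ + η := by
    have := norm_sub_norm_le t (12 / 13 * I + u : ℂ)
    linarith
  generalize ‖(12 / 13 * I + u : ℂ)‖ = P at *
  generalize u.re = X at *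
  generalize u.im = Y at *
  generalize ‖t‖ = T at *
  have hB : 0 ≤ 12 / 13 + Y := by linarith
  have hP : P ≤ 12 / 13 + Y + 548 / 100 * δ := by
    apply abs_le_of_sq_le_sq' _ (by linarith) |>.2
    have : 923 / 1000 * δ ≤ (12 / 13 + Y) * δ := mul_le_mul_of_nonneg_right (by linarith) hδ.le
    linarith [sq_nonneg δ]
  have b1 : T * C ≤ (12 / 13 + Y + 549 / 100 * δ) * C :=
    mul_le_mul_of_nonneg_right (by linarith) hC0
  have b2 := mul_le_mul_of_nonneg_left hup hB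
  have b3 : δ * C ≤ δ * (1084 / 1000) := mul_le_mul_of_nonneg_left hC hδ.le
  have c1 : Y * δ ≤ 1 / 10 ^ 7 * δ := mul_le_mul_of_nonneg_right hY2 hδ.le
  have c2 : -(1 / 10 ^ 7) * δ ≤ Y * δ := mul_le_mul_of_nonneg_right hY1 hδ.le
  have c3 : (169 / 60 * Y + 1759 / 100 * δ) ^ 2 ≤ δ / 5 := by
    have : δ * δ ≤ 1 / 10 ^ 12 * δ := mul_le_mul_of_nonneg_right hδ1 hδ.le
    nlinarith
  have c4 : (12 / 13 + Y) * (169 / 60 * Y + 1759 / 100 * δ) ^ 2 ≤
      1 * (169 / 60 * Y + 1759 / 100 * δ) ^ 2 :=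
    mul_le_mul_of_nonneg_right (by linarith) (sq_nonneg _)
  nlinarith [sq_nonneg Y]

/-- a thin sheet -/
theorem abs_le_of_thin {t : ℂ} {η y : ℝ} (hη : 0 < η) (hη1 : η ≤ 1 / 10)
    (ht : ‖t - 1‖ ≤ η ^ 2 / 4) (h : ‖t‖ * Real.cosh y < 1) : |y| ≤ η := by
  by_contra hy
  have hy' : η < |y| := not_le.1 hy
  have h1 : Real.cosh η ≤ Real.cosh y := by
    rw [Real.cosh_le_cosh, abs_of_pos hη]
    exact hy'.le
  have h2 : 1 + η ^ 2 / 2 ≤ Real.cosh η := by
    have e : η = 2 * (η / 2) := by ring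
    have h3 : η / 2 ≤ Real.sinh (η / 2) := Real.self_le_sinh_iff.2 (by linarith)
    have h4 := Real.cosh_two_mul (η / 2)
    rw [← e, Real.cosh_sq] at h4
    nlinarith
  have h3 : 1 - η ^ 2 / 4 ≤ ‖t‖ := by
    have := norm_sub_norm_le (1 : ℂ) t
    rw [norm_sub_rev, norm_one] at this
    linarith
  have h4 : η ^ 2 ≤ 1 / 100 := by nlinarith
  have h5 : (1 - η ^ 2 / 4) * (1 + η ^ 2 / 2) ≤ ‖t‖ * Real.cosh y :=
    mul_le_mul h3 (h2.trans h1) (by positivity) (norm_nonneg _)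
  nlinarith [sq_nonneg η]

section
variable {s p q : ℝ}

theorem hn_neg : hn s (-p) (-q) = -hn s p q := by
  unfold hn
  ring

theorem IneqAux.arg_re (p q : ℝ) :
    (2 * Real.pi * I * (p + q * I) : ℂ).re = -(2 * Real.pi * q) := by simp

theorem IneqAux.arg_im (p q : ℝ) :
    (2 * Real.pi * I * (p + q * I) : ℂ).im = 2 * Real.pi * p := by simp

theorem IneqAux.norm_exp_sq (w : ℂ) : ‖exp w - 1‖ ^ 2 =
    (1 - Real.exp w.re) ^ 2 + 2 * Real.exp w.re * (1 - Real.cos w.im) := by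
  rw [norm_sq_eq, sub_re, sub_im, exp_re, exp_im, one_re, one_im]
  have := Real.sin_sq_add_cos_sq w.im
  linear_combination (Real.exp w.re) ^ 2 * this

theorem far_le (hs : 0 < s) (hs1 : s ≤ 1 / 10 ^ 5) (k : ℤ) (h1 : 4 * s ≤ |p - k|)
    (h2 : |p - k| ≤ 1 / 2) (hq : q ≤ 2 * s) :
    250 * s ^ 2 ≤ 6 / 5 * ‖exp (2 * Real.pi * I * (p + q * I)) - 1‖ ^ 2 := by
  rw [norm_exp_sq, arg_re, arg_im]
  have hpi := Real.pi_pos
  have hpi4 := Real.pi_lt_d4
  have hr : 9 / 10 ≤ Real.exp (-(2 * Real.pi * q)) := by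
    have := Real.add_one_le_exp (-(2 * Real.pi * q))
    have h3 : Real.pi * q ≤ Real.pi * (2 * s) := mul_le_mul_of_nonneg_left hq hpi.le
    nlinarith
  have hc : Real.cos (2 * Real.pi * p) ≤ 1 - 8 * (p - k) ^ 2 := by
    have e1 : Real.cos (2 * Real.pi * p) = Real.cos (2 * Real.pi * (p - k)) := by
      rw [← Real.cos_sub_int_mul_two_pi (2 * Real.pi * p) k]
      congr 1
      ring
    have h3 : |2 * Real.pi * (p - k)| ≤ Real.pi := by
      rw [abs_mul, abs_of_pos (by positivity : 0 < 2 * Real.pi)]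
      nlinarith
    have h4 := Real.cos_le_one_sub_mul_cos_sq h3
    have e2 : 2 / Real.pi ^ 2 * (2 * Real.pi * (p - k)) ^ 2 = 8 * (p - k) ^ 2 := by
      field_simp
      ring
    rw [e1]
    linarith
  have h5 : (4 * s) ^ 2 ≤ (p - k) ^ 2 := by
    rw [← sq_abs (p - k)]
    exact pow_le_pow_left₀ (by positivity) h1 2
  have h6 : 9 / 10 * (128 * s ^ 2) ≤
      Real.exp (-(2 * Real.pi * q)) * (1 - Real.cos (2 * Real.pi * p)) :=
    mul_le_mul hr (by linarith) (by positivity) (Real.exp_pos _).le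
  nlinarith [sq_nonneg (1 - Real.exp (-(2 * Real.pi * q))), sq_nonneg s]

theorem IneqAux.abs_hn_tri (hs : 0 < s) {a b : ℝ} (hp : |p| ≤ a) (hq : |q| ≤ b) :
    |hn s p q| ≤ 93 * s * (506 / 1000 * s * a + a ^ 2 * b + b ^ 3 / 3) := by
  unfold hn
  rw [abs_mul, abs_of_pos (by positivity : 0 < 93 * s)]
  apply mul_le_mul_of_nonneg_left _ (by positivity)
  have ha : 0 ≤ a := (abs_nonneg _).trans hp
  have h1 : |506 / 1000 * s * p| ≤ 506 / 1000 * s * a := by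
    rw [abs_mul, abs_of_pos (by positivity : 0 < 506 / 1000 * s)]
    gcongr
  have h2 : |p ^ 2 * q| ≤ a ^ 2 * b := by
    rw [abs_mul, abs_pow]
    gcongr
  have h3 : |q ^ 3 / 3| ≤ b ^ 3 / 3 := by
    rw [abs_div, abs_pow, abs_of_pos (by norm_num : (0 : ℝ) < 3)]
    gcongr
  have h4 := abs_add_le (506 / 1000 * s * p - p ^ 2 * q) (q ^ 3 / 3)
  have h5 := abs_sub (506 / 1000 * s * p) (p ^ 2 * q)
  linarith

theorem IneqAux.abs_q_le (hs : 0 < s) {a : ℝ} (hp : |p| ≤ a)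
    (hq : |q - s * p| ≤ s / 2 + s / 250) : |q| ≤ (a + 504 / 1000) * s := by
  have h1 := abs_add_le (q - s * p) (s * p)
  rw [sub_add_cancel, abs_mul, abs_of_pos hs] at h1
  have h2 : s * |p| ≤ s * a := mul_le_mul_of_nonneg_left hp hs.le
  linarith

theorem abs_hn_le (hs : 0 < s) (hs1 : s ≤ 1 / 10 ^ 5) (hp : |p| ≤ 1 + 200 * s)
    (hq : |q - s * p| ≤ s / 2 + s / 250) : |hn s p q| ≤ 200 * s ^ 2 := by
  have hp' : |p| ≤ 1002 / 1000 := by linarith
  refine (abs_hn_tri hs hp' (abs_q_le hs hp' hq)).trans ?_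
  have h1 : s ^ 2 ≤ 1 / 10 ^ 5 := by nlinarith
  have h2 : s ^ 2 * s ^ 2 ≤ s ^ 2 * (1 / 10 ^ 5) := mul_le_mul_of_nonneg_left h1 (sq_nonneg s)
  nlinarith [sq_nonneg s]

theorem IneqAux.sq_le_norm (p : ℝ) (hq : |q| ≤ 1 / 10 ^ 4) :
    394 / 10 * q ^ 2 ≤ ‖exp (2 * Real.pi * I * (p + q * I)) - 1‖ ^ 2 := by
  rw [norm_exp_sq, arg_re]
  have hpi := Real.pi_gt_d4
  have hpi4 := Real.pi_lt_d4
  obtain ⟨y, hy⟩ : ∃ y, y = -(2 * Real.pi * q) := ⟨_, rfl⟩
  rw [← hy]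
  have e1 : |y| = 2 * Real.pi * |q| := by
    rw [hy, abs_neg, abs_mul, abs_of_pos (by positivity : 0 < 2 * Real.pi)]
  have hq0 := abs_nonneg q
  have h1 : |y| ≤ 63 / 10 ^ 5 := by rw [e1]; nlinarith
  have h2 : 6283 / 1000 * |q| ≤ |y| := by rw [e1]; nlinarith
  have h3 := Real.abs_exp_sub_one_sub_id_le (x := y) (by linarith)
  have h4 : |y| ≤ |1 - Real.exp y| + y ^ 2 := by
    have := abs_add_le (1 - Real.exp y) (Real.exp y - 1 - y)
    rw [show 1 - Real.exp y + (Real.exp y - 1 - y) = -y by ring, abs_neg] at this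
    linarith
  have h5 : y ^ 2 ≤ 63 / 10 ^ 5 * |y| := by
    rw [← sq_abs]
    nlinarith [abs_nonneg y]
  have h6 : 6279 / 1000 * |q| ≤ |1 - Real.exp y| := by nlinarith
  have h7 : (6279 / 1000 * |q|) ^ 2 ≤ |1 - Real.exp y| ^ 2 :=
    pow_le_pow_left₀ (by positivity) h6 2
  rw [mul_pow, sq_abs, sq_abs] at h7
  have h8 : 0 ≤ 2 * Real.exp y * (1 - Real.cos (2 * Real.pi * I * (p + q * I) : ℂ).im) :=
    mul_nonneg (by positivity) (by linarith [Real.cos_le_one (2 * Real.pi * I * (p + q * I) : ℂ).im])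
  nlinarith [sq_nonneg q]

theorem IneqAux.hn_scaled (s P Q : ℝ) : hn s (s * P - 1) (s * Q) = 93 * s ^ 2 *
    (-Q - 506 / 1000 + s * (506 / 1000 * P + 2 * P * Q - s * P ^ 2 * Q + s * Q ^ 3 / 3)) := by
  unfold hn
  ring

theorem IneqAux.err_le (hs : 0 < s) (hs1 : s ≤ 1 / 10 ^ 5) {P Q : ℝ} (hP : |P| ≤ 4)
    (hQ : |Q| ≤ 2) :
    |s * (506 / 1000 * P + 2 * P * Q - s * P ^ 2 * Q + s * Q ^ 3 / 3)| ≤ 1 / 1000 := by
  have h1 : |506 / 1000 * P| ≤ 506 / 1000 * 4 := by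
    rw [abs_mul, abs_of_pos (by norm_num : (0 : ℝ) < 506 / 1000)]
    gcongr
  have h2 : |2 * P * Q| ≤ 2 * 4 * 2 := by
    rw [abs_mul, abs_mul, abs_two]
    gcongr
  have h3 : |s * P ^ 2 * Q| ≤ 1 * 4 ^ 2 * 2 := by
    rw [abs_mul, abs_mul, abs_pow, abs_of_pos hs]
    gcongr
    linarith
  have h4 : |s * Q ^ 3 / 3| ≤ 1 * 2 ^ 3 / 3 := by
    rw [abs_div, abs_mul, abs_pow, abs_of_pos hs, abs_of_pos (by norm_num : (0 : ℝ) < 3)]
    gcongr
    linarith
  have h5 : |506 / 1000 * P + 2 * P * Q - s * P ^ 2 * Q + s * Q ^ 3 / 3| ≤ 100 := by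
    obtain ⟨a1, a2⟩ := abs_le.1 h1
    obtain ⟨b1, b2⟩ := abs_le.1 h2
    obtain ⟨c1, c2⟩ := abs_le.1 h3
    obtain ⟨d1, d2⟩ := abs_le.1 h4
    rw [abs_le]
    constructor <;> linarith
  rw [abs_mul, abs_of_pos hs]
  nlinarith [mul_le_mul_of_nonneg_left h5 hs.le]

theorem IneqAux.near_one (hs : 0 < s) (hs1 : s ≤ 1 / 10 ^ 5) (hp : |p + 1| ≤ 4 * s)
    (hq : |q - s * p| ≤ s / 2 + s / 250) : |hn s p q| ≤ 47 * q ^ 2 := by
  obtain ⟨P, hP⟩ : ∃ P, p = s * P - 1 := ⟨(p + 1) / s, by field_simp; ring⟩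
  obtain ⟨Q, rfl⟩ : ∃ Q, q = s * Q := ⟨q / s, by field_simp⟩
  have hP4 : |P| ≤ 4 := by
    rw [hP, sub_add_cancel, abs_mul, abs_of_pos hs] at hp
    exact le_of_mul_le_mul_left (by linarith) hs
  have hQp : |Q - p| ≤ 504 / 1000 := by
    rw [← mul_sub, abs_mul, abs_of_pos hs] at hq
    exact le_of_mul_le_mul_left (by linarith) hs
  obtain ⟨p1, p2⟩ := abs_le.1 hp
  obtain ⟨q1, q2⟩ := abs_le.1 hQp
  have hQ1 : -2 ≤ Q := by linarith
  have hQ2 : Q ≤ -(49 / 100) := by linarith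
  obtain ⟨e1, e2⟩ := abs_le.1 (err_le hs hs1 hP4 (abs_le.2 ⟨hQ1, by linarith⟩))
  rw [hP, hn_scaled, abs_mul, abs_of_pos (by positivity : 0 < 93 * s ^ 2)]
  generalize s * (506 / 1000 * P + 2 * P * Q - s * P ^ 2 * Q + s * Q ^ 3 / 3) = E at *
  have h : |-Q - 506 / 1000 + E| ≤ 47 / 93 * Q ^ 2 := by
    rw [abs_le]
    constructor
    · nlinarith
    · nlinarith [sq_nonneg (Q + 1)]
  nlinarith [mul_le_mul_of_nonneg_left h (sq_nonneg s)]

theorem abs_hn_le_bowl (hs : 0 < s) (hs1 : s ≤ 1 / 10 ^ 5) (hp : |p| ≤ 1 + 200 * s)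
    (hq : |q - s * p| ≤ s / 2 + s / 250) :
    |hn s p q| ≤ 6 / 5 * ‖exp (2 * Real.pi * I * (p + q * I)) - 1‖ ^ 2 + s ^ 2 / 4 := by
  have hp' : |p| ≤ 1002 / 1000 := by linarith
  have hq' := abs_q_le hs hp' hq
  have hs2 := sq_nonneg s
  rcases le_total (4 * s) |p - round p| with h | h
  · have h1 := far_le (q := q) hs hs1 (round p) h (abs_sub_round p)
      (by linarith [le_abs_self q])
    have h2 := abs_hn_le hs hs1 hp hq
    linarith
  · have hN := sq_le_norm (q := q) p (by linarith)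
    have hq2 := sq_nonneg q
    obtain ⟨p1, p2⟩ := abs_le.1 hp'
    obtain ⟨k1, k2⟩ := abs_le.1 h
    have k3 : (-2 : ℤ) < round p := by
      have : ((-2 : ℤ) : ℝ) < round p := by push_cast; linarith
      exact_mod_cast this
    have k4 : round p < (2 : ℤ) := by
      have : (round p : ℝ) < ((2 : ℤ) : ℝ) := by push_cast; linarith
      exact_mod_cast this
    have hk : round p = -1 ∨ round p = 0 ∨ round p = 1 := by omega
    rcases hk with hk | hk | hk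
    · rw [hk] at h
      have h1 := near_one hs hs1 (p := p) (by simpa using h) hq
      linarith
    · rw [hk] at h
      have h0 : |p| ≤ 4 * s := by simpa using h
      have h1 := abs_hn_tri hs h0 (hq'.trans (by linarith : _ ≤ 2 * s))
      have h2 : s ^ 2 * s ≤ s ^ 2 * (1 / 10 ^ 5) := mul_le_mul_of_nonneg_left hs1 hs2
      have h3 : s ^ 2 * s * s ≤ s ^ 2 * s * (1 / 10 ^ 5) :=
        mul_le_mul_of_nonneg_left hs1 (by positivity)
      nlinarith [sq_nonneg ‖exp (2 * Real.pi * I * (p + q * I)) - 1‖]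
    · rw [hk] at h
      have h0 : |-p + 1| ≤ 4 * s := by
        rw [← abs_neg]
        simpa [sub_eq_add_neg, add_comm] using h
      have h1 := near_one hs hs1 (q := -q) h0 (by
        rw [← abs_neg, show -(-q - s * -p) = q - s * p by ring]
        exact hq)
      rw [hn_neg, abs_neg, neg_sq] at h1
      linarith

theorem hn_order (hs : 0 < s) (hs1 : s ≤ 1 / 10 ^ 5) (hp : |p + 1 / 2| ≤ 1 / 2 + 101 * s)
    (hq : |q - s * (p + 1 / 2)| ≤ 31 / 10000 * s) : hn s p q + s ^ 2 / 20 ≤ hn s (p + 1) q := by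
  have hm : |p + 1 / 2| ≤ 50101 / 100000 := by linarith
  have h1 : |q| ≤ 50411 / 100000 * s := by
    have h1 := abs_add_le (q - s * (p + 1 / 2)) (s * (p + 1 / 2))
    rw [sub_add_cancel, abs_mul, abs_of_pos hs] at h1
    have h2 := mul_le_mul_of_nonneg_left hm hs.le
    linarith
  have h2 : (p + 1 / 2) * q ≤ 50101 / 100000 * (50411 / 100000 * s) := by
    refine (le_abs_self _).trans ?_
    rw [abs_mul]
    gcongr
  have e : hn s (p + 1) q - hn s p q = 93 * s * (506 / 1000 * s - 2 * ((p + 1 / 2) * q)) := by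
    unfold hn
    ring
  have h3 := mul_le_mul_of_nonneg_left h2 hs.le
  nlinarith [sq_nonneg s]

theorem hn_lip {p' q' : ℝ} (hs : 0 < s) (hs1 : s ≤ 1 / 10 ^ 5) (hp : |p| ≤ 2) (hp' : |p'| ≤ 2)
    (hq : |q| ≤ 1) (hq' : |q'| ≤ 1) : |hn s p q - hn s p' q'| ≤ |p - p'| + |q - q'| := by
  have e : hn s p q - hn s p' q' = 93 * s * (506 / 1000 * s - (p + p') * q) * (p - p') +
      93 * s * ((q ^ 2 + q * q' + q' ^ 2) / 3 - p' ^ 2) * (q - q') := by
    unfold hn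
    ring
  have a1 : |(p + p') * q| ≤ 4 * 1 := by
    rw [abs_mul]
    gcongr
    linarith [abs_add_le p p']
  have a2 : |506 / 1000 * s - (p + p') * q| ≤ 5 := by
    obtain ⟨b1, b2⟩ := abs_le.1 a1
    rw [abs_le]
    constructor <;> linarith
  have a3 : |(q ^ 2 + q * q' + q' ^ 2) / 3 - p' ^ 2| ≤ 5 := by
    obtain ⟨b1, b2⟩ := abs_le.1 hp'
    obtain ⟨c1, c2⟩ := abs_le.1 hq
    obtain ⟨d1, d2⟩ := abs_le.1 hq'
    rw [abs_le]
    constructor <;> nlinarith [sq_nonneg (q + q'), sq_nonneg (q - q')]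
  have a4 : ∀ x y : ℝ, |x| ≤ 5 → |93 * s * x * y| ≤ |y| := by
    intro x y hx
    rw [abs_mul, abs_mul, abs_of_pos (by positivity : 0 < 93 * s)]
    have : 93 * s * |x| ≤ 1 := by nlinarith [abs_nonneg x]
    nlinarith [abs_nonneg y]
  rw [e]
  exact (abs_add_le _ _).trans (add_le_add (a4 _ _ a2) (a4 _ _ a3))

theorem hn_A (hs : 0 < s) (hs1 : s ≤ 1 / 10 ^ 5) (hp : |p| ≤ 1) (hq : |q| ≤ 3 / 2) :
    93 * s ^ 2 * (-q - 1 / 2 - 9 / 1000) ≤ hn s (s * p - 1) (s * q) := by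
  obtain ⟨e1, e2⟩ := abs_le.1 (err_le hs hs1 (P := p) (Q := q) (by linarith) (by linarith))
  rw [hn_scaled]
  exact mul_le_mul_of_nonneg_left (by linarith) (by positivity)

theorem hn_B (hs : 0 < s) (hs1 : s ≤ 1 / 10 ^ 5) (hp : |p| ≤ 1) (hq : |q| ≤ 1) :
    93 * s ^ 2 * (-9 / 1000) ≤ hn s (s * p) (s * q) := by
  have h1 : |s * p| ≤ s := by
    rw [abs_mul, abs_of_pos hs]
    nlinarith
  have h2 : |s * q| ≤ s := by
    rw [abs_mul, abs_of_pos hs]
    nlinarith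
  have h3 := (abs_le.1 (abs_hn_tri hs h1 h2)).1
  have h4 : s ^ 2 * s ≤ s ^ 2 * (1 / 10 ^ 5) := mul_le_mul_of_nonneg_left hs1 (sq_nonneg s)
  have h5 : s ^ 2 * s * s ≤ s ^ 2 * s * (1 / 10 ^ 5) :=
    mul_le_mul_of_nonneg_left hs1 (by positivity)
  nlinarith [sq_nonneg s]

/-- position of the small discs around `± i s / 2` -/
theorem centre_le (hs : 0 < s) (hs1 : s ≤ 1 / 10 ^ 5) (hp : |p| ≤ s / 200)
    (hq : |q| ≤ 101 / 200 * s) :
    (exp (2 * Real.pi * I * (p + q * I)) - 1).re ^ 2 ≤ 101 / 10 * s ^ 2 ∧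
      (exp (2 * Real.pi * I * (p + q * I)) - 1).im ^ 2 ≤ s ^ 2 / 100 := by
  have hpi := Real.pi_pos
  have hpi4 := Real.pi_lt_d4
  have hre := arg_re p q
  have him := arg_im p q
  generalize (2 * Real.pi * I * (p + q * I) : ℂ) = w at *
  have r1 : |w.re| ≤ 31731 / 10000 * s := by
    rw [hre, abs_neg, abs_mul, abs_of_pos (by positivity : 0 < 2 * Real.pi)]
    nlinarith [abs_nonneg q]
  have r2 : |w.im| ≤ 32 / 1000 * s := by
    rw [him, abs_mul, abs_of_pos (by positivity : 0 < 2 * Real.pi)]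
    nlinarith [abs_nonneg p]
  have r3 : ‖w‖ ≤ 4 * s := by linarith [Complex.norm_le_abs_re_add_abs_im w]
  have r4 : ‖exp w - 1 - w‖ ≤ s / 1000 := by
    refine (Complex.norm_exp_sub_one_sub_id_le (by linarith)).trans ?_
    have : ‖w‖ ^ 2 ≤ (4 * s) ^ 2 := pow_le_pow_left₀ (norm_nonneg _) r3 2
    nlinarith
  have r5 := abs_le.1 ((Complex.abs_re_le_norm _).trans r4)
  have r6 := abs_le.1 ((Complex.abs_im_le_norm _).trans r4)
  rw [sub_re] at r5
  rw [sub_im] at r6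
  obtain ⟨a1, a2⟩ := abs_le.1 r1
  obtain ⟨b1, b2⟩ := abs_le.1 r2
  constructor
  · have : (exp w - 1).re ^ 2 ≤ (3175 / 1000 * s) ^ 2 :=
      sq_le_sq' (by linarith [r5.1]) (by linarith [r5.2])
    nlinarith [sq_nonneg s]
  · have : (exp w - 1).im ^ 2 ≤ (1 / 10 * s) ^ 2 :=
      sq_le_sq' (by linarith [r6.1]) (by linarith [r6.2])
    nlinarith [sq_nonneg s]
end

end Pool.Agent.MP_2790d1_an

end

-- part MP_2790d1_an.NoCurve
section

/-! No non-constant entire curve passes between the floor, the roof and the finger. -/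

open Complex Set Metric ComplexConjugate

namespace Pool.Agent.MP_2790d1_an

/-- the basic small height `R² s²` -/
noncomputable def dl : ℝ := 1 / (16 * 10 ^ 12)

/-- model height of the finger over the rescaled ribbon -/
noncomputable def hv (v : ℂ) : ℝ := hn (1 / 10 ^ 5) (v.re / 10 ^ 5) (v.im / 10 ^ 5) / 1600

theorem hv_neg (v : ℂ) : hv (-v) = -hv v := by
  unfold hv
  rw [neg_re, neg_im, neg_div, neg_div, hn_neg, neg_div]

theorem neg_mem_rib {v : ℂ} (h : v ∈ Rib) : -v ∈ Rib := by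
  simp only [Rib, mem_ofPred_eq, abs_lt, neg_re, neg_im] at h ⊢
  refine ⟨⟨?_, ?_⟩, ?_, ?_⟩ <;> linarith [h.1.1, h.1.2, h.2.1, h.2.2]

section
variable {σ : ℂ → ℝ}

theorem sigA (hσ : ∀ v ∈ Rib, |σ v - hv v| ≤ dl / 100) (v : ℂ) (h1 : |v.re| ≤ 1)
    (h2 : -(3 / 2) ≤ v.im) (h3 : v.im ≤ -(4995 / 10000)) :
    93 * dl * (-v.im - 51 / 100) ≤ σ (v - (100000 : ℝ)) := by
  have a := hσ (v - (100000 : ℝ)) (by
    rw [abs_le] at h1
    simp only [Rib, mem_ofPred_eq, abs_lt, sub_re, sub_im, ofReal_re, ofReal_im]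
    refine ⟨⟨?_, ?_⟩, ?_, ?_⟩ <;> linarith [h1.1, h1.2])
  have b := hn_A (s := 1 / 10 ^ 5) (p := v.re) (q := v.im) (by norm_num) le_rfl h1
    (by rw [abs_le]; constructor <;> linarith)
  have e : hv (v - (100000 : ℝ))
      = hn (1 / 10 ^ 5) (1 / 10 ^ 5 * v.re - 1) (1 / 10 ^ 5 * v.im) / 1600 := by
    unfold hv
    congr 2
    · simp; ring
    · simp; ring
  rw [e, abs_le] at a
  unfold dl at *
  linarith [a.1]

theorem sigB (hσ : ∀ v ∈ Rib, |σ v - hv v| ≤ dl / 100) (v : ℂ) (h1 : |v.re| ≤ 1)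
    (h2 : -(5005 / 10000) ≤ v.im) (h3 : v.im ≤ 1 / 2) : -(93 * dl / 100) ≤ σ v := by
  have a := hσ v (by
    rw [abs_le] at h1
    simp only [Rib, mem_ofPred_eq, abs_lt]
    refine ⟨⟨?_, ?_⟩, ?_, ?_⟩ <;> linarith [h1.1, h1.2])
  have b := hn_B (s := 1 / 10 ^ 5) (p := v.re) (q := v.im) (by norm_num) le_rfl h1
    (by rw [abs_le]; constructor <;> linarith)
  have e : hv v = hn (1 / 10 ^ 5) (1 / 10 ^ 5 * v.re) (1 / 10 ^ 5 * v.im) / 1600 := by
    unfold hv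
    congr 2 <;> ring
  rw [e, abs_le] at a
  unfold dl at *
  linarith [a.1]

theorem sigO (hσ : ∀ v ∈ Rib, |σ v - hv v| ≤ dl / 100) (v : ℂ) (h1 : |v.re| ≤ 3)
    (h2 : |v.im + 1 / 2| ≤ 2 / 1000) : σ (v - (100000 : ℝ)) < σ v := by
  rw [abs_le] at h1 h2
  have a := hσ (v - (100000 : ℝ)) (by
    simp only [Rib, mem_ofPred_eq, abs_lt, sub_re, sub_im, ofReal_re, ofReal_im]
    refine ⟨⟨?_, ?_⟩, ?_, ?_⟩ <;> linarith [h1.1, h1.2, h2.1, h2.2])
  have a' := hσ v (by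
    simp only [Rib, mem_ofPred_eq, abs_lt]
    refine ⟨⟨?_, ?_⟩, ?_, ?_⟩ <;> linarith [h1.1, h1.2, h2.1, h2.2])
  have b := hn_order (s := 1 / 10 ^ 5) (p := v.re / 10 ^ 5 - 1) (q := v.im / 10 ^ 5) (by norm_num)
    le_rfl (by rw [abs_le]; constructor <;> linarith [h1.1, h1.2])
    (by rw [abs_le]; constructor <;> linarith [h1.1, h1.2, h2.1, h2.2])
  have e : hv (v - (100000 : ℝ)) = hn (1 / 10 ^ 5) (v.re / 10 ^ 5 - 1) (v.im / 10 ^ 5) / 1600 := by
    unfold hv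
    congr 2
    · simp; ring
    · simp
  rw [e, abs_le] at a
  rw [sub_add_cancel] at b
  rw [hv, abs_le] at a'
  unfold dl at *
  linarith [a.2, a'.1]
end

/-- the radial profile of the last test form -/
noncomputable def kk (ρ : ℝ) : ℝ := -(qq (36 / 10000 - ρ) * (ρ / (ρ ^ 2 + 1 / 10 ^ 72)))

theorem kk_contDiff : ContDiff ℝ 1 kk :=
  ((qq_contDiff.comp (by fun_prop)).mul
    (contDiff_id.div (by fun_prop) fun x => by positivity)).neg

theorem kk_deriv (ρ : ℝ) : kk ρ + ρ * deriv kk ρ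
    = 2 * max (36 / 10000 - ρ) 0 * ρ ^ 2 / (ρ ^ 2 + 1 / 10 ^ 72)
      - 2 * qq (36 / 10000 - ρ) * ρ * (1 / 10 ^ 72) / (ρ ^ 2 + 1 / 10 ^ 72) ^ 2 := by
  have h0 : ρ ^ 2 + 1 / 10 ^ 72 ≠ 0 := by positivity
  have h1 := (qq_hasDerivAt (36 / 10000 - ρ)).comp_const_sub (36 / 10000) ρ
  have h2 := (hasDerivAt_id' ρ).fun_div ((hasDerivAt_pow 2 ρ).add_const (1 / 10 ^ 72)) h0
  have h3 : HasDerivAt kk _ ρ := (h1.fun_mul h2).fun_neg
  rw [h3.deriv, kk]
  generalize (1 / 10 ^ 72 : ℝ) = e at *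
  field_simp
  ring

theorem kk_big {ρ : ℝ} (h : 1 / 10 ^ 24 ≤ ρ) :
    qq (36 / 10000 - ρ) ≤ 2 * (kk ρ + ρ * deriv kk ρ) := by
  rw [kk_deriv, qq]
  have hn0 : 0 ≤ max (36 / 10000 - ρ) 0 := le_max_right _ _
  have hn1 : max (36 / 10000 - ρ) 0 ≤ 1 / 10 := max_le (by linarith) (by norm_num)
  generalize max (36 / 10000 - ρ) 0 = n at *
  have hρ : 0 < ρ := lt_of_lt_of_le (by norm_num) h
  have e3 : 1 / 10 ^ 72 ≤ ρ ^ 3 := le_trans (by norm_num) (pow_le_pow_left₀ (by norm_num) h 3)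
  have e2 : 1 / 10 ^ 72 ≤ ρ ^ 2 := le_trans (by norm_num) (pow_le_pow_left₀ (by norm_num) h 2)
  have e0 : (0 : ℝ) < 1 / 10 ^ 72 := by norm_num
  generalize (1 / 10 ^ 72 : ℝ) = e at *
  have a1 : n ≤ 2 * n * ρ ^ 2 / (ρ ^ 2 + e) := by
    rw [le_div_iff₀ (by positivity)]; nlinarith
  have a2 : 2 * n ^ 2 * ρ * e / (ρ ^ 2 + e) ^ 2 ≤ 2 * n ^ 2 := by
    rw [div_le_iff₀ (by positivity), mul_assoc]
    refine mul_le_mul_of_nonneg_left ?_ (by positivity)
    nlinarith [mul_le_mul_of_nonneg_left e3 hρ.le, mul_pos e0 e0, mul_pos e0 (pow_pos hρ 2)]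
  nlinarith

theorem kk_small {ρ : ℝ} (h0 : 0 ≤ ρ) (h : ρ ≤ 1) :
    qq (36 / 10000 - ρ) ≤ 2 * (kk ρ + ρ * deriv kk ρ) + 10 ^ 73 := by
  rw [kk_deriv, qq]
  have hn0 : 0 ≤ max (36 / 10000 - ρ) 0 := le_max_right _ _
  have hn1 : max (36 / 10000 - ρ) 0 ≤ 1 := max_le (by linarith) (by norm_num)
  generalize max (36 / 10000 - ρ) 0 = n at *
  have a1 : 0 ≤ 2 * n * ρ ^ 2 / (ρ ^ 2 + 1 / 10 ^ 72) := by positivity
  have a3 : n ^ 2 ≤ 1 := by nlinarith
  have a2 : 2 * n ^ 2 * ρ * (1 / 10 ^ 72) / (ρ ^ 2 + 1 / 10 ^ 72) ^ 2 ≤ 2 * 10 ^ 72 := by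
    rw [div_le_iff₀ (by positivity)]
    have : n ^ 2 * ρ ≤ 1 := mul_le_one₀ a3 h0 h
    nlinarith [sq_nonneg ρ, sq_nonneg (ρ ^ 2)]
  linarith

theorem kk_sq {ρ : ℝ} (h0 : 0 ≤ ρ) : ρ * kk ρ ^ 2 ≤ 10 ^ 144 * qq (36 / 10000 - ρ) := by
  rcases le_total (36 / 10000) ρ with h | h
  · simp [kk, qq_of_nonpos (sub_nonpos.2 h)]
  · have a1 : qq (36 / 10000 - ρ) ≤ 1 := by rw [qq_of_nonneg (sub_nonneg.2 h)]; nlinarith
    have a0 := qq_nonneg (36 / 10000 - ρ)
    have a2 : ρ / (ρ ^ 2 + 1 / 10 ^ 72) ≤ 10 ^ 72 := by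
      rw [div_le_iff₀ (by positivity)]; nlinarith
    have a3 : 0 ≤ ρ / (ρ ^ 2 + 1 / 10 ^ 72) := by positivity
    rw [kk, neg_sq, mul_pow]
    generalize qq (36 / 10000 - ρ) = n at *
    generalize ρ / (ρ ^ 2 + 1 / 10 ^ 72) = t at *
    calc ρ * (n ^ 2 * t ^ 2) ≤ 1 * (n * (10 ^ 72) ^ 2) := by
          gcongr
          · linarith
          · nlinarith
      _ = _ := by ring

theorem norm_cc : 6 / 10 ^ 5 ≤ ‖cc‖ ∧ ‖cc‖ ≤ 1 := by
  have : ‖cc‖ = 2 * Real.pi / 100000 := by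
    simp [cc, abs_of_pos Real.pi_pos]
  rw [this]
  constructor <;> linarith [Real.pi_gt_three, Real.pi_le_four]

theorem no_curve {W : Set ℂ} (hW : IsOpen W) {U gf : ℂ → ℂ} (hU : DifferentiableOn ℂ U W)
    (hg : DifferentiableOn ℂ gf W) (g0 : ∀ x ∈ W, gf x ≠ 0)
    (hcl : IsClosed {x | x ∈ W ∧ U x ∈ closedBall (0 : ℂ) (6 / 100)}) {σ : ℂ → ℝ}
    (σc : ContinuousOn σ Rib) (hσ : ∀ v ∈ Rib, |σ v - hv v| ≤ dl / 100)
    (av : ∀ x ∈ W, ∀ v ∈ Rib, U x = (ee v - 1) / 40 → Real.log ‖gf x‖ ≠ σ v)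
    (roof : ∀ x ∈ W, ∀ v : ℂ, U x = (ee v - 1) / 40 → ‖v + I / 2‖ ≤ 1 / 200 →
      Real.log ‖gf x‖ ≤ 93 / 5 * dl)
    (floor : ∀ x ∈ W, ∀ v : ℂ, U x = (ee v - 1) / 40 → ‖-v + I / 2‖ ≤ 1 / 200 →
      -(93 / 5 * dl) ≤ Real.log ‖gf x‖)
    {x₀ : ℂ} (hx₀ : x₀ ∈ W) (hU₀ : ‖U x₀‖ < 6 / 100) : deriv U x₀ = 0 := by
  have ad : Adm W U (closedBall 0 (6 / 100)) := ⟨hW, hU, hcl⟩
  have out : ∀ u : ℂ, u ∉ closedBall (0 : ℂ) (6 / 100) → qq (36 / 10000 - normSq u) = 0 := by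
    intro u hu
    rw [mem_closedBall_zero_iff, not_le] at hu
    exact qq_of_nonpos (by rw [normSq_eq_norm_sq]; nlinarith)
  set m : ℂ → ℝ := W.indicator fun x => qq (36 / 10000 - normSq (U x)) * ‖deriv U x‖ ^ 2 with hm
  have mc : Continuous m := ad.continuous ((qq_contDiff.continuous.comp_continuousOn
    (continuousOn_const.sub (continuous_normSq.comp_continuousOn hU.continuousOn))).mul
      (ad.continuousOn_deriv.norm.pow 2)) fun x _ hx => by rw [out _ hx, zero_mul]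
  have m0 : ∀ x, 0 ≤ m x := indicator_nonneg fun _ _ => mul_nonneg (qq_nonneg _) (sq_nonneg _)
  set Z : ℂ → ℂ := fun x => 1 + 40 * U x with hZ
  have Zd : DifferentiableOn ℂ Z W := by fun_prop
  have Zd' : ∀ x ∈ W, HasDerivAt Z (40 * deriv U x) x := fun x hx =>
    (((hU.differentiableAt (hW.mem_nhds hx)).hasDerivAt.const_mul 40).const_add 1)
  have ZU : ∀ x v, Z x = ee v → U x = (ee v - 1) / 40 := fun x v h => by
    rw [← h, hZ]; ring
  have ZU' : ∀ x v, (Z x)⁻¹ = ee v → U x = (ee (-v) - 1) / 40 := fun x v h =>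
    ZU x _ (by rw [ee_neg, ← h, inv_inv])
  set W' : Set ℂ := W ∩ Z ⁻¹' {0}ᶜ with hW'
  have oW : IsOpen W' := Zd.continuousOn.isOpen_inter_preimage hW isOpen_compl_singleton
  have UZ : ∀ x, ‖Z x‖ ≤ 101 / 100 → ‖U x‖ ≤ 505 / 10000 := by
    intro x h
    have : U x = (Z x - 1) / 40 := by rw [hZ]; ring
    rw [this, norm_div, div_le_iff₀ (by norm_num)]
    have := norm_sub_le (Z x) 1
    simp only [norm_one, Complex.norm_ofNat] at this ⊢
    linarith
  have cl : IsClosed {x | x ∈ W' ∧ 100 / 101 ≤ ‖Z x‖ ∧ ‖Z x‖ ≤ 101 / 100} := by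
    have := (Zd.continuousOn.norm.mono fun x hx => hx.1).preimage_isClosed_of_isClosed hcl
      (isClosed_Icc (a := 100 / 101) (b := 101 / 100))
    refine (congrArg IsClosed ?_).mp this
    ext x
    constructor
    · rintro ⟨⟨a, -⟩, b, c⟩
      exact ⟨⟨a, norm_pos_iff.1 (lt_of_lt_of_le (by norm_num) b)⟩, b, c⟩
    · rintro ⟨⟨a, -⟩, b, c⟩
      exact ⟨⟨a, mem_closedBall_zero_iff.2 ((UZ x c).trans (by norm_num))⟩, b, c⟩
  have nD : ∀ x ∈ W, ‖deriv Z x / Z x / cc‖ = 40 * ‖deriv U x‖ / (‖Z x‖ * ‖cc‖) := by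
    intro x hx
    rw [(Zd' x hx).deriv, div_div, norm_div, norm_mul, norm_mul]
    simp
  have dom : ∀ x ∈ W', 100 / 101 ≤ ‖Z x‖ → ‖Z x‖ ≤ 101 / 100 →
      ‖deriv Z x / Z x / cc‖ ^ 2 ≤ 10 ^ 18 * m x := by
    intro x hx a b
    have h1 := UZ x b
    have h2 : 1 / 10 ^ 6 ≤ qq (36 / 10000 - normSq (U x)) := by
      have : normSq (U x) ≤ 26 / 10000 := by
        rw [normSq_eq_norm_sq]; nlinarith [norm_nonneg (U x)]
      rw [qq_of_nonneg (by linarith)]; nlinarith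
    have h3 : 40 * ‖deriv U x‖ / (‖Z x‖ * ‖cc‖) ≤ 10 ^ 6 * ‖deriv U x‖ := by
      have := mul_le_mul a norm_cc.1 (by norm_num) (norm_nonneg _)
      rw [div_le_iff₀ (lt_of_lt_of_le (by norm_num) this)]
      nlinarith [norm_nonneg (deriv U x)]
    rw [nD x hx.1, hm, indicator_of_mem hx.1]
    have h4 := pow_le_pow_left₀ (by positivity) h3 2
    nlinarith [sq_nonneg ‖deriv U x‖]
  have dinv : ∀ x ∈ W', ‖deriv (fun x => (Z x)⁻¹) x / (Z x)⁻¹ / cc‖ = ‖deriv Z x / Z x / cc‖ := by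
    intro x hx
    have h0 : Z x ≠ 0 := hx.2
    rw [((Zd' x hx.1).fun_inv h0).deriv, (Zd' x hx.1).deriv, ← norm_neg]
    congr 1
    field_simp
  have ainv : ∀ x, 100 / 101 ≤ ‖(Z x)⁻¹‖ ∧ ‖(Z x)⁻¹‖ ≤ 101 / 100 ↔
      100 / 101 ≤ ‖Z x‖ ∧ ‖Z x‖ ≤ 101 / 100 := by
    intro x
    rcases (norm_nonneg (Z x)).eq_or_lt with h | h
    · rw [norm_inv, ← h]; norm_num
    · rw [norm_inv, le_inv_comm₀ (by norm_num) h, inv_le_comm₀ h (by norm_num), and_comm]
      norm_num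
  have d0 : 0 < 93 * dl := by unfold dl; norm_num
  have H1 : Hyp W' Z gf m σ (93 * dl) (10 ^ 18) :=
    ⟨oW, Zd.mono inter_subset_left, fun x hx => hx.2, hg.mono inter_subset_left,
      fun x hx => g0 x hx.1, cl, mc, m0, by norm_num, dom, σc, d0,
      fun x hx v hv e => av x hx.1 v hv (ZU x v e), sigA hσ, sigB hσ, sigO hσ,
      fun x hx v e h => (roof x hx.1 v (ZU x v e) h).trans (by linarith)⟩
  have hσ' : ∀ v ∈ Rib, |-σ (-v) - hv v| ≤ dl / 100 := by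
    intro v h
    have := hσ _ (neg_mem_rib h)
    rw [hv_neg, ← abs_neg] at this
    exact le_of_eq_of_le (by congr 1; ring) this
  have H2 : Hyp W' (fun x => (Z x)⁻¹) (fun x => (gf x)⁻¹) m (fun v => -σ (-v)) (93 * dl)
      (10 ^ 18) :=
    ⟨oW, H1.hZ.inv H1.Z0, fun x hx => inv_ne_zero hx.2, H1.hg.inv H1.g0,
      fun x hx => inv_ne_zero (g0 x hx.1), by simpa only [ainv] using cl, mc, m0, by norm_num,
      fun x hx a b => by
        rw [dinv x hx]; exact dom x hx ((ainv x).1 ⟨a, b⟩).1 ((ainv x).1 ⟨a, b⟩).2,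
      (σc.comp continuousOn_neg fun _ h => neg_mem_rib h).neg, d0,
      fun x hx v hv e => by
        rw [norm_inv, Real.log_inv, ne_eq, neg_inj]
        exact av x hx.1 _ (neg_mem_rib hv) (ZU' x v e),
      sigA hσ', sigB hσ', sigO hσ',
      fun x hx v e h => by
        have := floor x hx.1 _ (ZU' x v e) (by rwa [neg_neg])
        rw [norm_inv, Real.log_inv]; linarith⟩
  obtain ⟨φ₁, N₁, p₁, b₁⟩ := H1.half
  obtain ⟨φ₂, N₂, p₂, b₂⟩ := H2.half
  have small : ∀ x ∈ W, normSq (U x) ≤ 1 / 10 ^ 24 → ‖deriv U x‖ ^ 2 ≤ φ₁ x + φ₂ x := by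
    intro x hx h
    have u1 : ‖40 * U x‖ ≤ 4 / 10 ^ 11 := by
      rw [normSq_eq_norm_sq] at h
      have : ‖U x‖ ≤ 1 / 10 ^ 12 := by
        rw [← sq_le_sq₀ (norm_nonneg _) (by norm_num)]; exact h.trans (by norm_num)
      rw [norm_mul, Complex.norm_ofNat]; linarith
    have z1 : ‖Z x‖ ≤ 2 := (norm_add_le _ _).trans (by rw [norm_one]; linarith)
    have z0 : Z x ≠ 0 := by
      intro h0
      have : 40 * U x = -1 := eq_neg_of_add_eq_zero_right h0
      rw [this] at u1; norm_num at u1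
    have hx' : x ∈ W' := ⟨hx, z0⟩
    have e : Z x = ee (log (Z x) / cc) := by
      rw [ee, mul_div_cancel₀ _ cc_ne, exp_log z0]
    have nv : ‖log (Z x) / cc‖ ≤ 1 / 10000 := by
      have := norm_log_one_add_half_le_self (u1.trans (by norm_num))
      rw [norm_div, div_le_iff₀ (lt_of_lt_of_le (by norm_num) norm_cc.1)]
      linarith [norm_cc.1]
    generalize log (Z x) / cc = v at e nv
    have a1 := (abs_re_le_norm v).trans nv
    have a2 := (abs_im_le_norm v).trans nv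
    have hv : v ∈ Rib := by
      rw [abs_le] at a1 a2
      simp only [Rib, mem_ofPred_eq, abs_lt]
      refine ⟨⟨?_, ?_⟩, ?_, ?_⟩ <;> linarith [a1.1, a1.2, a2.1, a2.2]
    have h3 : ‖deriv U x‖ ≤ ‖deriv Z x / Z x / cc‖ := by
      rw [nD x hx, le_div_iff₀ (mul_pos (norm_pos_iff.2 z0) (norm_pos_iff.2 cc_ne))]
      have := mul_le_mul z1 norm_cc.2 (norm_nonneg _) (by norm_num)
      nlinarith [norm_nonneg (deriv U x)]
    refine (pow_le_pow_left₀ (norm_nonneg _) h3 2).trans ?_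
    rcases (av x hx v hv (ZU x v e)).lt_or_gt with h | h
    · have := b₂ x hx' (-v) (by rw [ee_neg, ← e]) (by simpa using a1) (by simpa using a2)
        (by rw [norm_inv, Real.log_inv, neg_neg]; linarith)
      rw [dinv x hx'] at this
      linarith [p₁ x]
    · linarith [p₂ x, b₁ x hx' v e a1 a2 h]
  have hψ : ContDiff ℝ 1 fun w : ℂ => conj (w - 0) * (kk (normSq (w - 0)) : ℂ) := by
    refine (conjCLE.contDiff.comp (contDiff_id.sub contDiff_const)).mul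
      (ofRealCLM.contDiff.comp (kk_contDiff.comp ?_))
    simp only [sub_zero, normSq_apply]
    exact (reCLM.contDiff.mul reCLM.contDiff).add (imCLM.contDiff.mul imCLM.contDiff)
  have N₀ := ad.closed mc m0 hψ (closure_minimal (fun u hu => by
      by_contra hc
      exact hu (by simp [kk, out u hc])) isClosed_closedBall) (C := 10 ^ 144) (fun x hx => by
      rw [hm, indicator_of_mem hx, ← mul_assoc, sub_zero, norm_mul, mul_pow, norm_conj,
        ← normSq_eq_norm_sq, norm_real, Real.norm_eq_abs, sq_abs]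
      exact mul_le_mul_of_nonneg_right (kk_sq (normSq_nonneg _)) (sq_nonneg _)) 1
  have N := (N₀.add ((N₁.add N₂).smul (c := 10 ^ 73) (by norm_num))).mono mc (fun x => by
    have p := add_nonneg (p₁ x) (p₂ x)
    by_cases hx : x ∈ W
    · rw [hm, indicator_of_mem hx, indicator_of_mem hx,
        db_radial (kk_contDiff.differentiable one_ne_zero), one_mul, ofReal_re, sub_zero]
      rcases le_total (1 / 10 ^ 24) (normSq (U x)) with h | h
      · nlinarith [mul_le_mul_of_nonneg_right (kk_big h) (sq_nonneg ‖deriv U x‖)]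
      · nlinarith [mul_le_mul_of_nonneg_right (kk_small (normSq_nonneg _) (h.trans (by norm_num)))
          (sq_nonneg ‖deriv U x‖), small x hx h]
    · rw [hm, indicator_of_notMem hx, indicator_of_notMem hx]; positivity)
  by_contra h0
  refine not_neg_self (x₀ := x₀) ?_ N
  rw [hm, indicator_of_mem hx₀]
  have : normSq (U x₀) < 36 / 10000 := by
    rw [normSq_eq_norm_sq]; nlinarith [norm_nonneg (U x₀)]
  rw [qq_of_nonneg (by linarith)]
  have := norm_pos_iff.2 h0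
  have : 0 < 36 / 10000 - normSq (U x₀) := by linarith
  positivity

end Pool.Agent.MP_2790d1_an

end
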