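import Mathlib
import Pool.Agent.MP_2790d1_an.Mg.NoCurve

-- part MP_2790d1_an.Ramp
section

/-! The strip, holomorphic ramps, the logistic cut-off, Noshiro-Warschawski. -/

open Complex Set

namespace Pool.Agent.MP_2790d1_an

/-- the strip `|im ξ| < π/2` -/
def Strip : Set ℂ := {ξ | |ξ.im| < Real.pi / 2}

/-- `tanh (ξ/2)` -/
noncomputable def tt (ξ : ℂ) : ℂ := (exp ξ - 1) / (exp ξ + 1)

/-- inverse of `tt` -/
noncomputable def xi (t : ℂ) : ℂ := log ((1 + t) / (1 - t))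

/-- holomorphic ramp: about `0` for `re ξ < a`, `ξ - a` for `a < re ξ < b`, `b - a` after -/
noncomputable def ramp (a b : ℝ) (ξ : ℂ) : ℂ :=
  8 * log ((1 + exp ((ξ - a) / 8)) / (1 + exp ((ξ - b) / 8)))

/-- derivative of the ramp -/
noncomputable def ramp' (a b : ℝ) (ξ : ℂ) : ℂ :=
  exp ((ξ - a) / 8) / (1 + exp ((ξ - a) / 8)) - exp ((ξ - b) / 8) / (1 + exp ((ξ - b) / 8))

/-- logistic cut-off -/
noncomputable def cut (a : ℝ) (ξ : ℂ) : ℂ := 1 / (1 + exp (a - ξ))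

theorem isOpen_strip : IsOpen Strip := isOpen_lt (by fun_prop) continuous_const
theorem convex_strip : Convex ℝ Strip := by
  have : Strip = {c : ℂ | -(Real.pi / 2) < c.im} ∩ {c : ℂ | c.im < Real.pi / 2} := by
    ext c; simp [Strip, abs_lt]
  rw [this]
  exact (convex_halfSpace_im_gt _).inter (convex_halfSpace_im_lt _)

lemma exp_re_pos {ξ : ℂ} (h : |ξ.im| < Real.pi / 2) : 0 < (exp ξ).re := by
  rw [exp_re]
  exact mul_pos (Real.exp_pos _) (Real.cos_pos_of_mem_Ioo (abs_lt.1 h))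

lemma norm_le_one_add {z : ℂ} (h : 0 ≤ z.re) : ‖z‖ ≤ ‖1 + z‖ := by
  refine le_of_sq_le_sq ?_ (norm_nonneg _)
  simp only [Complex.sq_norm, normSq_apply, add_re, add_im, one_re, one_im]
  nlinarith

lemma one_le_one_add {z : ℂ} (h : 0 ≤ z.re) : 1 ≤ ‖1 + z‖ :=
  le_trans (by simpa using h) (re_le_norm (1 + z))

lemma one_add_ne {z : ℂ} (h : 0 ≤ z.re) : 1 + z ≠ 0 := by
  intro h0
  have := one_le_one_add h
  rw [h0, norm_zero] at this
  linarith

lemma exp_add_ne {ξ : ℂ} (h : ξ ∈ Strip) : exp ξ + 1 ≠ 0 := by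
  rw [add_comm]; exact one_add_ne (exp_re_pos h).le

lemma one_sub_ne {t : ℂ} (h : ‖t‖ < 1) : 1 - t ≠ 0 := by
  intro h0
  rw [sub_eq_zero] at h0
  rw [← h0, norm_one] at h
  exact lt_irrefl _ h

lemma cayley_re_pos {t : ℂ} (h : ‖t‖ < 1) : 0 < ((1 + t) / (1 - t)).re := by
  have h1 : 0 < normSq (1 - t) := normSq_pos.2 (one_sub_ne h)
  have h2 : t.re * t.re + t.im * t.im < 1 := by
    rw [← normSq_apply, ← Complex.sq_norm]
    exact pow_lt_one₀ (norm_nonneg _) h two_ne_zero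
  rw [div_re, ← add_div]
  refine div_pos ?_ h1
  simp only [add_re, add_im, sub_re, sub_im, one_re, one_im]
  nlinarith

lemma ne_zero_of_re_pos {z : ℂ} (h : 0 < z.re) : z ≠ 0 := by
  rintro rfl
  simp at h

theorem tt_hasDerivAt {ξ : ℂ} (h : ξ ∈ Strip) : HasDerivAt tt ((1 - tt ξ ^ 2) / 2) ξ := by
  have h0 := exp_add_ne h
  have h1 := ((hasDerivAt_exp ξ).sub_const 1).div ((hasDerivAt_exp ξ).add_const 1) h0
  refine h1.congr_deriv ?_
  unfold tt
  field_simp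
  ring
theorem norm_tt_lt {ξ : ℂ} (h : ξ ∈ Strip) : ‖tt ξ‖ < 1 := by
  have h1 := exp_re_pos h
  rw [tt, norm_div, div_lt_one (norm_pos_iff.2 (exp_add_ne h))]
  refine lt_of_pow_lt_pow_left₀ 2 (norm_nonneg _) ?_
  simp only [Complex.sq_norm, normSq_apply, add_re, add_im, sub_re, sub_im, one_re, one_im]
  nlinarith
theorem norm_tt_sub_one {ξ : ℂ} (h : ξ ∈ Strip) : ‖tt ξ - 1‖ ≤ 2 * Real.exp (-ξ.re) := by
  have h0 := exp_add_ne h
  have h1 : tt ξ - 1 = -2 / (1 + exp ξ) := by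
    rw [add_comm 1, tt]; field_simp; ring
  have h2 := norm_le_one_add (exp_re_pos h).le
  rw [norm_exp] at h2
  rw [h1, norm_div, norm_neg, Real.exp_neg, ← div_eq_mul_inv, Complex.norm_two]
  exact div_le_div_of_nonneg_left (by norm_num) (Real.exp_pos _) h2
theorem xi_mem {t : ℂ} (h : ‖t‖ < 1) : xi t ∈ Strip := by
  change |(log _).im| < _
  rw [log_im]
  exact abs_arg_lt_pi_div_two_iff.2 (Or.inl (cayley_re_pos h))
theorem tt_xi {t : ℂ} (h : ‖t‖ < 1) : tt (xi t) = t := by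
  have h0 := one_sub_ne h
  rw [tt, xi, exp_log (ne_zero_of_re_pos (cayley_re_pos h))]
  have h1 : (1 + t) / (1 - t) + 1 = 2 / (1 - t) := by field_simp; ring
  have h2 : (1 + t) / (1 - t) - 1 = 2 * t / (1 - t) := by field_simp; ring
  rw [h1, h2]
  field_simp
theorem xi_tt {ξ : ℂ} (h : ξ ∈ Strip) : xi (tt ξ) = ξ := by
  have h0 := exp_add_ne h
  have h1 : 1 + tt ξ = 2 * exp ξ / (exp ξ + 1) := by rw [tt]; field_simp; ring
  have h2 : 1 - tt ξ = 2 / (exp ξ + 1) := by rw [tt]; field_simp; ring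
  have h3 : (1 + tt ξ) / (1 - tt ξ) = exp ξ := by rw [h1, h2]; field_simp
  have h4 := abs_lt.1 (show |ξ.im| < Real.pi / 2 from h)
  have := Real.pi_pos
  rw [xi, h3, log_exp (by linarith) (by linarith)]
theorem xi_hasDerivAt {t : ℂ} (h : ‖t‖ < 1) : HasDerivAt xi (2 / (1 - t ^ 2)) t := by
  have h0 := one_sub_ne h
  have h0' : 1 + t ≠ 0 := by simpa using one_sub_ne (t := -t) (by simpa using h)
  have h1 := (((hasDerivAt_id t).const_add 1).div ((hasDerivAt_id t).const_sub 1) h0).clog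
    (Or.inl (cayley_re_pos h))
  refine h1.congr_deriv ?_
  have h2 : 1 - t ^ 2 = (1 + t) * (1 - t) := by ring
  simp only [h2, id, Pi.div_apply]
  field_simp
  ring
theorem xi_re_le {t : ℂ} (h : ‖t‖ ≤ 999 / 1000) : (xi t).re ≤ 2000 := by
  have h1 : ‖t‖ < 1 := by linarith
  have h2 : 0 < ‖(1 + t) / (1 - t)‖ := norm_pos_iff.2 (ne_zero_of_re_pos (cayley_re_pos h1))
  have h3 := norm_add_le 1 t
  have h4 := norm_sub_norm_le 1 t
  rw [norm_one] at h3 h4
  rw [xi, log_re]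
  refine (Real.log_le_sub_one_of_pos h2).trans ?_
  rw [norm_div, sub_le_iff_le_add, div_le_iff₀ (by linarith)]
  linarith

/-- polar form of the two exponentials in the ramp -/
lemma polar {ξ : ℂ} (h : ξ ∈ Strip) : ∃ c s : ℝ, 49 / 50 ≤ c ∧ |s| ≤ 1 / 5 ∧ c ^ 2 + s ^ 2 = 1 ∧
    ∀ a : ℝ, exp ((ξ - a) / 8) = ⟨Real.exp ((ξ.re - a) / 8) * c, Real.exp ((ξ.re - a) / 8) * s⟩ := by
  have h1 : |ξ.im / 8| ≤ 1 / 5 := by
    have h2 : |ξ.im| < Real.pi / 2 := h
    have := Real.pi_lt_d2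
    rw [abs_div, abs_of_pos (by norm_num : (0 : ℝ) < 8)]
    linarith
  refine ⟨Real.cos (ξ.im / 8), Real.sin (ξ.im / 8), ?_, Real.abs_sin_le_abs.trans h1,
    Real.cos_sq_add_sin_sq _, fun a => ?_⟩
  · refine le_trans ?_ Real.one_sub_sq_div_two_le_cos
    have h2 := abs_le.1 h1
    nlinarith
  · apply Complex.ext
    · simp [exp_re]
    · simp [exp_im]

lemma exp8_re_pos {ξ : ℂ} (h : ξ ∈ Strip) (a : ℝ) : 0 < (exp ((ξ - a) / 8)).re := by
  obtain ⟨c, s, hc, -, -, he⟩ := polar h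
  rw [he]
  exact mul_pos (Real.exp_pos _) (by linarith)

lemma quot_re_pos {ξ : ℂ} (h : ξ ∈ Strip) (a b : ℝ) :
    0 < ((1 + exp ((ξ - a) / 8)) / (1 + exp ((ξ - b) / 8))).re := by
  have h1 : 0 < normSq (1 + exp ((ξ - b) / 8)) := normSq_pos.2 (one_add_ne (exp8_re_pos h b).le)
  rw [div_re, ← add_div]
  refine div_pos ?_ h1
  obtain ⟨c, s, hc, -, -, he⟩ := polar h
  have hA := Real.exp_pos ((ξ.re - a) / 8)
  have hB := Real.exp_pos ((ξ.re - b) / 8)
  have hc0 : 0 < c := by linarith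
  simp only [he, add_re, add_im, one_re, one_im, zero_add]
  have : Real.exp ((ξ.re - a) / 8) * s * (Real.exp ((ξ.re - b) / 8) * s) =
    Real.exp ((ξ.re - a) / 8) * Real.exp ((ξ.re - b) / 8) * s ^ 2 := by ring
  rw [this]
  positivity

theorem ramp_hasDerivAt (a b : ℝ) {ξ : ℂ} (h : ξ ∈ Strip) :
    HasDerivAt (ramp a b) (ramp' a b ξ) ξ := by
  have hd : ∀ c : ℝ, HasDerivAt (fun z : ℂ => 1 + exp ((z - c) / 8))
      (exp ((ξ - c) / 8) * (1 / 8)) ξ := fun c =>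
    ((((hasDerivAt_id ξ).sub_const (c : ℂ)).div_const 8).cexp).const_add 1
  have ha := one_add_ne (exp8_re_pos h a).le
  have hb := one_add_ne (exp8_re_pos h b).le
  have h1 := (((hd a).div (hd b) hb).clog (Or.inl (quot_re_pos h a b))).const_mul 8
  refine h1.congr_deriv ?_
  simp only [ramp', Pi.div_apply]
  field_simp

/-- the derivative of the ramp as a quotient `(A - B) / N` -/
lemma ramp'_form (a b : ℝ) {ξ : ℂ} (h : ξ ∈ Strip) {A B : ℝ} (hA : A = Real.exp ((ξ.re - a) / 8))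
    (hB : B = Real.exp ((ξ.re - b) / 8)) : ∃ (N : ℂ) (c s : ℝ), 49 / 50 ≤ c ∧ |s| ≤ 1 / 5 ∧
    c ^ 2 + s ^ 2 = 1 ∧ N.re = (1 + A * B) * c + A + B ∧ N.im = (A * B - 1) * s ∧
    ramp' a b ξ = ((A - B : ℝ) : ℂ) / N := by
  obtain ⟨c, s, hc, hs, hcs, he⟩ := polar h
  refine ⟨⟨(1 + A * B) * c + A + B, (A * B - 1) * s⟩, c, s, hc, hs, hcs, rfl, rfl, ?_⟩
  have ha := one_add_ne (exp8_re_pos h a).le
  have hb := one_add_ne (exp8_re_pos h b).le
  have hA0 : 0 < A := hA ▸ Real.exp_pos _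
  have hB0 : 0 < B := hB ▸ Real.exp_pos _
  have hc0 : 0 < c := by linarith
  have hN : (⟨(1 + A * B) * c + A + B, (A * B - 1) * s⟩ : ℂ) ≠ 0 :=
    ne_zero_of_re_pos (by positivity)
  rw [ramp', div_sub_div _ _ ha hb, div_eq_div_iff (mul_ne_zero ha hb) hN, he, he, ← hA, ← hB]
  apply Complex.ext
  · simp only [mul_re, mul_im, add_re, add_im, sub_re, sub_im, one_re, one_im, ofReal_re,
      ofReal_im]
    linear_combination (A - B) * hcs
  · simp only [mul_re, mul_im, add_re, add_im, sub_re, sub_im, one_re, one_im, ofReal_re,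
      ofReal_im]
    ring

lemma ramp'_re_ge {a b : ℝ} {ξ : ℂ} (hab : a ≤ b) (h : ξ ∈ Strip) {A B : ℝ}
    (hA : A = Real.exp ((ξ.re - a) / 8)) (hB : B = Real.exp ((ξ.re - b) / 8)) :
    49 / 50 * (A - B) / ((1 + A) * (1 + B)) ≤ (ramp' a b ξ).re := by
  obtain ⟨N, c, s, hc, hs, hcs, h1, h2, h3⟩ := ramp'_form a b h hA hB
  have hA0 : 0 < A := hA ▸ Real.exp_pos _
  have hB0 : 0 < B := hB ▸ Real.exp_pos _
  have hBA : B ≤ A := by rw [hA, hB]; exact Real.exp_le_exp.2 (by linarith)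
  have hc1 : c ≤ 1 := by nlinarith
  have hAB := mul_pos hA0 hB0
  have hN : 0 < normSq N := normSq_pos.2 (ne_zero_of_re_pos (by rw [h1]; positivity))
  have h4 : normSq N ≤ ((1 + A) * (1 + B)) ^ 2 := by
    rw [normSq_apply, h1, h2]
    have e1 : (1 + A * B) * (A + B) * c ≤ (1 + A * B) * (A + B) :=
      mul_le_of_le_one_right (by positivity) hc1
    have e2 : 0 ≤ A * B * s ^ 2 := by positivity
    have e3 : (1 + A * B) ^ 2 * (c ^ 2 + s ^ 2) = (1 + A * B) ^ 2 := by rw [hcs, mul_one]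
    nlinarith
  have h5 : 49 / 50 * ((1 + A) * (1 + B)) ≤ N.re := by rw [h1]; nlinarith
  have hP : 0 < (1 + A) * (1 + B) := by positivity
  rw [h3, div_re, ofReal_re, ofReal_im, zero_mul, zero_div, add_zero,
    div_le_div_iff₀ hP hN]
  have h6 : 49 / 50 * normSq N ≤ N.re * ((1 + A) * (1 + B)) := by
    nlinarith [mul_le_mul_of_nonneg_right h5 hP.le]
  nlinarith [mul_le_mul_of_nonneg_left h6 (sub_nonneg.2 hBA)]

lemma exp_shift {a b x : ℝ} (hab : a + 8 ≤ b) :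
    2 * Real.exp ((x - b) / 8) ≤ Real.exp ((x - a) / 8) := by
  have h1 := Real.add_one_le_exp 1
  have h2 : Real.exp 1 * Real.exp ((x - b) / 8) ≤ Real.exp ((x - a) / 8) := by
    rw [← Real.exp_add]; exact Real.exp_le_exp.2 (by linarith)
  nlinarith [Real.exp_pos ((x - b) / 8)]

/-- mean value inequality along the vertical segment -/
lemma vert {f f' : ℂ → ℂ} (hf : ∀ z ∈ Strip, HasDerivAt f (f' z) z) {ξ : ℂ} (h : ξ ∈ Strip)
    {M : ℝ} (hM : ∀ z ∈ Strip, z.re = ξ.re → ‖f' z‖ ≤ M) :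
    ‖f ξ - f ξ.re‖ ≤ M * (Real.pi / 2) := by
  have hs : Convex ℝ (Strip ∩ ({z : ℂ | z.re ≤ ξ.re} ∩ {z : ℂ | ξ.re ≤ z.re})) :=
    convex_strip.inter ((convex_halfSpace_re_le _).inter (convex_halfSpace_re_ge _))
  have h0 : (ξ.re : ℂ) ∈ Strip := by
    have := Real.pi_pos
    simpa [Strip] using this
  have h1 := hs.norm_image_sub_le_of_norm_hasDerivWithin_le (f := f) (f' := f') (C := M)
    (fun z hz => (hf z hz.1).hasDerivWithinAt) (fun z hz => hM z hz.1 (le_antisymm hz.2.1 hz.2.2))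
    (x := ξ.re) (y := ξ) ⟨h0, by simp, by simp⟩ ⟨h, by simp, by simp⟩
  refine h1.trans (mul_le_mul_of_nonneg_left ?_ ((norm_nonneg _).trans (hM ξ h rfl)))
  have h2 : ξ - ξ.re = ξ.im * I := by apply Complex.ext <;> simp
  rw [h2, norm_mul, norm_I, mul_one, norm_real]
  exact le_of_lt h

lemma ramp_real (a b x : ℝ) : ramp a b x = ((8 * Real.log ((1 + Real.exp ((x - a) / 8)) /
    (1 + Real.exp ((x - b) / 8))) : ℝ) : ℂ) := by
  rw [ofReal_mul, ofReal_log (by positivity), ramp]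
  push_cast
  rfl

lemma ramp_re_eq (a b : ℝ) (ξ : ℂ) : (ramp a b ξ).re =
    8 * Real.log (‖1 + exp ((ξ - a) / 8)‖ / ‖1 + exp ((ξ - b) / 8)‖) := by
  simp [ramp, log_re]

lemma log_one_add {u : ℝ} (h : 0 ≤ u) : 0 ≤ Real.log (1 + u) ∧ Real.log (1 + u) ≤ u :=
  ⟨Real.log_nonneg (by linarith),
    (Real.log_le_sub_one_of_pos (by linarith)).trans (by linarith)⟩

lemma log_one_add_exp (u : ℝ) : Real.log (1 + Real.exp u) = u + Real.log (1 + Real.exp (-u)) := by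
  have : 1 + Real.exp u = Real.exp u * (1 + Real.exp (-u)) := by
    rw [mul_add, ← Real.exp_add]; simp [add_comm]
  rw [this, Real.log_mul (by positivity) (by positivity), Real.log_exp]

section
variable {a b : ℝ} {ξ : ℂ}

theorem ramp'_cone (hab : a ≤ b) (h : ξ ∈ Strip) : 4 * |(ramp' a b ξ).im| ≤ (ramp' a b ξ).re := by
  obtain ⟨N, c, s, hc, hs, -, h1, h2, h3⟩ := ramp'_form a b h rfl rfl
  have hBA : Real.exp ((ξ.re - b) / 8) ≤ Real.exp ((ξ.re - a) / 8) :=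
    Real.exp_le_exp.2 (by linarith)
  have hA0 := Real.exp_pos ((ξ.re - a) / 8)
  have hB0 := Real.exp_pos ((ξ.re - b) / 8)
  set A := Real.exp ((ξ.re - a) / 8)
  set B := Real.exp ((ξ.re - b) / 8)
  have hAB := mul_pos hA0 hB0
  have h4 : 4 * |N.im| ≤ N.re := by
    rw [h1, h2, abs_mul]
    have h5 : |A * B - 1| ≤ 1 + A * B := abs_le.2 ⟨by linarith, by linarith⟩
    have h6 : |A * B - 1| * |s| ≤ (1 + A * B) * (1 / 5) := by gcongr
    nlinarith
  rw [h3, div_re, div_im, ofReal_re, ofReal_im, zero_mul, zero_mul, zero_div, add_zero, zero_sub,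
    abs_neg, abs_div, abs_mul, abs_of_nonneg (sub_nonneg.2 hBA), abs_of_nonneg (normSq_nonneg N),
    ← mul_div_assoc]
  refine div_le_div_of_nonneg_right ?_ (normSq_nonneg N)
  nlinarith [mul_le_mul_of_nonneg_left h4 (sub_nonneg.2 hBA)]
theorem norm_ramp'_le_one (hab : a ≤ b) (h : ξ ∈ Strip) : ‖ramp' a b ξ‖ ≤ 1 := by
  obtain ⟨N, c, s, hc, -, -, h1, -, h3⟩ := ramp'_form a b h rfl rfl
  have hBA : Real.exp ((ξ.re - b) / 8) ≤ Real.exp ((ξ.re - a) / 8) :=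
    Real.exp_le_exp.2 (by linarith)
  have hA0 := Real.exp_pos ((ξ.re - a) / 8)
  have hB0 := Real.exp_pos ((ξ.re - b) / 8)
  have h4 := re_le_norm N
  rw [h3, norm_div, norm_real, Real.norm_of_nonneg (sub_nonneg.2 hBA)]
  refine div_le_one_of_le₀ ?_ (norm_nonneg _)
  nlinarith [mul_pos hA0 hB0]
theorem norm_ramp'_le (hab : a ≤ b) (h : ξ ∈ Strip) :
    ‖ramp' a b ξ‖ ≤ 2 * Real.exp ((ξ.re - a) / 8) := by
  obtain ⟨N, c, s, hc, -, -, h1, -, h3⟩ := ramp'_form a b h rfl rfl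
  have hBA : Real.exp ((ξ.re - b) / 8) ≤ Real.exp ((ξ.re - a) / 8) :=
    Real.exp_le_exp.2 (by linarith)
  have hA0 := Real.exp_pos ((ξ.re - a) / 8)
  have hB0 := Real.exp_pos ((ξ.re - b) / 8)
  have h4 := re_le_norm N
  have h5 : 1 / 2 ≤ ‖N‖ := by nlinarith [mul_pos hA0 hB0]
  rw [h3, norm_div, norm_real, Real.norm_of_nonneg (sub_nonneg.2 hBA), div_le_iff₀ (by linarith)]
  nlinarith
/-- lower bound before the end of the ramp -/
theorem ramp'_re_ge_left (hab : a + 8 ≤ b) (h : ξ ∈ Strip) (hx : ξ.re ≤ b) :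
    Real.exp ((ξ.re - b) / 8) / 10 ≤ (ramp' a b ξ).re := by
  refine le_trans ?_ (ramp'_re_ge (by linarith) h rfl rfl)
  have h1 := exp_shift (x := ξ.re) hab
  have hB0 := Real.exp_pos ((ξ.re - b) / 8)
  have hB1 : Real.exp ((ξ.re - b) / 8) ≤ 1 := Real.exp_le_one_iff.2 (by linarith)
  set A := Real.exp ((ξ.re - a) / 8)
  set B := Real.exp ((ξ.re - b) / 8)
  have hA0 : 0 < A := by linarith
  rw [div_le_div_iff₀ (by norm_num) (by positivity)]
  have h2 : B * (1 + A) ≤ B + A := by nlinarith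
  have h3 : B * (1 + A) * (1 + B) ≤ (B + A) * 2 := by gcongr; linarith
  nlinarith
/-- lower bound after the start of the ramp -/
theorem ramp'_re_ge_right (ha : 0 ≤ a) (hab : a + 8 ≤ b) (h : ξ ∈ Strip) (hx : a ≤ ξ.re) :
    Real.exp (-ξ.re / 8) / 10 ≤ (ramp' a b ξ).re := by
  refine le_trans ?_ (ramp'_re_ge (by linarith) h rfl rfl)
  have h1 := exp_shift (x := ξ.re) hab
  have hB0 := Real.exp_pos ((ξ.re - b) / 8)
  have hA1 : 1 ≤ Real.exp ((ξ.re - a) / 8) := Real.one_le_exp (by linarith)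
  have hY0 := Real.exp_pos (-ξ.re / 8)
  have hY : Real.exp (-ξ.re / 8) * Real.exp ((ξ.re - a) / 8) ≤ 1 := by
    rw [← Real.exp_add]; exact Real.exp_le_one_iff.2 (by linarith)
  set A := Real.exp ((ξ.re - a) / 8)
  set B := Real.exp ((ξ.re - b) / 8)
  set Y := Real.exp (-ξ.re / 8)
  rw [div_le_div_iff₀ (by norm_num) (by positivity)]
  have h2 : Y * (1 + B) ≤ 3 / 2 := by nlinarith
  have h3 : Y * (1 + B) * (1 + A) ≤ 3 / 2 * (2 * A) := by gcongr; linarith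
  nlinarith
theorem ramp_re_nonneg (hab : a ≤ b) (h : ξ ∈ Strip) : 0 ≤ (ramp a b ξ).re := by
  have hb := norm_pos_iff.2 (one_add_ne (exp8_re_pos h b).le)
  rw [ramp_re_eq]
  refine mul_nonneg (by norm_num) (Real.log_nonneg ?_)
  rw [one_le_div hb]
  refine le_of_sq_le_sq ?_ (norm_nonneg _)
  obtain ⟨c, s, hc, -, -, he⟩ := polar h
  have hBA : Real.exp ((ξ.re - b) / 8) ≤ Real.exp ((ξ.re - a) / 8) :=
    Real.exp_le_exp.2 (by linarith)
  have hB0 := Real.exp_pos ((ξ.re - b) / 8)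
  simp only [he, Complex.sq_norm, normSq_apply, add_re, add_im, one_re, one_im, zero_add]
  set A := Real.exp ((ξ.re - a) / 8)
  set B := Real.exp ((ξ.re - b) / 8)
  have h1 : B * c ≤ A * c := by gcongr
  have h2 : 0 ≤ B * c := by positivity
  have h3 : B ^ 2 * s ^ 2 ≤ A ^ 2 * s ^ 2 := by gcongr
  nlinarith
theorem ramp_re_le (hab : a ≤ b) (h : ξ ∈ Strip) : (ramp a b ξ).re ≤ b - a := by
  have ha := norm_pos_iff.2 (one_add_ne (exp8_re_pos h a).le)
  have hb := norm_pos_iff.2 (one_add_ne (exp8_re_pos h b).le)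
  have hA0 := Real.exp_pos ((ξ.re - a) / 8)
  have hB0 := Real.exp_pos ((ξ.re - b) / 8)
  have h0 : ‖1 + exp ((ξ - a) / 8)‖ / ‖1 + exp ((ξ - b) / 8)‖ ≤ Real.exp ((b - a) / 8) := by
    rw [show (b - a) / 8 = (ξ.re - a) / 8 - (ξ.re - b) / 8 by ring, Real.exp_sub,
      div_le_div_iff₀ hb hB0]
    refine le_of_sq_le_sq ?_ (by positivity)
    obtain ⟨c, s, hc, -, hcs, he⟩ := polar h
    have hBA : Real.exp ((ξ.re - b) / 8) ≤ Real.exp ((ξ.re - a) / 8) :=
      Real.exp_le_exp.2 (by linarith)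
    simp only [mul_pow, he, Complex.sq_norm, normSq_apply, add_re, add_im, one_re, one_im,
      zero_add]
    set A := Real.exp ((ξ.re - a) / 8)
    set B := Real.exp ((ξ.re - b) / 8)
    have h1 : A * B * c * B ≤ A * B * c * A := by gcongr
    have h2 : B ^ 2 ≤ A ^ 2 := by gcongr
    nlinarith
  have h1 := Real.log_le_log (div_pos ha hb) h0
  rw [Real.log_exp] at h1
  rw [ramp_re_eq]
  linarith
theorem abs_ramp_im_le (hab : a ≤ b) (h : ξ ∈ Strip) : |(ramp a b ξ).im| ≤ Real.pi / 2 := by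
  have h1 := vert (fun z hz => ramp_hasDerivAt a b hz) h fun z hz _ => norm_ramp'_le_one hab hz
  have h2 := abs_im_le_norm (ramp a b ξ - ramp a b ξ.re)
  rw [ramp_real, sub_im, ofReal_im, sub_zero, ← ramp_real] at h2
  linarith
theorem norm_ramp_le_exp (hab : a ≤ b) (h : ξ ∈ Strip) :
    ‖ramp a b ξ‖ ≤ 12 * Real.exp ((ξ.re - a) / 8) := by
  have h1 := vert (fun z hz => ramp_hasDerivAt a b hz) h (M := 2 * Real.exp ((ξ.re - a) / 8))
    fun z hz hr => hr ▸ norm_ramp'_le hab hz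
  have hA0 := Real.exp_pos ((ξ.re - a) / 8)
  have hB0 := Real.exp_pos ((ξ.re - b) / 8)
  have hBA : Real.exp ((ξ.re - b) / 8) ≤ Real.exp ((ξ.re - a) / 8) :=
    Real.exp_le_exp.2 (by linarith)
  have h2 : ‖ramp a b ξ.re‖ ≤ 8 * Real.exp ((ξ.re - a) / 8) := by
    rw [ramp_real, norm_real, Real.log_div (by positivity) (by positivity), Real.norm_eq_abs]
    have l1 := log_one_add hA0.le
    have l2 := log_one_add hB0.le
    exact abs_le.2 ⟨by linarith, by linarith⟩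
  have h3 := norm_le_insert' (ramp a b ξ) (ramp a b ξ.re)
  have := Real.pi_lt_four
  nlinarith
theorem norm_ramp_sub_le (hab : a ≤ b) (h : ξ ∈ Strip) (hx : b ≤ ξ.re) :
    ‖ramp a b ξ - (b - a : ℝ)‖ ≤ 8 := by
  have h1 := vert (fun z hz => ramp_hasDerivAt a b hz) h fun z hz _ => norm_ramp'_le_one hab hz
  have h2 : ‖ramp a b ξ.re - (b - a : ℝ)‖ ≤ 6 := by
    rw [ramp_real, ← ofReal_sub, norm_real, Real.log_div (by positivity) (by positivity),
      Real.norm_eq_abs, log_one_add_exp, log_one_add_exp ((ξ.re - b) / 8)]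
    have l0 := Real.log_two_lt_d9
    have l1 : ∀ u : ℝ, 0 ≤ u → 0 ≤ Real.log (1 + Real.exp (-u)) ∧
        Real.log (1 + Real.exp (-u)) ≤ Real.log 2 := fun u hu =>
      ⟨(log_one_add (Real.exp_pos _).le).1, Real.log_le_log (by positivity) (by
        have := Real.exp_le_one_iff.2 (neg_nonpos.2 hu); linarith)⟩
    have l2 := l1 ((ξ.re - a) / 8) (by linarith)
    have l3 := l1 ((ξ.re - b) / 8) (by linarith)
    exact abs_le.2 ⟨by linarith, by linarith⟩
  have h3 := norm_sub_le_norm_sub_add_norm_sub (ramp a b ξ) (ramp a b ξ.re) (b - a : ℝ)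
  have := Real.pi_lt_four
  linarith

lemma norm_ramp'_sub_one (h : ξ ∈ Strip) (ha : a ≤ ξ.re) :
    ‖ramp' a b ξ - 1‖ ≤ Real.exp ((a - ξ.re) / 8) + 3 * Real.exp ((ξ.re - b) / 8) := by
  have h1 := one_add_ne (exp8_re_pos h a).le
  have e : ramp' a b ξ - 1 = -(1 / (1 + exp ((ξ - a) / 8))) -
      exp ((ξ - b) / 8) / (1 + exp ((ξ - b) / 8)) := by
    rw [ramp']; field_simp; ring
  have n1 := norm_le_one_add (exp8_re_pos h a).le
  have n2 := one_le_one_add (exp8_re_pos h b).le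
  have hn : ∀ c : ℝ, ‖exp ((ξ - c) / 8)‖ = Real.exp ((ξ.re - c) / 8) := fun c => by
    simp [norm_exp]
  rw [hn] at n1
  rw [e]
  refine (norm_sub_le _ _).trans (add_le_add ?_ ?_)
  · rw [norm_neg, norm_div, norm_one, show (a - ξ.re) / 8 = -((ξ.re - a) / 8) by ring,
      Real.exp_neg, ← one_div]
    exact one_div_le_one_div_of_le (Real.exp_pos _) n1
  · rw [norm_div, hn]
    have := Real.exp_pos ((ξ.re - b) / 8)
    exact (div_le_self this.le n2).trans (by linarith)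
theorem norm_ramp_sub_lin (h : ξ ∈ Strip) (ha : a ≤ ξ.re) (hb : ξ.re ≤ b) :
    ‖ramp a b ξ - (ξ - a)‖
      ≤ 14 * (Real.exp ((a - ξ.re) / 8) + Real.exp ((ξ.re - b) / 8)) := by
  have h1 := vert (f := fun z => ramp a b z - (z - a)) (f' := fun z => ramp' a b z - 1)
    (fun z hz => (ramp_hasDerivAt a b hz).sub ((hasDerivAt_id z).sub_const (a : ℂ))) h
    (M := Real.exp ((a - ξ.re) / 8) + 3 * Real.exp ((ξ.re - b) / 8))
    fun z hz hr => hr ▸ norm_ramp'_sub_one hz (hr ▸ ha)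
  have hA0 := Real.exp_pos ((a - ξ.re) / 8)
  have hB0 := Real.exp_pos ((ξ.re - b) / 8)
  have h2 : ‖ramp a b ξ.re - ((ξ.re : ℂ) - a)‖ ≤
      8 * (Real.exp ((a - ξ.re) / 8) + Real.exp ((ξ.re - b) / 8)) := by
    rw [ramp_real, ← ofReal_sub, ← ofReal_sub, norm_real,
      Real.log_div (by positivity) (by positivity), Real.norm_eq_abs, log_one_add_exp,
      show -((ξ.re - a) / 8) = (a - ξ.re) / 8 by ring]
    have l1 := log_one_add hA0.le
    have l2 := log_one_add hB0.le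
    exact abs_le.2 ⟨by linarith, by linarith⟩
  have h3 := norm_le_insert' (ramp a b ξ - (ξ - a)) (ramp a b ξ.re - ((ξ.re : ℂ) - a))
  have := Real.pi_lt_four
  nlinarith

lemma cut_re_pos (h : ξ ∈ Strip) : 0 < (exp (a - ξ)).re :=
  exp_re_pos (by simpa [Strip] using h)

theorem cut_differentiableAt (h : ξ ∈ Strip) : DifferentiableAt ℂ (cut a) ξ :=
  (differentiableAt_const _).div (by fun_prop) (one_add_ne (cut_re_pos h).le)
theorem norm_cut_le (h : ξ ∈ Strip) : ‖cut a ξ‖ ≤ Real.exp (ξ.re - a) := by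
  have h1 := norm_le_one_add (cut_re_pos (a := a) h).le
  rw [norm_exp, sub_re, ofReal_re] at h1
  rw [cut, norm_div, norm_one, ← neg_sub a ξ.re, Real.exp_neg, ← one_div]
  exact one_div_le_one_div_of_le (Real.exp_pos _) h1
theorem norm_cut_sub_one_le (h : ξ ∈ Strip) : ‖cut a ξ - 1‖ ≤ Real.exp (a - ξ.re) := by
  have h0 := one_add_ne (cut_re_pos (a := a) h).le
  have e : cut a ξ - 1 = -exp (a - ξ) / (1 + exp (a - ξ)) := by rw [cut]; field_simp; ring
  rw [e, norm_div, norm_neg, norm_exp, sub_re, ofReal_re]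
  exact div_le_self (Real.exp_pos _).le (one_le_one_add (cut_re_pos h).le)
end

/-- Noshiro-Warschawski -/
theorem injOn_of_re_pos {U : Set ℂ} (hU : Convex ℝ U) {f f' : ℂ → ℂ} {c : ℂ}
    (hf : ∀ z ∈ U, HasDerivAt f (f' z) z) (hc : ∀ z ∈ U, 0 < (c * f' z).re) : InjOn f U := by
  intro z hz w hw hzw
  by_contra hne
  have hne' : w - z ≠ 0 := sub_ne_zero.2 (Ne.symm hne)
  have hd : ∀ s ∈ Icc (0 : ℝ) 1, HasDerivAt (fun s : ℝ => (c * f (z + s * (w - z)) / (w - z)).re)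
      (c * f' (z + s * (w - z))).re s := by
    intro s hs
    have hm : z + s * (w - z) ∈ U := hU.add_smul_sub_mem hz hw hs
    have h1 : HasDerivAt (fun u : ℂ => z + u * (w - z)) (1 * (w - z)) s :=
      ((hasDerivAt_id (s : ℂ)).mul_const _).const_add _
    have h2 := ((((hf _ hm).comp (s : ℂ) h1).const_mul c).div_const (w - z)).real_of_complex
    refine h2.congr_deriv ?_
    congr 1
    field_simp
  obtain ⟨s, hs, h0⟩ := exists_hasDerivAt_eq_zero one_pos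
    (fun s hs => (hd s hs).continuousAt.continuousWithinAt) (by simp [hzw])
    (fun s hs => hd s (Ioo_subset_Icc_self hs))
  exact (hc _ (hU.add_smul_sub_mem hz hw (Ioo_subset_Icc_self hs))).ne' h0

/-- solving `f z = y` for a map close to an affine map -/
theorem exists_eq_of_near {U : Set ℂ} (hU : IsOpen U) {f : ℂ → ℂ} (hf : DifferentiableOn ℂ f U)
    {A B z₀ : ℂ} {r e : ℝ} (hr : 0 < r) (hsub : Metric.closedBall z₀ r ⊆ U)
    (he : ∀ z ∈ Metric.closedBall z₀ r, ‖f z - (A * z + B)‖ ≤ e) (hA : 5 * e < ‖A‖ * r) :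
    ∃ z ∈ Metric.closedBall z₀ r, f z = A * z₀ + B := by
  have h0 := he z₀ (Metric.mem_closedBall_self hr.le)
  have he0 : 0 ≤ e := (norm_nonneg _).trans h0
  have hd : DiffContOnCl ℂ f (Metric.ball z₀ r) := by
    refine DifferentiableOn.diffContOnCl ?_
    rw [closure_ball _ hr.ne']
    exact hf.mono hsub
  have hs : ∀ z ∈ Metric.sphere z₀ r, ‖A‖ * r - 2 * e ≤ ‖f z - f z₀‖ := by
    intro z hz
    have h1 := he z (Metric.sphere_subset_closedBall hz)
    have h2 : ‖A * (z - z₀)‖ = ‖A‖ * r := by rw [norm_mul, mem_sphere_iff_norm.1 hz]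
    have h3 : A * (z - z₀) = f z - f z₀ - (f z - (A * z + B)) + (f z₀ - (A * z₀ + B)) := by ring
    have h4 := norm_add_le (f z - f z₀ - (f z - (A * z + B))) (f z₀ - (A * z₀ + B))
    have h5 := norm_sub_le (f z - f z₀) (f z - (A * z + B))
    rw [← h3, h2] at h4
    linarith
  have hfr : ∃ᶠ z in nhds z₀, f z ≠ f z₀ := by
    intro hev
    have h1 : EqOn f (fun _ => f z₀) (Metric.ball z₀ r) :=
      (hd.differentiableOn.analyticOnNhd Metric.isOpen_ball).eqOn_of_preconnected_of_eventuallyEq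
        analyticOnNhd_const (convex_ball z₀ r).isPreconnected (Metric.mem_ball_self hr)
        (hev.mono fun z hz => not_not.1 hz)
    have h2 := h1.of_subset_closure hd.continuousOn continuousOn_const subset_closure subset_rfl
    have h3 : z₀ + r ∈ Metric.sphere z₀ r := by simp [abs_of_pos hr]
    have h4 := hs _ h3
    rw [closure_ball _ hr.ne'] at h2
    rw [h2 (Metric.sphere_subset_closedBall h3), sub_self, norm_zero] at h4
    linarith
  refine hd.ball_subset_image_closedBall hr hs hfr ?_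
  rw [mem_ball_iff_norm, norm_sub_rev]
  linarith

end Pool.Agent.MP_2790d1_an

end

-- part MP_2790d1_an.Finger
section

/-! The immersed strip: definitions and first estimates. -/

open Complex Set

namespace Pool.Agent.MP_2790d1_an

noncomputable def LL : ℝ := 10 ^ 25
noncomputable def A0 : ℝ := 1006 / 10 ^ 8 / (Real.pi * (1 + 1 / 10 ^ 10))
noncomputable def AA : ℂ := A0 * (1 + I / 10 ^ 5)
noncomputable def L3 : ℝ := 2002 / 1000 / A0
noncomputable def vs : ℂ := -(1001 / 1000) * (1 + I / 10 ^ 5)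
noncomputable def QQ : ℝ := Real.log 62 / (2 * Real.pi)
noncomputable def ct : ℂ := 12 / 13 * I - 1 / 40
noncomputable def wf : ℂ := 62 / 40 * exp (2 * Real.pi * I * vs)
noncomputable def dd : ℂ := ct + wf - 1
noncomputable def nu : ℝ := 13 / 12 * (Real.log (3 / 2) + dl)
noncomputable def r0 : ℂ → ℂ := ramp LL (2 * LL)
noncomputable def r1 : ℂ → ℂ := ramp (4 * LL) (5 * LL)
noncomputable def r2 : ℂ → ℂ := ramp (6 * LL) (6 * LL + L3)
noncomputable def ww (ξ : ℂ) : ℂ := tt ξ + dd / LL * r0 ξ - ct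
noncomputable def psi (ξ : ℂ) : ℂ := I * (QQ / LL : ℝ) * r1 ξ + AA * r2 ξ
noncomputable def om (ξ : ℂ) : ℂ := ct + ww ξ * exp (2 * Real.pi * I * psi ξ)
noncomputable def lg (ξ : ℂ) : ℂ := log (ww ξ / wf) / (2 * Real.pi * I)
noncomputable def vv (ξ : ℂ) : ℂ := lg ξ + (vs - I * QQ) + psi ξ
noncomputable def vh (ξ : ℂ) : ℂ := vs + AA * r2 ξ
noncomputable def HH (v : ℂ) : ℂ := 93 / (16 * 10 ^ 7) * (506 / 10 ^ 8 * v + I * v ^ 3 / 3)
noncomputable def BB (ξ : ℂ) : ℂ :=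
  -(Real.log (3 / 2) + dl : ℝ) - I * (169 / 60) * (om ξ - 12 / 13 * I) + HH (vh ξ)
noncomputable def KK (ξ : ℂ) : ℂ := -I * nu * om ξ + cut (3 * LL) ξ * BB ξ

theorem LL_eq : LL = 10 ^ 25 := rfl

theorem exp_tiny {y : ℝ} (h : y ≤ -LL / 8) : Real.exp y ≤ 1 / 10 ^ 47 := by
  have h1 := Real.quadratic_le_exp_of_nonneg (x := LL / 8) (by rw [LL_eq]; norm_num)
  refine (Real.exp_le_exp.2 h).trans ?_
  rw [neg_div, Real.exp_neg, inv_le_comm₀ (Real.exp_pos _) (by norm_num)]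
  refine le_trans ?_ h1
  rw [LL_eq]; norm_num

theorem exp_le_one' {y : ℝ} (h : y ≤ 0) : Real.exp y ≤ 1 := Real.exp_le_one_iff.2 h

theorem A0_mul : A0 * Real.pi * (1 + 1 / 10 ^ 10) = 1006 / 10 ^ 8 := by
  unfold A0
  field_simp

theorem A0_pos : 0 < A0 := by unfold A0; positivity

theorem A0_le : A0 ≤ 1 / (29 * 10 ^ 4) := by
  nlinarith [A0_mul, A0_pos, Real.pi_gt_three]

theorem A0_ge : 1 / (4 * 10 ^ 5) ≤ A0 := by
  nlinarith [A0_mul, A0_pos, Real.pi_le_four]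

theorem A0_L3 : A0 * L3 = 2002 / 1000 := by
  unfold L3
  field_simp [A0_pos.ne']

theorem L3_ge : 1000 ≤ L3 := by
  by_contra h
  nlinarith [A0_L3, A0_le, A0_pos]

theorem norm_AA : ‖AA‖ ≤ 1 / (2 * 10 ^ 5) := by
  have h : ‖(1 + I / 10 ^ 5 : ℂ)‖ ≤ 1 + 1 / 10 ^ 5 := (norm_add_le _ _).trans (by simp)
  rw [AA, norm_mul, norm_real, Real.norm_eq_abs, abs_of_pos A0_pos]
  nlinarith [A0_le, A0_pos]

theorem AA_mul_re (z : ℂ) : (AA * z).re = A0 * (z.re - z.im / 10 ^ 5) := by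
  have : AA = ⟨A0, A0 / 10 ^ 5⟩ := by
    unfold AA; apply Complex.ext <;> simp [div_re, div_im] <;> norm_num
    ring
  rw [this, mul_re]; ring

theorem AA_mul_im (z : ℂ) : (AA * z).im = A0 * (z.im + z.re / 10 ^ 5) := by
  have : AA = ⟨A0, A0 / 10 ^ 5⟩ := by
    unfold AA; apply Complex.ext <;> simp [div_re, div_im] <;> norm_num
    ring
  rw [this, mul_im]; ring

theorem vs_eq : vs = ⟨-(1001 / 1000), -(1001 / 10 ^ 8)⟩ := by
  unfold vs; apply Complex.ext <;> simp [div_re, div_im] <;> norm_num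

theorem QQ_nonneg : 0 ≤ QQ := div_nonneg (Real.log_nonneg (by norm_num)) (by positivity)

theorem QQ_le : QQ ≤ 1 := by
  rw [QQ, div_le_one (by positivity), Real.log_le_iff_le_exp (by norm_num)]
  have h1 : (2 : ℝ) ^ 6 ≤ Real.exp 1 ^ 6 :=
    pow_le_pow_left₀ (by norm_num) (by linarith [Real.add_one_le_exp 1]) 6
  rw [← Real.exp_nat_mul] at h1
  refine le_trans (by norm_num) (h1.trans (Real.exp_le_exp.2 ?_))
  push_cast
  linarith [Real.pi_gt_three]

theorem QL : 0 ≤ QQ / LL ∧ QQ / LL ≤ 1 / 10 ^ 25 ∧ QQ / LL * LL = QQ := by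
  rw [LL_eq]
  refine ⟨div_nonneg QQ_nonneg (by norm_num), ?_, by field_simp⟩
  gcongr
  exact QQ_le

theorem norm_tp : ‖(2 * Real.pi * I : ℂ)‖ = 2 * Real.pi := by simp [abs_of_pos Real.pi_pos]

theorem norm_tp_mul (z : ℂ) : ‖2 * Real.pi * I * z‖ ≤ 7 * ‖z‖ := by
  rw [norm_mul, norm_tp]
  gcongr
  linarith [Real.pi_lt_d2]

theorem tp_ne : (2 * Real.pi * I : ℂ) ≠ 0 := two_pi_I_ne_zero

theorem exp_tp_sub_one {z : ℂ} (h : ‖z‖ ≤ 1 / 7) : ‖exp (2 * Real.pi * I * z) - 1‖ ≤ 14 * ‖z‖ := by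
  have h1 := norm_tp_mul z
  linarith [norm_exp_sub_one_le (h1.trans (by linarith))]

theorem norm_exp_tp (z : ℂ) : ‖exp (2 * Real.pi * I * z)‖ = Real.exp (-(2 * Real.pi * z.im)) := by
  rw [norm_exp]; simp

theorem norm_exp_tp_le {z : ℂ} (h : -(1 / 1000) ≤ z.im) :
    ‖exp (2 * Real.pi * I * z)‖ ≤ 102 / 100 := by
  rw [norm_exp_tp]
  have h1 : -(2 * Real.pi * z.im) ≤ 1 / 100 := by nlinarith [Real.pi_le_four, Real.pi_pos]
  have := Real.abs_exp_sub_one_le (x := 1 / 100) (by norm_num)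
  have h2 := le_abs_self (Real.exp (1 / 100) - 1)
  norm_num at this h2
  linarith [Real.exp_le_exp.2 h1]

theorem norm_wf_sub : ‖wf - 62 / 40‖ ≤ 23 / 1000 := by
  have e : exp (2 * Real.pi * I * vs) = exp (2 * Real.pi * I * (vs + 1)) := by
    rw [mul_add, exp_add, mul_one, exp_two_pi_mul_I, mul_one]
  have h : ‖vs + 1‖ ≤ 102 / 10 ^ 5 := by
    refine (norm_le_abs_re_add_abs_im _).trans ?_
    rw [vs_eq]; norm_num
  have h2 := exp_tp_sub_one (h.trans (by norm_num))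
  rw [wf, e, ← mul_sub_one, norm_mul]
  norm_num at h h2 ⊢
  linarith

theorem wf_bd : 152 / 100 ≤ wf.re ∧ wf.re ≤ 158 / 100 ∧ |wf.im| ≤ 23 / 1000 := by
  have h1 := (abs_re_le_norm _).trans norm_wf_sub
  have h2 := (abs_im_le_norm _).trans norm_wf_sub
  rw [abs_le] at h1
  norm_num at h1 h2 ⊢
  refine ⟨by linarith [h1.1], by linarith [h1.2], h2⟩

theorem one_le_wf : 1 ≤ ‖wf‖ := by linarith [wf_bd.1, re_le_norm wf]

theorem wf_ne : wf ≠ 0 := norm_pos_iff.1 (by linarith [one_le_wf])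

theorem ct_eq : ct = ⟨-(1 / 40), 12 / 13⟩ := by
  unfold ct; apply Complex.ext <;> simp

theorem dd_bd : 495 / 1000 ≤ dd.re ∧ dd.re ≤ 555 / 1000 ∧ 9 / 10 ≤ dd.im ∧ dd.im ≤ 95 / 100 := by
  obtain ⟨a, b, c⟩ := wf_bd
  rw [abs_le] at c
  simp only [dd, ct_eq, sub_re, add_re, one_re, sub_im, add_im, one_im]
  refine ⟨?_, ?_, ?_, ?_⟩ <;> linarith [c.1, c.2]

theorem norm_dd : ‖dd‖ ≤ 2 := by
  obtain ⟨a, b, c, d⟩ := dd_bd
  refine (norm_le_abs_re_add_abs_im _).trans ?_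
  rw [abs_of_pos (by linarith), abs_of_pos (by linarith)]; linarith

theorem norm_ddL (z : ℂ) : ‖dd / LL * z‖ ≤ 2 / 10 ^ 25 * ‖z‖ := by
  rw [norm_mul, norm_div, norm_real, LL_eq, Real.norm_eq_abs, abs_of_pos (by norm_num)]
  gcongr
  exact norm_dd

theorem norm_ct : ‖ct‖ ≤ 1 := by
  refine (norm_le_abs_re_add_abs_im _).trans ?_
  rw [ct_eq]; norm_num

theorem h01 : LL ≤ 2 * LL := by rw [LL_eq]; norm_num
theorem h45 : 4 * LL ≤ 5 * LL := by rw [LL_eq]; norm_num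
theorem h67 : 6 * LL ≤ 6 * LL + L3 := by linarith [L3_ge]

section
variable {ξ : ℂ}

theorem im_two {a b : ℝ} (hab : a ≤ b) (h : ξ ∈ Strip) : |(ramp a b ξ).im| ≤ 2 := by
  linarith [abs_ramp_im_le hab h, Real.pi_le_four]

theorem norm_ww (h : ξ ∈ Strip) : ‖ww ξ‖ ≤ 6 := by
  have h1 : ‖r0 ξ‖ ≤ 2 * 10 ^ 25 := by
    refine (norm_le_abs_re_add_abs_im _).trans ?_
    have a := ramp_re_le h01 h
    have b := im_two h01 h
    rw [r0, abs_of_nonneg (ramp_re_nonneg h01 h)]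
    rw [LL_eq] at *
    linarith
  have h2 := norm_ddL (r0 ξ)
  have h3 := norm_sub_le (tt ξ + dd / LL * r0 ξ) ct
  have h4 := norm_add_le (tt ξ) (dd / LL * r0 ξ)
  rw [ww]
  linarith [norm_tt_lt h, norm_ct]

theorem tt_thin (h : ξ ∈ Strip) (hx : LL ≤ ξ.re) : ‖tt ξ - 1‖ ≤ 2 / 10 ^ 47 := by
  have := exp_tiny (y := -ξ.re) (by linarith [LL_eq])
  linarith [norm_tt_sub_one h]

theorem ww_seg (h : ξ ∈ Strip) (hx : LL ≤ ξ.re) : ∃ r : ℝ, 0 ≤ r ∧ r ≤ 1 ∧
    ‖ww ξ - (1 - ct + dd * r)‖ ≤ 5 / 10 ^ 25 ∧ (2 * LL ≤ ξ.re → 9 / 10 ≤ r) := by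
  have a := ramp_re_le h01 h
  have a' := ramp_re_nonneg h01 h
  have b := im_two h01 h
  have L0 : (0 : ℝ) < LL := by rw [LL_eq]; norm_num
  refine ⟨(r0 ξ).re / LL, div_nonneg a' L0.le, (div_le_one L0).2 (by rw [r0]; linarith), ?_, ?_⟩
  · have e : ww ξ - (1 - ct + dd * ((r0 ξ).re / LL : ℝ))
        = (tt ξ - 1) + dd / LL * ((r0 ξ).im * I) := by
      rw [ww]
      nth_rewrite 1 [← re_add_im (r0 ξ)]
      push_cast
      ring
    have h1 := norm_ddL ((r0 ξ).im * I)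
    rw [norm_mul ((r0 ξ).im : ℂ), norm_I, norm_real, Real.norm_eq_abs, r0] at h1
    rw [e, r0]
    linarith [norm_add_le (tt ξ - 1) (dd / LL * ((ramp LL (2 * LL) ξ).im * I)), tt_thin h hx]
  · intro hx2
    have := (abs_re_le_norm _).trans (norm_ramp_sub_le h01 h hx2)
    rw [sub_re, ofReal_re, abs_le] at this
    rw [le_div_iff₀ L0, r0]
    linarith [this.1, LL_eq]

theorem ww_bd (h : ξ ∈ Strip) (hx : LL ≤ ξ.re) : 1 ≤ (ww ξ).re ∧ |(ww ξ).im| ≤ 1 := by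
  obtain ⟨r, a, b, c, -⟩ := ww_seg h hx
  have h1 := (abs_re_le_norm _).trans c
  have h2 := (abs_im_le_norm _).trans c
  obtain ⟨d1, d2, d3, d4⟩ := dd_bd
  simp only [ct_eq, sub_re, add_re, one_re, sub_im, add_im, one_im, mul_re, mul_im, ofReal_re,
    ofReal_im, abs_le] at h1 h2 ⊢
  refine ⟨?_, ?_, ?_⟩ <;> nlinarith [h1.1, h2.1, h2.2]

theorem ww_div_re (h : ξ ∈ Strip) (hx : LL ≤ ξ.re) : 0 < (ww ξ / wf).re := by
  obtain ⟨a, b⟩ := ww_bd h hx
  obtain ⟨c, -, d⟩ := wf_bd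
  rw [div_re, ← add_div]
  refine div_pos ?_ (normSq_pos.2 wf_ne)
  have := mul_le_mul b d (abs_nonneg _) (by norm_num)
  rw [← abs_mul] at this
  nlinarith [neg_abs_le ((ww ξ).im * wf.im)]

theorem ww_ne (h : ξ ∈ Strip) (hx : LL ≤ ξ.re) : ww ξ ≠ 0 := by
  intro h0
  have := (ww_bd h hx).1
  rw [h0] at this; norm_num at this

theorem lg_re (h : ξ ∈ Strip) (hx : LL ≤ ξ.re) : |(lg ξ).re| ≤ 1 / 4 := by
  have h1 := (abs_arg_lt_pi_div_two_iff.2 (Or.inl (ww_div_re h hx))).le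
  have e : (lg ξ).re = arg (ww ξ / wf) / (2 * Real.pi) := by
    have := Real.pi_pos
    rw [lg, ← log_im, div_re]
    simp
    field_simp
  rw [e, abs_div, abs_of_pos (show 0 < 2 * Real.pi by positivity), div_le_iff₀ (by positivity)]
  linarith

theorem lg_small (h : ξ ∈ Strip) (hx : 2 * LL ≤ ξ.re) : ‖lg ξ‖ ≤ 5 / 10 ^ 25 := by
  have L0 : (LL : ℂ) ≠ 0 := ofReal_ne_zero.2 (by rw [LL_eq]; norm_num)
  have e : ww ξ / wf = 1 + ((tt ξ - 1) + dd / LL * (r0 ξ - (2 * LL - LL : ℝ))) / wf := by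
    have := wf_ne
    rw [ww]
    push_cast
    field_simp
    rw [dd]; ring
  have h1 := norm_ddL (r0 ξ - (2 * LL - LL : ℝ))
  have h2 := norm_ramp_sub_le h01 h hx
  have h3 := tt_thin h (h01.trans hx)
  have h4 : ‖((tt ξ - 1) + dd / LL * (r0 ξ - (2 * LL - LL : ℝ))) / wf‖ ≤ 17 / 10 ^ 25 := by
    rw [norm_div]
    refine (div_le_self (norm_nonneg _) one_le_wf).trans ((norm_add_le _ _).trans ?_)
    rw [r0] at h1 ⊢
    linarith
  have h5 := norm_log_one_add_half_le_self (h4.trans (by norm_num))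
  rw [lg, e, norm_div, norm_tp, div_le_iff₀ (by positivity)]
  linarith [Real.pi_gt_three]

theorem psi_re (ξ : ℂ) : (psi ξ).re = -(QQ / LL * (r1 ξ).im) + (AA * r2 ξ).re := by
  simp only [psi, add_re, mul_re (I * _), mul_re I, mul_im I, I_re, I_im, ofReal_re, ofReal_im]
  ring

theorem psi_im (ξ : ℂ) : (psi ξ).im = QQ / LL * (r1 ξ).re + (AA * r2 ξ).im := by
  simp only [psi, add_im, mul_im (I * _), mul_re I, mul_im I, I_re, I_im, ofReal_re, ofReal_im]
  ring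

theorem norm_lin (z z' : ℂ) :
    ‖I * (QQ / LL : ℝ) * z + AA * z'‖ ≤ 1 / 10 ^ 25 * ‖z‖ + 1 / (2 * 10 ^ 5) * ‖z'‖ := by
  refine (norm_add_le _ _).trans ?_
  rw [norm_mul, norm_mul, norm_mul, norm_I, one_mul, norm_real, Real.norm_eq_abs,
    abs_of_nonneg QL.1]
  exact add_le_add (mul_le_mul_of_nonneg_right QL.2.1 (norm_nonneg _))
    (mul_le_mul_of_nonneg_right norm_AA (norm_nonneg _))

theorem norm_psi (h : ξ ∈ Strip) :
    ‖psi ξ‖ ≤ 13 / 10 ^ 25 * Real.exp ((ξ.re - 4 * LL) / 8) := by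
  have h1 := norm_lin (r1 ξ) (r2 ξ)
  have h2 := norm_ramp_le_exp h45 h
  have h3 := norm_ramp_le_exp h67 h
  have e : Real.exp ((ξ.re - 6 * LL) / 8)
      = Real.exp ((ξ.re - 4 * LL) / 8) * Real.exp (-LL / 4) := by
    rw [← Real.exp_add]; congr 1; ring
  have h4 := exp_tiny (y := -LL / 4) (by rw [LL_eq]; norm_num)
  have h5 := mul_le_mul_of_nonneg_left h4 (Real.exp_pos ((ξ.re - 4 * LL) / 8)).le
  rw [psi]
  rw [r1, r2] at *
  linarith [Real.exp_pos ((ξ.re - 4 * LL) / 8)]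

theorem om_sub (h : ξ ∈ Strip) (hx : ξ.re ≤ 4 * LL) : ‖om ξ - (ct + ww ξ)‖ ≤ 2 / 10 ^ 22 := by
  have h1 := norm_psi h
  have h2 := exp_le_one' (y := (ξ.re - 4 * LL) / 8) (by linarith)
  have h3 := exp_tp_sub_one (z := psi ξ) (by linarith)
  have e : om ξ - (ct + ww ξ) = ww ξ * (exp (2 * Real.pi * I * psi ξ) - 1) := by rw [om]; ring
  rw [e, norm_mul]
  exact (mul_le_mul (norm_ww h) (d := 14 * (13 / 10 ^ 25)) (by linarith) (norm_nonneg _)
    (by norm_num)).trans (by norm_num)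

theorem om_main (h : ξ ∈ Strip) (hx : ξ.re ≤ LL) : ‖om ξ - tt ξ‖ ≤ 3 / 10 ^ 22 := by
  have h1 := om_sub h (by linarith [LL_eq])
  have h2 := norm_ddL (r0 ξ)
  have h3 := norm_ramp_le_exp h01 h
  have h4 := exp_le_one' (y := (ξ.re - LL) / 8) (by linarith)
  have e : om ξ - tt ξ = om ξ - (ct + ww ξ) + dd / LL * r0 ξ := by rw [ww]; ring
  rw [e]
  refine (norm_add_le _ _).trans ?_
  rw [r0] at *
  linarith

theorem om_seg (h : ξ ∈ Strip) (hx : LL ≤ ξ.re) (hx' : ξ.re ≤ 4 * LL) : ∃ r : ℝ, 0 ≤ r ∧ r ≤ 1 ∧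
    ‖om ξ - (1 + dd * r)‖ ≤ 3 / 10 ^ 22 ∧ (2 * LL ≤ ξ.re → 9 / 10 ≤ r) := by
  obtain ⟨r, a, b, c, d⟩ := ww_seg h hx
  refine ⟨r, a, b, ?_, d⟩
  have e : om ξ - (1 + dd * r) = om ξ - (ct + ww ξ) + (ww ξ - (1 - ct + dd * r)) := by ring
  rw [e]
  linarith [norm_add_le (om ξ - (ct + ww ξ)) (ww ξ - (1 - ct + dd * r)), om_sub h hx']

theorem vh_j (ξ : ℂ) :
    (vh ξ).im - 1 / 10 ^ 5 * (vh ξ).re = A0 * (1 + 1 / 10 ^ 10) * (r2 ξ).im := by
  rw [vh, add_im, add_re, AA_mul_re, AA_mul_im, vs_eq]; ring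

theorem vh_bd (h : ξ ∈ Strip) : |(vh ξ).re| ≤ 1 + 1005 / 10 ^ 6 ∧
    |(vh ξ).im - 1 / 10 ^ 5 * (vh ξ).re| ≤ 503 / 10 ^ 8 := by
  have a := ramp_re_le h67 h
  have a' := ramp_re_nonneg h67 h
  have b := im_two h67 h
  have b' := abs_ramp_im_le h67 h
  have p := A0_pos
  constructor
  · rw [vh, add_re, AA_mul_re, vs_eq, r2, abs_le] at *
    constructor <;> nlinarith [A0_L3, A0_le]
  · rw [vh_j, abs_mul, abs_of_pos (by positivity), r2]
    nlinarith [A0_mul]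

theorem vh_start (h : ξ ∈ Strip) (hx : ξ.re ≤ 6 * LL) :
    |(vh ξ).re + 1001 / 1000| ≤ 6 / 10 ^ 5 := by
  have h3 := norm_ramp_le_exp h67 h
  have h4 := exp_le_one' (y := (ξ.re - 6 * LL) / 8) (by linarith)
  have e : (vh ξ).re + 1001 / 1000 = (AA * r2 ξ).re := by rw [vh, add_re, vs_eq]; ring
  rw [e]
  refine (abs_re_le_norm _).trans ?_
  rw [norm_mul, r2]
  exact (mul_le_mul norm_AA (d := 12) (by linarith) (norm_nonneg _)
    (by norm_num)).trans (by norm_num)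

theorem vh_j_small (h : ξ ∈ Strip) (hx : ξ.re ≤ 5 * LL) :
    (vh ξ).im - 1 / 10 ^ 5 * (vh ξ).re ≤ 1 / 10 ^ 6 := by
  have h3 := norm_ramp_le_exp h67 h
  have h4 := exp_tiny (y := (ξ.re - 6 * LL) / 8) (by linarith)
  have h5 := (le_abs_self _).trans (abs_im_le_norm (r2 ξ))
  rw [vh_j]
  rw [r2] at *
  nlinarith [A0_le, A0_pos]

theorem vv_sub (ξ : ℂ) : vv ξ - vh ξ = lg ξ + I * (QQ / LL : ℝ) * (r1 ξ - (5 * LL - 4 * LL : ℝ)) := by
  have : ((QQ / LL : ℝ) : ℂ) * LL = QQ := by exact_mod_cast QL.2.2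
  rw [vv, vh, psi, ← this]
  push_cast
  ring

theorem vv_re (h : ξ ∈ Strip) : |(vv ξ).re - (vh ξ).re - (lg ξ).re| ≤ 2 / 10 ^ 25 := by
  have e : (vv ξ).re - (vh ξ).re - (lg ξ).re = -(QQ / LL * (r1 ξ).im) := by
    rw [vv, vh, add_re, add_re, psi_re]; simp; ring
  rw [e, abs_neg, abs_mul, abs_of_nonneg QL.1]
  calc _ ≤ 1 / 10 ^ 25 * 2 := mul_le_mul QL.2.1 (im_two h45 h) (abs_nonneg _) (by norm_num)
    _ = _ := by norm_num

theorem vv_im (h : ξ ∈ Strip) : (vv ξ).im ≤ (vh ξ).im + (lg ξ).im := by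
  have e : (vv ξ).im = (vh ξ).im + (lg ξ).im + (QQ / LL * (r1 ξ).re - QQ) := by
    rw [vv, vh, add_im, add_im, psi_im]; simp; ring
  have a := ramp_re_le h45 h
  have := mul_le_mul_of_nonneg_left a QL.1
  rw [e, r1]
  nlinarith [QL.2.2]

theorem vv_close (h : ξ ∈ Strip) (hx : 5 * LL ≤ ξ.re) : ‖vv ξ - vh ξ‖ ≤ 13 / 10 ^ 25 := by
  have h1 := norm_lin (r1 ξ - (5 * LL - 4 * LL : ℝ)) 0
  have h2 := norm_ramp_sub_le h45 h hx
  have h3 := lg_small h (by linarith [LL_eq])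
  rw [mul_zero, add_zero, norm_zero] at h1
  rw [vv_sub]
  refine (norm_add_le _ _).trans ?_
  rw [r1] at *
  linarith

theorem om_eq (h : ξ ∈ Strip) (hx : LL ≤ ξ.re) :
    om ξ = 12 / 13 * I + (exp (2 * Real.pi * I * vv ξ) - 1) / 40 := by
  have e1 : exp (2 * Real.pi * I * lg ξ) = ww ξ / wf := by
    rw [lg, mul_div_cancel₀ _ tp_ne, exp_log (div_ne_zero (ww_ne h hx) wf_ne)]
  have e2 : exp (2 * Real.pi * I * (vs - I * QQ)) = 40 * wf := by
    have : 2 * Real.pi * I * (vs - I * QQ) = 2 * Real.pi * I * vs + (Real.log 62 : ℝ) := by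
      have h1 : (2 * Real.pi * QQ : ℝ) = Real.log 62 := by rw [QQ]; field_simp
      rw [← h1]
      push_cast
      linear_combination (-2 * Real.pi * QQ : ℂ) * I_mul_I
    rw [this, exp_add, ← ofReal_exp, Real.exp_log (by norm_num), wf]
    push_cast
    ring
  have := wf_ne
  rw [vv, mul_add, mul_add, exp_add, exp_add, e1, e2, om, ct]
  field_simp
  ring

theorem norm_om_ct (h : ξ ∈ Strip) : ‖om ξ - ct‖ ≤ 7 := by
  have a := mul_nonneg QL.1 (ramp_re_nonneg h45 h)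
  have b := ramp_re_nonneg h67 h
  have c := abs_le.1 (im_two h67 h)
  have h1 := norm_exp_tp_le (z := psi ξ) (by
    rw [psi_im, AA_mul_im, r1, r2]; nlinarith [A0_le, A0_pos])
  rw [om, add_sub_cancel_left, norm_mul]
  nlinarith [norm_ww h, norm_nonneg (ww ξ), norm_nonneg (exp (2 * Real.pi * I * psi ξ))]

theorem HH_re (v : ℂ) : (HH v).re = hn (1 / 10 ^ 5) v.re v.im / 1600 := by
  have e : HH v = (93 / (16 * 10 ^ 7) : ℝ) * ((506 / 10 ^ 8 : ℝ) * v + (1 / 3 : ℝ) * (I * v ^ 3)) := by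
    rw [HH]; push_cast; ring
  rw [e, re_ofReal_mul, add_re, re_ofReal_mul, re_ofReal_mul, hn]
  simp only [pow_succ, pow_zero, one_mul, mul_re, mul_im, I_re, I_im]
  ring

theorem log32 : 1 / 3 ≤ Real.log (3 / 2) ∧ Real.log (3 / 2) ≤ 1 / 2 := by
  have h1 := Real.one_sub_inv_le_log_of_pos (x := 3 / 2) (by norm_num)
  have h2 := Real.log_le_sub_one_of_pos (x := 3 / 2) (by norm_num)
  constructor <;> linarith

theorem norm_BB (h : ξ ∈ Strip) : ‖BB ξ‖ ≤ 30 := by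
  have h1 : ‖vh ξ‖ ≤ 2 := by
    obtain ⟨a, b⟩ := vh_bd h
    refine (norm_le_abs_re_add_abs_im _).trans ?_
    have : |(vh ξ).im| ≤ 1 / 2 := by
      rw [abs_le] at a b ⊢; constructor <;> linarith [a.1, a.2, b.1, b.2]
    linarith
  have h2 : ‖HH (vh ξ)‖ ≤ 1 := by
    have a := norm_add_le (506 / 10 ^ 8 * vh ξ) (I * vh ξ ^ 3 / 3)
    have b := pow_le_pow_left₀ (norm_nonneg _) h1 3
    rw [HH, norm_mul]
    simp only [norm_mul, norm_div, norm_pow, Complex.norm_ofNat, norm_I] at a ⊢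
    linarith
  have h3 : ‖om ξ - 12 / 13 * I‖ ≤ 8 := by
    have e : om ξ - 12 / 13 * I = om ξ - ct - 1 / 40 := by rw [ct]; ring
    have := norm_sub_le (om ξ - ct) (1 / 40)
    rw [e]
    norm_num at this ⊢
    linarith [norm_om_ct h]
  have h4 : ‖(-(Real.log (3 / 2) + dl : ℝ) : ℂ)‖ ≤ 1 := by
    rw [norm_neg, norm_real, Real.norm_eq_abs, abs_le, dl]
    constructor <;> linarith [log32.1, log32.2]
  have h5 : ‖I * (169 / 60) * (om ξ - 12 / 13 * I)‖ ≤ 24 := by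
    simp only [norm_mul, norm_div, Complex.norm_ofNat, norm_I]
    linarith
  rw [BB]
  refine (norm_add_le _ _).trans ?_
  linarith [norm_sub_le (-(Real.log (3 / 2) + dl : ℝ) : ℂ) (I * (169 / 60) * (om ξ - 12 / 13 * I))]

theorem K_main (h : ξ ∈ Strip) (hx : ξ.re ≤ LL) :
    |(KK ξ).re - nu * (om ξ).im| ≤ 1 / 10 ^ 22 := by
  have e : (KK ξ).re - nu * (om ξ).im = (cut (3 * LL) ξ * BB ξ).re := by
    rw [KK, add_re]; simp
  have h1 := (norm_cut_le (a := 3 * LL) h).trans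
    (exp_tiny (y := ξ.re - 3 * LL) (by linarith [LL_eq]))
  rw [e]
  refine (abs_re_le_norm _).trans ?_
  rw [norm_mul]
  calc _ ≤ 1 / 10 ^ 47 * 30 := mul_le_mul h1 (norm_BB h) (norm_nonneg _) (by norm_num)
    _ ≤ _ := by norm_num

theorem K_fin (h : ξ ∈ Strip) (hx : 4 * LL ≤ ξ.re) :
    |(KK ξ).re - (nu + 169 / 60) * ((om ξ).im - 12 / 13)
      - hn (1 / 10 ^ 5) (vh ξ).re (vh ξ).im / 1600| ≤ 1 / 10 ^ 22 := by
  have e : (KK ξ).re - (nu + 169 / 60) * ((om ξ).im - 12 / 13)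
      - hn (1 / 10 ^ 5) (vh ξ).re (vh ξ).im / 1600 = ((cut (3 * LL) ξ - 1) * BB ξ).re := by
    rw [sub_mul, one_mul, sub_re, KK, add_re, ← HH_re]
    generalize (cut (3 * LL) ξ * BB ξ).re = z
    rw [BB, add_re, sub_re, neg_re, ofReal_re]
    simp [nu]
    ring
  have h1 := (norm_cut_sub_one_le (a := 3 * LL) h).trans
    (exp_tiny (y := 3 * LL - ξ.re) (by linarith [LL_eq]))
  rw [e]
  refine (abs_re_le_norm _).trans ?_
  rw [norm_mul]
  calc _ ≤ 1 / 10 ^ 47 * 30 := mul_le_mul h1 (norm_BB h) (norm_nonneg _) (by norm_num)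
    _ ≤ _ := by norm_num

theorem om_fin (h : ξ ∈ Strip) (hx : 5 * LL ≤ ξ.re) : ‖om ξ - ct‖ ≤ 26 / 1000 := by
  have h1 := abs_le.1 ((abs_im_le_norm _).trans (vv_close h hx))
  obtain ⟨a, b⟩ := vh_bd h
  rw [abs_le] at a b
  rw [sub_im] at h1
  have h2 := norm_exp_tp_le (z := vv ξ) (by linarith [a.1, b.1, h1.1])
  have e : om ξ - ct = exp (2 * Real.pi * I * vv ξ) / 40 := by
    rw [om_eq h (by linarith [LL_eq]), ct]; ring
  rw [e, norm_div, Complex.norm_ofNat]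
  linarith

theorem vv_corr (h : ξ ∈ Strip) (hx : 2 * LL ≤ ξ.re) (hx' : ξ.re ≤ 6 * LL) :
    |(vv ξ).re + 1001 / 1000| ≤ 7 / 10 ^ 5 := by
  have a := abs_le.1 (vh_start h hx')
  have b := abs_le.1 (vv_re h)
  have c := abs_le.1 ((abs_re_le_norm _).trans (lg_small h hx))
  rw [abs_le]
  constructor <;> linarith [a.1, a.2, b.1, b.2, c.1, c.2]

theorem om_Y (h : ξ ∈ Strip) (hx : 2 * LL ≤ ξ.re) : |(om ξ).im - 12 / 13| ≤ 1 / 12 := by
  have e0 : (om ξ).im - 12 / 13 = (om ξ - ct).im := by rw [sub_im, ct_eq]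
  rw [e0]
  rcases le_total (5 * LL) ξ.re with h5 | h5
  · linarith [abs_im_le_norm (om ξ - ct), om_fin h h5]
  · have e : om ξ - ct = exp (2 * Real.pi * I * (vv ξ + 1)) / 40 := by
      rw [om_eq h (h01.trans hx), ct, mul_add, exp_add, mul_one, exp_two_pi_mul_I]; ring
    have h1 := norm_om_ct h
    have h2 := abs_le.1 (vv_corr h hx (by linarith [LL_eq]))
    rw [e, norm_div, Complex.norm_ofNat, norm_exp] at h1
    rw [e, div_ofNat_im, exp_im, abs_div, abs_mul, abs_of_pos (Real.exp_pos _)]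
    have h3 : |(2 * Real.pi * I * (vv ξ + 1)).im| ≤ 1 / 100 := by
      have : (2 * Real.pi * I * (vv ξ + 1)).im = 2 * Real.pi * ((vv ξ).re + 1) := by simp
      rw [this, abs_le]
      constructor <;> nlinarith [Real.pi_le_four, Real.pi_pos, h2.1, h2.2]
    have h4 := Real.abs_sin_le_abs.trans h3
    have h5 := mul_le_mul_of_nonneg_left h4 (Real.exp_pos (2 * Real.pi * I * (vv ξ + 1)).re).le
    rw [abs_of_pos (by norm_num : (0 : ℝ) < 40)]
    linarith

end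

end Pool.Agent.MP_2790d1_an

end

-- part MP_2790d1_an.FInj
section

/-! The sheets over the immersed strip are disjoint. -/

open Complex Set ComplexConjugate

namespace Pool.Agent.MP_2790d1_an

noncomputable def wd (ξ : ℂ) : ℂ := (1 - tt ξ ^ 2) / 2 + dd / LL * ramp' LL (2 * LL) ξ
noncomputable def pd (ξ : ℂ) : ℂ :=
  I * (QQ / LL : ℝ) * ramp' (4 * LL) (5 * LL) ξ + AA * ramp' (6 * LL) (6 * LL + L3) ξ
noncomputable def od (ξ : ℂ) : ℂ :=
  exp (2 * Real.pi * I * psi ξ) * (wd ξ + 2 * Real.pi * I * (pd ξ * ww ξ))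
noncomputable def vd (ξ : ℂ) : ℂ := wd ξ / ww ξ / (2 * Real.pi * I) + pd ξ

section
variable {ξ ξ' : ℂ}

theorem ww_hasDerivAt (h : ξ ∈ Strip) : HasDerivAt ww (wd ξ) ξ :=
  ((tt_hasDerivAt h).fun_add ((ramp_hasDerivAt _ _ h).const_mul (dd / LL))).sub_const ct

theorem psi_hasDerivAt (h : ξ ∈ Strip) : HasDerivAt psi (pd ξ) ξ :=
  ((ramp_hasDerivAt _ _ h).const_mul _).fun_add ((ramp_hasDerivAt _ _ h).const_mul _)

theorem om_hasDerivAt (h : ξ ∈ Strip) : HasDerivAt om (od ξ) ξ :=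
  (((ww_hasDerivAt h).fun_mul ((psi_hasDerivAt h).const_mul (2 * Real.pi * I)).cexp).const_add
    ct).congr_deriv (by rw [od]; ring)

theorem vv_hasDerivAt (h : ξ ∈ Strip) (hx : LL ≤ ξ.re) : HasDerivAt vv (vd ξ) ξ := by
  have h1 := ((ww_hasDerivAt h).div_const wf).clog (Or.inl (ww_div_re h hx))
  refine (((h1.div_const (2 * Real.pi * I)).add_const (vs - I * QQ)).fun_add
    (psi_hasDerivAt h)).congr_deriv ?_
  have := wf_ne
  have := ww_ne h hx
  rw [vd]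
  field_simp

theorem KK_differentiableAt (h : ξ ∈ Strip) : DifferentiableAt ℂ KK ξ := by
  have h1 := (om_hasDerivAt h).differentiableAt
  have h2 : DifferentiableAt ℂ r2 ξ := (ramp_hasDerivAt _ _ h).differentiableAt
  have h3 := cut_differentiableAt (a := 3 * LL) h
  unfold KK BB HH vh
  fun_prop

theorem norm_pd (h : ξ ∈ Strip) : ‖pd ξ‖ ≤ 4 * Real.exp ((ξ.re - 4 * LL) / 8) := by
  have h1 := norm_lin (ramp' (4 * LL) (5 * LL) ξ) (ramp' (6 * LL) (6 * LL + L3) ξ)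
  have h2 := norm_ramp'_le h45 h
  have h3 := norm_ramp'_le h67 h
  have h4 : Real.exp ((ξ.re - 6 * LL) / 8) ≤ Real.exp ((ξ.re - 4 * LL) / 8) :=
    Real.exp_le_exp.2 (by linarith [LL_eq])
  rw [pd]
  linarith [Real.exp_pos ((ξ.re - 4 * LL) / 8)]

theorem norm_one_sub_sq (h : ξ ∈ Strip) : ‖(1 - tt ξ ^ 2) / 2‖ ≤ ‖tt ξ - 1‖ := by
  have e : (1 - tt ξ ^ 2) / 2 = -((tt ξ - 1) * ((tt ξ + 1) / 2)) := by ring
  have h1 : ‖(tt ξ + 1) / 2‖ ≤ 1 := by
    have := norm_add_le (tt ξ) 1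
    rw [norm_div, Complex.norm_ofNat]
    rw [norm_one] at this
    linarith [norm_tt_lt h]
  rw [e, norm_neg, norm_mul]
  exact mul_le_of_le_one_right (norm_nonneg _) h1

theorem od_re_pos (h : ξ ∈ Strip) (hx : ξ.re ≤ 2 * LL) : 0 < (1 * od ξ).re := by
  have F0 := Real.exp_pos ((ξ.re - 2 * LL) / 8)
  have F1 := exp_le_one' (y := (ξ.re - 2 * LL) / 8) (by linarith)
  have e1 : Real.exp ((ξ.re - 4 * LL) / 8) ≤ 1 / 10 ^ 47 * Real.exp ((ξ.re - 2 * LL) / 8) := by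
    have : Real.exp ((ξ.re - 4 * LL) / 8)
        = Real.exp (-LL / 4) * Real.exp ((ξ.re - 2 * LL) / 8) := by
      rw [← Real.exp_add]; congr 1; ring
    rw [this]
    exact mul_le_mul_of_nonneg_right (exp_tiny (by linarith [LL_eq])) F0.le
  have a1 := ramp'_re_ge_left (a := LL) (b := 2 * LL) (by linarith [LL_eq]) h hx
  have a2 := ramp'_cone h01 h
  have a3 := norm_ramp'_le_one h01 h
  have p1 := norm_psi h
  have p2 := norm_pd h
  generalize Real.exp ((ξ.re - 2 * LL) / 8) = F at *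
  have p3 := exp_tp_sub_one (z := psi ξ) (by linarith)
  have w1 : ‖wd ξ‖ ≤ 3 := by
    have b1 := norm_one_sub_sq h
    have b2 := norm_sub_le (tt ξ) 1
    have b3 := norm_ddL (ramp' LL (2 * LL) ξ)
    rw [norm_one] at b2
    rw [wd]
    refine (norm_add_le _ _).trans ?_
    linarith [norm_tt_lt h]
  have w2 : 1 / 10 ^ 27 * F ≤ (wd ξ).re := by
    have b1 : 0 ≤ ((1 - tt ξ ^ 2) / 2).re := by
      have := re_le_norm (tt ξ ^ 2)
      have := pow_le_one₀ (n := 2) (norm_nonneg _) (norm_tt_lt h).le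
      rw [← norm_pow] at this
      rw [div_ofNat_re, sub_re, one_re]
      linarith
    have b2 : (dd / LL * ramp' LL (2 * LL) ξ).re = (dd.re * (ramp' LL (2 * LL) ξ).re
        - dd.im * (ramp' LL (2 * LL) ξ).im) / 10 ^ 25 := by
      rw [div_mul_eq_mul_div, div_ofReal_re, mul_re, LL_eq]
    obtain ⟨d1, -, d3, d4⟩ := dd_bd
    have b3 := le_abs_self (ramp' LL (2 * LL) ξ).im
    have b4 := abs_nonneg (ramp' LL (2 * LL) ξ).im
    rw [wd, add_re, b2]
    nlinarith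
  have e : od ξ = wd ξ + ((exp (2 * Real.pi * I * psi ξ) - 1) * wd ξ
      + exp (2 * Real.pi * I * psi ξ) * (2 * Real.pi * I * (pd ξ * ww ξ))) := by rw [od]; ring
  have n1 : ‖(exp (2 * Real.pi * I * psi ξ) - 1) * wd ξ‖ ≤ 1 / 10 ^ 40 * F * 3 := by
    rw [norm_mul]
    exact mul_le_mul (by linarith) w1 (norm_nonneg _) (by positivity)
  have n2 : ‖exp (2 * Real.pi * I * psi ξ) * (2 * Real.pi * I * (pd ξ * ww ξ))‖
      ≤ 2 * (7 * (1 / 10 ^ 40 * F * 6)) := by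
    rw [norm_mul]
    refine mul_le_mul ?_ ((norm_tp_mul _).trans ?_) (norm_nonneg _) (by norm_num)
    · have := norm_sub_norm_le (exp (2 * Real.pi * I * psi ξ)) 1
      rw [norm_one] at this
      linarith
    · rw [norm_mul]
      exact mul_le_mul_of_nonneg_left
        (mul_le_mul (by linarith) (norm_ww h) (norm_nonneg _) (by positivity)) (by norm_num)
  have n3 := abs_le.1 ((abs_re_le_norm _).trans ((norm_add_le _ _).trans (add_le_add n1 n2)))
  rw [one_mul, e, add_re]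
  linarith [n3.1]

theorem cone_pos {G z : ℂ} {c : ℝ} (hz : 4 * |z.im| ≤ z.re) (hG : c + |G.im| / 4 ≤ G.re) :
    c * z.re ≤ (G * z).re := by
  have h1 := le_abs_self (G.im * z.im)
  rw [abs_mul] at h1
  rw [mul_re]
  nlinarith [abs_nonneg z.im, abs_nonneg G.im]

theorem pd_re (h : ξ ∈ Strip) : 0 ≤ ((1 - I / 2) * pd ξ).re := by
  have a1 := cone_pos (G := (1 - I / 2) * I) (c := 0) (ramp'_cone h45 h) (by norm_num)
  have a2 := cone_pos (G := (1 - I / 2) * (1 + I / 10 ^ 5)) (c := 0) (ramp'_cone h67 h) (by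
    have : (1 - I / 2 : ℂ) * (1 + I / 10 ^ 5) = ⟨1 + 1 / (2 * 10 ^ 5), 1 / 10 ^ 5 - 1 / 2⟩ := by
      apply Complex.ext <;> simp [div_re, div_im] <;> norm_num
    rw [this, abs_of_neg] <;> norm_num)
  have e : (1 - I / 2) * pd ξ = (QQ / LL : ℝ) * ((1 - I / 2) * I * ramp' (4 * LL) (5 * LL) ξ)
      + A0 * ((1 - I / 2) * (1 + I / 10 ^ 5) * ramp' (6 * LL) (6 * LL + L3) ξ) := by
    rw [pd, AA]; ring
  rw [zero_mul] at a1 a2
  rw [e, add_re, re_ofReal_mul, re_ofReal_mul]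
  exact add_nonneg (mul_nonneg QL.1 a1) (mul_nonneg A0_pos.le a2)

theorem G_bd (h : ξ ∈ Strip) (hx : LL ≤ ξ.re) :
    1 / 4 + |((-(1 / 2) - I) * (dd * conj (ww ξ))).im| / 4
      ≤ ((-(1 / 2) - I) * (dd * conj (ww ξ))).re := by
  obtain ⟨r, a, b, c, -⟩ := ww_seg h hx
  have h1 := (abs_re_le_norm _).trans c
  have h2 := (abs_im_le_norm _).trans c
  obtain ⟨d1, d2, d3, d4⟩ := dd_bd
  simp only [ct_eq, sub_re, add_re, one_re, sub_im, add_im, one_im, mul_re, mul_im, ofReal_re,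
    ofReal_im, abs_le] at h1 h2
  obtain ⟨e1, he1⟩ : ∃ e, (ww ξ).re = 41 / 40 + dd.re * r + e := ⟨_, (add_sub_cancel _ _).symm⟩
  obtain ⟨e2, he2⟩ : ∃ e, (ww ξ).im = -(12 / 13) + dd.im * r + e := ⟨_, (add_sub_cancel _ _).symm⟩
  have b1 : -(1 / 1000) ≤ e1 ∧ e1 ≤ 1 / 1000 := by constructor <;> linarith [h1.1, h1.2]
  have b2 : -(1 / 1000) ≤ e2 ∧ e2 ≤ 1 / 1000 := by constructor <;> linarith [h2.1, h2.2]
  have hP : -1 ≤ (dd * conj (ww ξ)).re ∧ (dd * conj (ww ξ)).re ≤ 1 := by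
    rw [mul_re, conj_re, conj_im, he1, he2]
    have s1 : dd.re * dd.re ≤ 31 / 100 := by nlinarith
    have s2 : dd.im * dd.im ≤ 91 / 100 := by nlinarith
    have s3 := mul_le_mul_of_nonneg_left b (add_nonneg (mul_self_nonneg dd.re) (mul_self_nonneg dd.im))
    have s4 := mul_nonneg a (add_nonneg (mul_self_nonneg dd.re) (mul_self_nonneg dd.im))
    constructor <;> nlinarith [b1.1, b1.2, b2.1, b2.2]
  have hQ : 13 / 10 ≤ (dd * conj (ww ξ)).im ∧ (dd * conj (ww ξ)).im ≤ 15 / 10 := by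
    rw [mul_im, conj_re, conj_im, he1, he2]
    constructor <;> nlinarith [b1.1, b1.2, b2.1, b2.2]
  generalize dd * conj (ww ξ) = z at *
  have : |((-(1 / 2) - I) * z).im| ≤ 7 / 4 := by
    rw [abs_le]; simp; constructor <;> linarith [hP.1, hP.2, hQ.1, hQ.2]
  have e : ((-(1 / 2) - I) * z).re = z.im - z.re / 2 := by simp; ring
  linarith [hP.2, hQ.1]

theorem vd_re_pos (h : ξ ∈ Strip) (hx : LL ≤ ξ.re) : 0 < ((1 - I / 2) * vd ξ).re := by
  have w0 := ww_ne h hx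
  have pos : 0 < 2 * Real.pi * normSq (ww ξ) := mul_pos (by positivity) (normSq_pos.2 w0)
  have e : (1 - I / 2) * vd ξ = ((-(1 / 2) - I) * conj (ww ξ) * ((1 - tt ξ ^ 2) / 2)
      + (1 / LL : ℝ) * ((-(1 / 2) - I) * (dd * conj (ww ξ)) * ramp' LL (2 * LL) ξ))
        / (2 * Real.pi * normSq (ww ξ) : ℝ) + (1 - I / 2) * pd ξ := by
    have h1 : (Real.pi : ℂ) ≠ 0 := ofReal_ne_zero.2 Real.pi_ne_zero
    have h2 : conj (ww ξ) ≠ 0 := by simpa using w0
    have h3 : (1 - I / 2 : ℂ) = (-(1 / 2) - I) * I := by linear_combination I_mul_I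
    rw [vd, mul_add, wd, add_left_inj, h3]
    push_cast
    rw [normSq_eq_conj_mul_self]
    field_simp
  have a1 := cone_pos (ramp'_cone h01 h) (G_bd h hx)
  have a2 := ramp'_re_ge_right (a := LL) (b := 2 * LL) (by linarith [LL_eq]) (by linarith [LL_eq])
    h hx
  have F0 := Real.exp_pos (-ξ.re / 8)
  have a3 : Real.exp (-ξ.re) ≤ 1 / 10 ^ 47 * Real.exp (-ξ.re / 8) := by
    have : Real.exp (-ξ.re) = Real.exp (-(7 / 8) * ξ.re) * Real.exp (-ξ.re / 8) := by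
      rw [← Real.exp_add]; congr 1; ring
    rw [this]
    exact mul_le_mul_of_nonneg_right (exp_tiny (by linarith [LL_eq])) F0.le
  have a4 : ‖(-(1 / 2) - I) * conj (ww ξ) * ((1 - tt ξ ^ 2) / 2)‖
      ≤ 2 * 6 * (2 * Real.exp (-ξ.re)) := by
    rw [norm_mul, norm_mul, norm_conj]
    refine mul_le_mul (mul_le_mul ((norm_sub_le _ _).trans (by norm_num)) (norm_ww h)
      (norm_nonneg _) (by norm_num)) ((norm_one_sub_sq h).trans (norm_tt_sub_one h))
      (norm_nonneg _) (by norm_num)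
  have a5 := (abs_le.1 ((abs_re_le_norm _).trans a4)).1
  rw [e, add_re, div_ofReal_re, add_re, re_ofReal_mul]
  refine add_pos_of_pos_of_nonneg (div_pos ?_ pos) (pd_re h)
  rw [show 1 / LL = 1 / 10 ^ 25 from rfl]
  linarith

theorem inj_alpha : InjOn om (Strip ∩ {ξ | ξ.re ≤ 2 * LL}) :=
  injOn_of_re_pos (convex_strip.inter (convex_halfSpace_re_le _))
    (fun _ h => om_hasDerivAt h.1) fun _ h => od_re_pos h.1 h.2

theorem inj_beta : InjOn vv (Strip ∩ {ξ | LL ≤ ξ.re}) :=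
  injOn_of_re_pos (convex_strip.inter (convex_halfSpace_re_ge _))
    (fun _ h => vv_hasDerivAt h.1 h.2) fun _ h => vd_re_pos h.1 h.2

theorem od_ne (h : ξ ∈ Strip) : od ξ ≠ 0 := by
  intro h0
  rcases le_total ξ.re (2 * LL) with hx | hx
  · have := od_re_pos h hx
    rw [h0] at this; simp at this
  · have h1 := vd_re_pos h (h01.trans hx)
    have w0 := ww_ne h (h01.trans hx)
    have e : vd ξ = od ξ / (exp (2 * Real.pi * I * psi ξ) * (ww ξ * (2 * Real.pi * I))) := by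
      have h1 : (Real.pi : ℂ) ≠ 0 := ofReal_ne_zero.2 Real.pi_ne_zero
      rw [vd, od]
      field_simp
    rw [e, h0] at h1; simp at h1

theorem dl_pos : 0 < dl := by rw [dl]; norm_num

theorem nu_bd : 0 ≤ nu ∧ nu ≤ 1 := by
  rw [nu, dl]; constructor <;> linarith [log32.1, log32.2]

theorem not_roof (h : ξ ∈ Strip) (hx : ξ.re ≤ LL) {u : ℂ} (hu : om ξ = 12 / 13 * I + u)
    (hY : |u.im| ≤ 1 / 12) {S : ℝ}
    (h1 : S - (nu + 169 / 60) * u.im ≤ 6 / 5 * ‖u‖ ^ 2 + dl / 2)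
    (h2 : S - (nu + 169 / 60) * u.im ≤ 300 * dl) : 1 ≤ ‖tt ξ‖ * Real.cosh (S - (KK ξ).re) := by
  have := roof_low (t := tt ξ) (u := u) (η := 3 / 10 ^ 22) (e := (KK ξ).re - nu * (om ξ).im)
    dl_pos (by rw [dl]; norm_num) (by rw [dl]; norm_num) hY (norm_tt_lt h).le
    (by rw [← hu, norm_sub_rev]; exact om_main h hx) ((K_main h hx).trans (by norm_num)) h1 h2
  rw [← Real.cosh_neg]
  refine this.trans (le_of_eq ?_)
  congr 2
  rw [hu]
  simp [nu]
  ring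

theorem not_floor (h : ξ ∈ Strip) (hx : ξ.re ≤ LL) {u : ℂ} (hu : om ξ = -(12 / 13 * I) + u)
    (hY : |u.im| ≤ 1 / 12) {S : ℝ}
    (h1 : -(S - (nu + 169 / 60) * u.im) ≤ 6 / 5 * ‖u‖ ^ 2 + dl / 2)
    (h2 : -(S - (nu + 169 / 60) * u.im) ≤ 300 * dl) :
    1 ≤ ‖tt ξ‖ * Real.cosh (S - (KK ξ).re) := by
  have := roof_low (t := -tt ξ) (u := -u) (η := 3 / 10 ^ 22) (e := -((KK ξ).re - nu * (om ξ).im))
    dl_pos (by rw [dl]; norm_num) (by rw [dl]; norm_num) (by simpa using hY)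
    (by simpa using (norm_tt_lt h).le)
    (by
      refine le_of_eq_of_le ?_ (om_main h hx)
      rw [hu]; congr 1; ring)
    (by rw [abs_neg]; exact (K_main h hx).trans (by norm_num)) (by rwa [norm_neg]) h2
  rw [norm_neg] at this
  refine this.trans (le_of_eq ?_)
  congr 2
  rw [hu]
  simp [nu]
  ring

theorem main_bd (h : ξ ∈ Strip) (hx : ξ.re ≤ LL) :
    |(om ξ).re| ≤ 1001 / 1000 ∧ |(om ξ).im| ≤ 1001 / 1000 := by
  have : ‖om ξ‖ ≤ 1001 / 1000 := by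
    linarith [norm_sub_norm_le (om ξ) (tt ξ), om_main h hx, norm_tt_lt h]
  exact ⟨(abs_re_le_norm _).trans this, (abs_im_le_norm _).trans this⟩

theorem fin_im (h : ξ ∈ Strip) (hx : LL ≤ ξ.re) :
    -(1 / 100) ≤ (om ξ).im ∧ (om ξ).im ≤ 101 / 100 := by
  rcases le_total ξ.re (2 * LL) with h2 | h2
  · obtain ⟨r, a, b, c, -⟩ := om_seg h hx (by linarith [LL_eq])
    have h1 := abs_le.1 ((abs_im_le_norm _).trans c)
    obtain ⟨-, -, d3, d4⟩ := dd_bd
    simp only [sub_im, add_im, one_im, mul_im, ofReal_re, ofReal_im] at h1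
    constructor <;> nlinarith [h1.1, h1.2]
  · have := abs_le.1 (om_Y h h2)
    constructor <;> linarith [this.1, this.2]

theorem thin (h : ξ ∈ Strip) (hx : LL ≤ ξ.re) {y : ℝ} (c : ‖tt ξ‖ * Real.cosh y < 1) :
    |y| ≤ 1 / 10 ^ 22 :=
  abs_le_of_thin (by norm_num) (by norm_num) ((tt_thin h hx).trans (by norm_num)) c

theorem norm_u (h : ξ ∈ Strip) (hx : LL ≤ ξ.re) : ‖om ξ - 12 / 13 * I‖ ^ 2
    = ‖exp (2 * Real.pi * I * ((vv ξ).re + (vv ξ).im * I)) - 1‖ ^ 2 / 1600 := by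
  rw [re_add_im, om_eq h hx, add_sub_cancel_left, norm_div, Complex.norm_ofNat]; ring

theorem hn_close (h : ξ ∈ Strip) (hx : 5 * LL ≤ ξ.re) :
    |hn (1 / 10 ^ 5) (vv ξ).re (vv ξ).im - hn (1 / 10 ^ 5) (vh ξ).re (vh ξ).im| ≤ 1 / 10 ^ 22 ∧
    |(vv ξ).re| ≤ 1 + 1006 / 10 ^ 6 ∧ |(vv ξ).im - 1 / 10 ^ 5 * (vv ξ).re| ≤ 50301 / 10 ^ 10 := by
  have c1 := (abs_re_le_norm _).trans (vv_close h hx)
  have c2 := (abs_im_le_norm _).trans (vv_close h hx)
  rw [sub_re] at c1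
  rw [sub_im] at c2
  obtain ⟨a, b⟩ := vh_bd h
  have := hn_lip (s := 1 / 10 ^ 5) (p := (vv ξ).re) (q := (vv ξ).im) (p' := (vh ξ).re)
    (q' := (vh ξ).im) (by norm_num) le_rfl
  rw [abs_le] at c1 c2 a b
  refine ⟨(this ?_ ?_ ?_ ?_).trans ?_, ?_, ?_⟩
  iterate 4 rw [abs_le]; constructor <;> linarith [a.1, a.2, b.1, b.2, c1.1, c1.2, c2.1, c2.2]
  · linarith [abs_le.2 c1, abs_le.2 c2]
  all_goals rw [abs_le]; constructor <;> linarith [a.1, a.2, b.1, b.2, c1.1, c1.2, c2.1, c2.2]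

theorem bowl (h : ξ ∈ Strip) (hx : 4 * LL ≤ ξ.re) :
    |hn (1 / 10 ^ 5) (vh ξ).re (vh ξ).im / 1600| ≤ 6 / 5 * ‖om ξ - 12 / 13 * I‖ ^ 2 + dl / 3 ∧
    |hn (1 / 10 ^ 5) (vh ξ).re (vh ξ).im / 1600| ≤ 200 * dl := by
  obtain ⟨a, b⟩ := vh_bd h
  have h1 := abs_hn_le (s := 1 / 10 ^ 5) (p := (vh ξ).re) (q := (vh ξ).im) (by norm_num) le_rfl
    (by linarith) (by linarith)
  rw [abs_div, abs_of_pos (by norm_num : (0 : ℝ) < 1600), norm_u h (by linarith [LL_eq]), dl]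
  refine ⟨?_, by linarith⟩
  rcases le_total ξ.re (6 * LL) with h6 | h6
  · have c := abs_le.1 (vv_corr h (by linarith [LL_eq]) h6)
    have d := abs_le.1 (vh_start h h6)
    have e := abs_le.1 ((abs_im_le_norm _).trans (lg_small h (by linarith [LL_eq])))
    have := far_le (s := 1 / 10 ^ 5) (p := (vv ξ).re) (q := (vv ξ).im) (by norm_num) le_rfl (-1)
      (by rw [le_abs]; right; push_cast; linarith [c.2])
      (by rw [abs_le]; push_cast; constructor <;> linarith [c.1, c.2])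
      (by linarith [vv_im h, (abs_le.1 b).2, d.2, e.2])
    linarith
  · obtain ⟨c, d, e⟩ := hn_close h (by linarith [LL_eq])
    have := abs_hn_le_bowl (s := 1 / 10 ^ 5) (p := (vv ξ).re) (q := (vv ξ).im) (by norm_num) le_rfl
      (by linarith) (by linarith)
    have := abs_sub_abs_le_abs_sub (hn (1 / 10 ^ 5) (vh ξ).re (vh ξ).im)
      (hn (1 / 10 ^ 5) (vv ξ).re (vv ξ).im)
    rw [abs_sub_comm] at c
    linarith

theorem lens (h : ξ ∈ Strip) (h' : ξ' ∈ Strip) (hx : ξ.re ≤ LL) (hx' : ξ'.re ≤ LL) {n : ℤ}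
    (hn : 1 ≤ n) (e : om ξ' = om ξ + 24 / 13 * I * n) {S : ℝ}
    (c : ‖tt ξ‖ * Real.cosh (S - (KK ξ).re) < 1) (c' : ‖tt ξ'‖ * Real.cosh (S - (KK ξ').re) < 1) :
    False := by
  have a := abs_le.1 (main_bd h hx).2
  have b := abs_le.1 (main_bd h' hx').2
  have ei : (om ξ').im = (om ξ).im + 24 / 13 * n := by rw [e]; simp
  have h2 : n < 2 := by
    have : (n : ℝ) < 2 := by linarith [a.1, b.2]
    exact_mod_cast this
  obtain rfl : n = 1 := by omega
  have hY : |(om ξ' - 12 / 13 * I).im| ≤ 1 / 12 := by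
    simp only [Int.cast_one] at ei
    rw [abs_le]; simp; constructor <;> linarith [a.1, b.2]
  have := dl_pos
  rcases le_total (S - (nu + 169 / 60) * (om ξ' - 12 / 13 * I).im) 0 with h0 | h0
  · exact c'.not_ge (not_roof h' hx' (by ring) hY (h0.trans (by positivity)) (by linarith))
  · exact c.not_ge (not_floor h hx (by rw [e]; push_cast; ring) hY
      ((neg_nonpos.2 h0).trans (by positivity)) (by linarith))

theorem cross (h : ξ ∈ Strip) (h' : ξ' ∈ Strip) (hx : ξ.re ≤ LL) (hx' : LL ≤ ξ'.re) {n : ℤ}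
    (e : om ξ' = om ξ + 24 / 13 * I * n) {S : ℝ}
    (c : ‖tt ξ‖ * Real.cosh (S - (KK ξ).re) < 1) (c' : ‖tt ξ'‖ * Real.cosh (S - (KK ξ').re) < 1) :
    ξ = ξ' := by
  obtain ⟨a, a'⟩ := main_bd h hx
  rw [abs_le] at a a'
  have b := fin_im h' hx'
  have ei : (om ξ').im = (om ξ).im + 24 / 13 * n := by rw [e]; simp
  have er : (om ξ').re = (om ξ).re := by rw [e]; simp
  have h2 : n < 2 := by
    have : (n : ℝ) < 2 := by linarith [a'.1, b.2]
    exact_mod_cast this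
  have h3 : -1 < n := by
    have : (-1 : ℝ) < n := by linarith [a'.2, b.1]
    exact_mod_cast this
  rcases le_total ξ'.re (4 * LL) with h4 | h4
  · obtain ⟨r, r0, r1, hr, hr'⟩ := om_seg h' hx' h4
    have s1 := abs_le.1 ((abs_re_le_norm _).trans hr)
    have s2 := abs_le.1 ((abs_im_le_norm _).trans hr)
    obtain ⟨d1, -, -, d4⟩ := dd_bd
    simp only [sub_im, add_im, one_im, mul_im, sub_re, add_re, one_re, mul_re, ofReal_re,
      ofReal_im] at s1 s2
    have r8 : r < 1 / 10 := by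
      by_contra hc
      nlinarith [s1.1, a.2]
    obtain rfl | rfl : n = 0 ∨ n = 1 := by omega
    · refine (inj_alpha ⟨h', ?_⟩ ⟨h, hx.trans h01⟩ (by simpa using e)).symm
      by_contra hc
      linarith [hr' (not_le.1 hc).le]
    · simp only [Int.cast_one] at ei
      nlinarith [s2.2, a'.1]
  · exfalso
    have hY : |(om ξ' - 12 / 13 * I).im| ≤ 1 / 12 := by
      simpa using om_Y h' (by linarith [LL_eq])
    have t := abs_le.1 (thin h' hx' c')
    have k := abs_le.1 (K_fin h' h4)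
    obtain ⟨b1, b2⟩ := bowl h' h4
    rw [abs_le] at b1 b2
    have e1 : (om ξ' - 12 / 13 * I).im = (om ξ').im - 12 / 13 := by simp
    have d : dl = 1 / (16 * 10 ^ 12) := rfl
    obtain rfl | rfl : n = 0 ∨ n = 1 := by omega
    · refine c.not_ge (not_roof h hx (by rw [e]; push_cast; ring) hY ?_ ?_) <;> rw [e1] <;>
        linarith [t.2, k.2, b1.2, b2.2]
    · refine c.not_ge (not_floor h hx (by rw [e]; push_cast; ring) hY ?_ ?_) <;> rw [e1] <;>
        linarith [t.1, k.1, b1.1, b2.1]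

theorem spiral (h : ξ ∈ Strip) (h' : ξ' ∈ Strip) (hx : LL ≤ ξ.re) (hx' : LL ≤ ξ'.re) {k : ℤ}
    (hk : 1 ≤ k) (e : vv ξ' = vv ξ + k) (eo : om ξ' = om ξ) {S : ℝ}
    (c : ‖tt ξ‖ * Real.cosh (S - (KK ξ).re) < 1) (c' : ‖tt ξ'‖ * Real.cosh (S - (KK ξ').re) < 1) :
    False := by
  have er : (vv ξ').re = (vv ξ).re + k := by rw [e]; simp
  have ei : (vv ξ').im = (vv ξ).im := by rw [e]; simp
  have k1 : (1 : ℝ) ≤ k := by exact_mod_cast hk
  obtain ⟨a, a'⟩ := vh_bd h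
  rw [abs_le] at a a'
  have b := abs_le.1 (vv_re h)
  have x6 : 6 * LL ≤ ξ'.re := by
    by_contra hc
    have b1 := abs_le.1 (vh_start h' (not_le.1 hc).le)
    have b2 := abs_le.1 (vv_re h')
    have b3 := abs_le.1 (lg_re h hx)
    have b4 := abs_le.1 (lg_re h' hx')
    linarith [a.1, b.1, b1.2, b2.2, b3.1, b4.2]
  have x5' : 5 * LL ≤ ξ'.re := by linarith [LL_eq]
  have x4 : 4 * LL ≤ ξ.re := by
    by_contra hc
    obtain ⟨r, r0, -, hr, -⟩ := om_seg h hx (not_le.1 hc).le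
    have s1 := abs_le.1 ((abs_re_le_norm _).trans hr)
    have s2 := abs_le.1 ((abs_re_le_norm _).trans (om_fin h' x5'))
    simp only [eo, ct_eq, sub_re, add_re, one_re, mul_re, ofReal_re, ofReal_im] at s1 s2
    nlinarith [s1.1, s2.2, dd_bd.1]
  have l := lg_small h (by linarith [LL_eq])
  have l1 := abs_le.1 ((abs_re_le_norm _).trans l)
  have l2 := abs_le.1 ((abs_im_le_norm _).trans l)
  have j := vv_im h
  obtain ⟨g1, g2, g3⟩ := hn_close h' x5'
  rw [abs_le] at g1 g2 g3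
  have h2 : k < 2 := by
    have : (k : ℝ) < 2 := by linarith [a'.2, b.1, l1.1, l2.2, g3.1]
    exact_mod_cast this
  obtain rfl : k = 1 := by omega
  simp only [Int.cast_one] at er
  have x5 : 5 * LL ≤ ξ.re := by
    by_contra hc
    linarith [vh_j_small h (not_le.1 hc).le, b.1, l1.1, l2.2, g3.1]
  obtain ⟨f1, f2, f3⟩ := hn_close h x5
  rw [abs_le] at f1 f2 f3
  have o := hn_order (s := 1 / 10 ^ 5) (p := (vv ξ).re) (q := (vv ξ).im) (by norm_num) le_rfl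
    (by rw [abs_le]; constructor <;> linarith [f2.1, g2.2])
    (by rw [abs_le]; constructor <;> linarith [f3.2, g3.1])
  rw [er, ei] at g1
  have t := abs_le.1 (thin h hx c)
  have t' := abs_le.1 (thin h' hx' c')
  have k := abs_le.1 (K_fin h x4)
  have k' := abs_le.1 (K_fin h' (by linarith [LL_eq]))
  rw [eo] at k'
  linarith [t.1, t'.2, k.2, k'.1, f1.1, g1.2]

theorem om_inj (h : ξ ∈ Strip) (h' : ξ' ∈ Strip) {n : ℤ} (e : om ξ' = om ξ + 24 / 13 * I * n)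
    {S : ℝ} (c : ‖tt ξ‖ * Real.cosh (S - (KK ξ).re) < 1)
    (c' : ‖tt ξ'‖ * Real.cosh (S - (KK ξ').re) < 1) : ξ = ξ' := by
  have e' : om ξ = om ξ' + 24 / 13 * I * (-n : ℤ) := by rw [e]; push_cast; ring
  rcases le_total ξ.re LL with hx | hx <;> rcases le_total ξ'.re LL with hx' | hx'
  · rcases lt_trichotomy n 0 with h0 | rfl | h0
    · exact (lens h' h hx' hx (by omega) e' c' c).elim
    · exact (inj_alpha ⟨h', hx'.trans h01⟩ ⟨h, hx.trans h01⟩ (by simpa using e)).symm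
    · exact (lens h h' hx hx' (by omega) e c c').elim
  · exact cross h h' hx hx' e c c'
  · exact (cross h' h hx' hx e' c' c).symm
  · have a := fin_im h hx
    have b := fin_im h' hx'
    have ei : (om ξ').im = (om ξ).im + 24 / 13 * n := by rw [e]; simp
    have h2 : n < 1 := by
      have : (n : ℝ) < 1 := by linarith [a.1, b.2]
      exact_mod_cast this
    have h3 : -1 < n := by
      have : (-1 : ℝ) < n := by linarith [a.2, b.1]
      exact_mod_cast this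
    obtain rfl : n = 0 := by omega
    have eo : om ξ' = om ξ := by simpa using e
    have e1 : exp (2 * Real.pi * I * vv ξ') = exp (2 * Real.pi * I * vv ξ) := by
      have := eo
      rw [om_eq h hx, om_eq h' hx'] at this
      linear_combination 40 * this
    obtain ⟨k, hk⟩ := exp_eq_exp_iff_exists_int.1 e1
    have e2 : vv ξ' = vv ξ + k := mul_left_cancel₀ tp_ne (by rw [hk]; ring)
    rcases lt_trichotomy k 0 with h0 | rfl | h0
    · exact (spiral h' h hx' hx (k := -k) (by omega) (by rw [e2]; push_cast; ring) eo.symm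
        c' c).elim
    · exact (inj_beta ⟨h', hx'⟩ ⟨h, hx⟩ (by simpa using e2)).symm
    · exact (spiral h h' hx hx' (by omega) e2 eo c c').elim

end

end Pool.Agent.MP_2790d1_an

end

-- part MP_2790d1_an.FChart
section

/-! The main sheets and the layers of the finger, in the coordinate of the disc. -/

open Complex Set Metric

namespace Pool.Agent.MP_2790d1_an

theorem exists_section {C D : Set ℂ} (hC : IsCompact C) {f : ℂ → ℂ} {g : ℂ → ℝ}
    (hf : ContinuousOn f C) (hg : ContinuousOn g C) (hi : InjOn f C) (hD : D ⊆ f '' C) :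
    ∃ σ : ℂ → ℝ, ContinuousOn σ D ∧ ∀ z ∈ D, ∃ ξ ∈ C, f ξ = z ∧ σ z = g ξ := by
  have key : ∀ z ∈ D, Function.invFunOn f C z ∈ C ∧ f (Function.invFunOn f C z) = z :=
    fun z hz => Function.invFunOn_pos (hD hz)
  refine ⟨fun z => g (Function.invFunOn f C z), ?_, fun z hz => ⟨_, (key z hz).1, (key z hz).2, rfl⟩⟩
  rw [continuousOn_iff_isClosed]
  intro F hF
  have h1 : IsCompact (C ∩ g ⁻¹' F) :=
    hC.of_isClosed_subset (hg.preimage_isClosed_of_isClosed hC.isClosed hF) inter_subset_left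
  refine ⟨f '' (C ∩ g ⁻¹' F), (h1.image_of_continuousOn (hf.mono inter_subset_left)).isClosed, ?_⟩
  ext z
  constructor
  · rintro ⟨a, b⟩
    exact ⟨⟨_, ⟨(key z b).1, a⟩, (key z b).2⟩, b⟩
  · rintro ⟨⟨ξ, ⟨a, a'⟩, e⟩, b⟩
    refine ⟨?_, b⟩
    have := hi (key z b).1 a ((key z b).2.trans e.symm)
    rwa [mem_preimage, this]

theorem main_chart {y : ℂ} (hy : ‖y‖ ≤ 99 / 100) : ∃ t : ℂ, ‖t - y‖ ≤ 1 / 10 ^ 20 ∧
    om (xi t) = y ∧ |(KK (xi t)).re - nu * y.im| ≤ 1 / 10 ^ 20 := by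
  have hb : ∀ z ∈ closedBall y (1 / 10 ^ 20), ‖z‖ ≤ 999 / 1000 := by
    intro z hz
    rw [mem_closedBall_iff_norm] at hz
    linarith [norm_sub_norm_le z y]
  have hm : ∀ z ∈ closedBall y (1 / 10 ^ 20), ‖z‖ < 1 ∧ (xi z).re ≤ LL := fun z hz =>
    ⟨by linarith [hb z hz], by linarith [xi_re_le (hb z hz), LL_eq]⟩
  obtain ⟨t, ht, e⟩ := exists_eq_of_near (U := ball 0 1) isOpen_ball (f := fun t => om (xi t))
    (fun z hz => ((om_hasDerivAt (xi_mem (mem_ball_zero_iff.1 hz))).comp z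
      (xi_hasDerivAt (mem_ball_zero_iff.1 hz))).differentiableAt.differentiableWithinAt)
    (A := 1) (B := 0) (z₀ := y) (r := 1 / 10 ^ 20) (e := 3 / 10 ^ 22) (by norm_num)
    (fun z hz => mem_ball_zero_iff.2 (hm z hz).1)
    (fun z hz => by
      have := om_main (xi_mem (hm z hz).1) (hm z hz).2
      rw [tt_xi (hm z hz).1] at this
      simpa using this) (by norm_num)
  rw [one_mul, add_zero] at e
  refine ⟨t, mem_closedBall_iff_norm.1 ht, e, ?_⟩
  have := K_main (xi_mem (hm t ht).1) (hm t ht).2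
  rw [show om (xi t) = y from e] at this
  exact this.trans (by norm_num)

/-- a compact rectangle in the strip -/
def Rect : Set ℂ :=
  Icc (6 * LL) (6 * LL + L3) ×ℂ Icc (-(Real.pi / 2 - 1 / 20000)) (Real.pi / 2 - 1 / 20000)

theorem rect_sub {ξ : ℂ} (h : ξ ∈ Rect) : ξ ∈ Strip ∧ 6 * LL ≤ ξ.re :=
  ⟨lt_of_le_of_lt (abs_le.2 h.2) (by linarith), h.1.1⟩

theorem rib_sub {v : ℂ} (hv : v ∈ Rib) : ∃ ξ ∈ Rect, 10 ^ 5 * vv ξ = v := by
  have nA : A0 ≤ ‖AA‖ := by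
    have := re_le_norm (AA * 1)
    rw [AA_mul_re] at this
    simpa using this
  have A0' : AA ≠ 0 := norm_pos_iff.1 (A0_pos.trans_le nA)
  obtain ⟨y, hy⟩ : ∃ y, AA * y = v / 10 ^ 5 - vs := ⟨_, mul_div_cancel₀ _ A0'⟩
  have e1 := AA_mul_re y
  have e2 := AA_mul_im y
  have e3 : v / 10 ^ 5 = ⟨v.re / 10 ^ 5, v.im / 10 ^ 5⟩ := by
    apply Complex.ext <;> simp [div_re, div_im] <;> norm_num <;> ring
  rw [hy, e3, vs_eq] at e1 e2
  simp only [sub_re, sub_im] at e1 e2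
  obtain ⟨a, b⟩ := hv
  rw [abs_lt] at a b
  have p := A0_pos
  have pi := Real.pi_gt_three
  have i1 : |y.im| ≤ Real.pi / 2 - 149 / 10 ^ 5 := by
    have : |y.im| * (1006 / 10 ^ 8) ≤ Real.pi * (5025 / 10 ^ 9) := by
      have j : |A0 * (1 + 1 / 10 ^ 10) * y.im| ≤ 5025 / 10 ^ 9 := by
        rw [abs_le]; constructor <;> linarith [b.1, b.2]
      rw [abs_mul, abs_of_pos (by positivity)] at j
      rw [← A0_mul]
      nlinarith
    linarith
  rw [abs_le] at i1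
  have p4 := Real.pi_le_four
  have i2 : 201 ≤ y.re := by
    by_contra hc
    nlinarith [A0_le, a.1, i1.1]
  have i3 : y.re ≤ L3 - 201 := by
    by_contra hc
    nlinarith [A0_le, a.2, i1.2, A0_L3]
  have hb : ∀ z ∈ closedBall ((6 * LL : ℝ) + y) (14 / 10000), z ∈ Rect ∧
      6 * LL + 200 ≤ z.re ∧ z.re ≤ 6 * LL + L3 - 200 := by
    intro z hz
    rw [mem_closedBall_iff_norm] at hz
    have c1 := abs_le.1 ((abs_re_le_norm _).trans hz)
    have c2 := abs_le.1 ((abs_im_le_norm _).trans hz)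
    simp only [sub_re, add_re, ofReal_re, sub_im, add_im, ofReal_im] at c1 c2
    refine ⟨⟨⟨?_, ?_⟩, ?_, ?_⟩, ?_, ?_⟩ <;> linarith [c1.1, c1.2, c2.1, c2.2, i1.1, i1.2]
  have ex : ∀ x : ℝ, x ≤ -25 → Real.exp x ≤ 1 / 10 ^ 7 := by
    intro x hx
    have h1 : (2 : ℝ) ^ 25 ≤ Real.exp 1 ^ 25 :=
      pow_le_pow_left₀ (by norm_num) (by linarith [Real.add_one_le_exp 1]) 25
    rw [← Real.exp_nat_mul] at h1
    refine (Real.exp_le_exp.2 hx).trans ?_
    rw [Real.exp_neg, inv_le_comm₀ (Real.exp_pos _) (by norm_num)]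
    norm_num at h1 ⊢
    linarith
  obtain ⟨ξ, hξ, e⟩ := exists_eq_of_near (U := Strip ∩ {ξ | LL < ξ.re})
    (isOpen_strip.inter (isOpen_lt continuous_const continuous_re)) (f := vv)
    (fun z hz => (vv_hasDerivAt hz.1 (le_of_lt hz.2)).differentiableAt.differentiableWithinAt)
    (A := AA) (B := vs - AA * (6 * LL : ℝ)) (z₀ := (6 * LL : ℝ) + y) (r := 14 / 10000)
    (e := 2 / 10 ^ 11) (by norm_num)
    (fun z hz => ⟨(rect_sub (hb z hz).1).1, by
      have := (hb z hz).2.1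
      show LL < z.re
      linarith [LL_eq]⟩)
    (fun z hz => by
      obtain ⟨c1, c2, c3⟩ := hb z hz
      have s := (rect_sub c1).1
      have d1 := vv_close s (by linarith [LL_eq])
      have d2 := norm_ramp_sub_lin (a := 6 * LL) (b := 6 * LL + L3) s (by linarith) (by linarith)
      have d3 := ex ((6 * LL - z.re) / 8) (by linarith)
      have d4 := ex ((z.re - (6 * LL + L3)) / 8) (by linarith)
      have e : vv z - (AA * z + (vs - AA * (6 * LL : ℝ)))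
          = vv z - vh z + AA * (r2 z - (z - (6 * LL : ℝ))) := by rw [vh]; ring
      rw [e]
      refine (norm_add_le _ _).trans ?_
      rw [norm_mul, r2]
      have := mul_le_mul norm_AA (d2.trans (show _ ≤ 28 / 10 ^ 7 by linarith)) (norm_nonneg _)
        (by norm_num)
      linarith)
    (by linarith [A0_ge])
  refine ⟨ξ, (hb ξ hξ).1, ?_⟩
  rw [e, mul_add AA, hy]
  ring

theorem finger : ∃ ω K : ℂ → ℂ, DifferentiableOn ℂ ω (ball 0 1) ∧ DifferentiableOn ℂ K (ball 0 1) ∧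
    (∀ t ∈ ball (0 : ℂ) 1, deriv ω t ≠ 0) ∧
    (∀ t ∈ ball (0 : ℂ) 1, ∀ t' ∈ ball (0 : ℂ) 1, ∀ (S : ℝ) (n : ℤ),
      ω t' = ω t + 24 / 13 * I * n → ‖t‖ * Real.cosh (S - (K t).re) < 1 →
        ‖t'‖ * Real.cosh (S - (K t').re) < 1 → t = t') ∧
    (∀ y : ℂ, ‖y‖ ≤ 99 / 100 → ∃ t : ℂ, ‖t - y‖ ≤ 1 / 10 ^ 20 ∧ ω t = y ∧
      |(K t).re - nu * y.im| ≤ 1 / 10 ^ 20) ∧
    ∃ ρ < 1, ∃ σ : ℂ → ℝ, ContinuousOn σ Rib ∧ ∀ v ∈ Rib, |σ v - hv v| ≤ dl / 100 ∧
      ∃ t : ℂ, ‖t‖ ≤ ρ ∧ ω t = 12 / 13 * I + (ee v - 1) / 40 ∧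
        (K t).re = (nu + 169 / 60) * ((ee v - 1) / 40).im + σ v := by
  have d1 : ∀ t ∈ ball (0 : ℂ) 1, HasDerivAt (fun t => om (xi t)) (od (xi t) * (2 / (1 - t ^ 2))) t :=
    fun t ht => (om_hasDerivAt (xi_mem (mem_ball_zero_iff.1 ht))).comp t
      (xi_hasDerivAt (mem_ball_zero_iff.1 ht))
  refine ⟨fun t => om (xi t), fun t => KK (xi t),
    fun t ht => (d1 t ht).differentiableAt.differentiableWithinAt,
    fun t ht => ((KK_differentiableAt (xi_mem (mem_ball_zero_iff.1 ht))).comp t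
      (xi_hasDerivAt (mem_ball_zero_iff.1 ht)).differentiableAt).differentiableWithinAt,
    fun t ht => ?_, fun t ht t' ht' S n e c c' => ?_, fun y hy => main_chart hy, ?_⟩
  · rw [(d1 t ht).deriv]
    rw [mem_ball_zero_iff] at ht
    refine mul_ne_zero (od_ne (xi_mem ht)) (div_ne_zero two_ne_zero fun h => ?_)
    have := pow_lt_one₀ (norm_nonneg _) ht two_ne_zero
    rw [← norm_pow, ← sub_eq_zero.1 h, norm_one] at this
    exact lt_irrefl _ this
  · rw [mem_ball_zero_iff] at ht ht'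
    rw [← tt_xi ht, ← tt_xi ht',
      om_inj (xi_mem ht) (xi_mem ht') e (by rwa [tt_xi ht]) (by rwa [tt_xi ht'])]
  · have hC : IsCompact Rect := isCompact_Icc.reProdIm isCompact_Icc
    have hL : ∀ ξ ∈ Rect, LL ≤ ξ.re := fun ξ h => by linarith [(rect_sub h).2, LL_eq]
    have c1 : ContinuousOn tt Rect := fun ξ h =>
      (tt_hasDerivAt (rect_sub h).1).continuousAt.continuousWithinAt
    have c2 : ContinuousOn vv Rect := fun ξ h =>
      (vv_hasDerivAt (rect_sub h).1 (hL ξ h)).continuousAt.continuousWithinAt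
    have c3 : ContinuousOn om Rect := fun ξ h =>
      (om_hasDerivAt (rect_sub h).1).continuousAt.continuousWithinAt
    have c4 : ContinuousOn KK Rect := fun ξ h =>
      (KK_differentiableAt (rect_sub h).1).continuousAt.continuousWithinAt
    obtain ⟨ρ, hρ, hρ'⟩ := exists_lt_subset_ball (x := (0 : ℂ)) (r := 1)
      (hC.image_of_continuousOn c1).isClosed (by
        rintro _ ⟨ξ, h, rfl⟩
        exact mem_ball_zero_iff.2 (norm_tt_lt (rect_sub h).1))
    obtain ⟨σ, σc, hσ⟩ := exists_section (D := Rib) hC (f := fun ξ => 10 ^ 5 * vv ξ)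
      (g := fun ξ => (KK ξ).re - (nu + 169 / 60) * ((om ξ).im - 12 / 13))
      (continuousOn_const.mul c2) ((continuous_re.comp_continuousOn c4).sub
        (continuousOn_const.mul ((continuous_im.comp_continuousOn c3).sub continuousOn_const)))
      (fun ξ h ξ' h' e => inj_beta ⟨(rect_sub h).1, hL ξ h⟩ ⟨(rect_sub h').1, hL ξ' h'⟩
        (mul_left_cancel₀ (by norm_num) e)) fun v hv => rib_sub hv
    refine ⟨ρ, hρ, σ, σc, fun v hv => ?_⟩
    obtain ⟨ξ, h, rfl, e⟩ := hσ v hv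
    obtain ⟨s, x6⟩ := rect_sub h
    have e1 : om ξ = 12 / 13 * I + (ee (10 ^ 5 * vv ξ) - 1) / 40 := by
      rw [om_eq s (hL ξ h), ee, cc]
      congr 4
      ring
    refine ⟨?_, tt ξ, (mem_ball_zero_iff.1 (hρ' ⟨ξ, h, rfl⟩)).le, by simp only [xi_tt s, e1], ?_⟩
    · have a := abs_le.1 (K_fin s (by linarith [LL_eq]))
      have b := abs_le.1 (hn_close s (by linarith [LL_eq])).1
      have e2 : (10 ^ 5 * vv ξ : ℂ) = ((10 ^ 5 : ℝ) : ℂ) * vv ξ := by push_cast; rfl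
      rw [e, Pool.Agent.MP_2790d1_an.hv, e2, re_ofReal_mul, im_ofReal_mul,
        mul_div_cancel_left₀ _ (by norm_num), mul_div_cancel_left₀ _ (by norm_num), abs_le, dl]
      constructor <;> linarith [a.1, a.2, b.1, b.2]
    · have : ((ee (10 ^ 5 * vv ξ) - 1) / 40).im = (om ξ).im - 12 / 13 := by rw [e1]; simp
      simp only [xi_tt s, e, this]
      ring

end Pool.Agent.MP_2790d1_an

end

-- part MP_2790d1_an.Obstruct
section

/-! Entire curves avoiding the sheets have constant base coordinate. -/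

open Complex Set Metric Filter

namespace Pool.Agent.MP_2790d1_an

/-- `π / b` -/
noncomputable def MM : ℂ := (13 * Real.pi / 12 : ℝ)

theorem MM_ne : MM ≠ 0 := ofReal_ne_zero.2 (by have := Real.pi_pos; positivity)

theorem exp_MM_add (u : ℂ) : exp (MM * (12 / 13 * I + u)) = -exp (MM * u) := by
  have : MM * (12 / 13 * I + u) = MM * u + Real.pi * I := by rw [MM]; push_cast; ring
  rw [this, exp_add_pi_mul_I]

theorem exp_MM_sub (u : ℂ) : exp (MM * (-(12 / 13 * I) + u)) = -exp (MM * u) := by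
  have : MM * (-(12 / 13 * I) + u) = MM * u - Real.pi * I := by rw [MM]; push_cast; ring
  rw [this, exp_sub_pi_mul_I]

theorem log_MM {u : ℂ} (h : ‖u‖ ≤ 1 / 16) :
    exp (MM * u) ∈ slitPlane ∧ log (exp (MM * u)) / MM = u := by
  have a := abs_le.1 ((abs_im_le_norm u).trans h)
  have p := Real.pi_pos
  have h1 : -Real.pi < (MM * u).im := by rw [MM, im_ofReal_mul]; nlinarith [a.1]
  have h2 : (MM * u).im < Real.pi := by rw [MM, im_ofReal_mul]; nlinarith [a.2]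
  have hl := log_exp h1 h2.le
  refine ⟨?_, by rw [hl, mul_div_cancel_left₀ _ MM_ne]⟩
  rw [mem_slitPlane_iff_arg]
  refine ⟨?_, exp_ne_zero _⟩
  rw [← log_im, hl]; exact h2.ne

theorem exp_MM_log {z : ℂ} (h : z ≠ 0) : exp (MM * (log z / MM)) = z := by
  rw [mul_div_cancel₀ _ MM_ne, exp_log h]

section
variable {ω K : ℂ → ℂ}

theorem roof_chart (main : ∀ y : ℂ, ‖y‖ ≤ 99 / 100 → ∃ t : ℂ, ‖t - y‖ ≤ 1 / 10 ^ 20 ∧ ω t = y ∧
      |(K t).re - nu * y.im| ≤ 1 / 10 ^ 20) {u : ℂ} (h : ‖u‖ ≤ 1 / 16) :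
    ∃ t : ℂ, ‖t‖ ≤ 99 / 100 ∧ exp (MM * ω t) = -exp (MM * u) ∧
      ‖t - (12 / 13 * I + u)‖ ≤ 1 / 10 ^ 20 ∧
      |(K t).re - (Real.log (3 / 2) + dl + nu * u.im)| ≤ 1 / 10 ^ 20 := by
  have h1 : ‖12 / 13 * I + u‖ ≤ 989 / 1000 := by
    have := norm_add_le (12 / 13 * I) u
    norm_num at this ⊢
    linarith
  obtain ⟨t, a, b, c⟩ := main _ (h1.trans (by norm_num))
  refine ⟨t, by linarith [norm_sub_norm_le t (12 / 13 * I + u)], by rw [b, exp_MM_add], a,
    le_of_eq_of_le ?_ c⟩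
  congr 2
  simp [nu]
  ring

theorem floor_chart (main : ∀ y : ℂ, ‖y‖ ≤ 99 / 100 → ∃ t : ℂ, ‖t - y‖ ≤ 1 / 10 ^ 20 ∧ ω t = y ∧
      |(K t).re - nu * y.im| ≤ 1 / 10 ^ 20) {u : ℂ} (h : ‖u‖ ≤ 1 / 16) :
    ∃ t : ℂ, ‖t‖ ≤ 99 / 100 ∧ exp (MM * ω t) = -exp (MM * u) ∧
      ‖-t - (12 / 13 * I + -u)‖ ≤ 1 / 10 ^ 20 ∧
      |(K t).re - (-(Real.log (3 / 2) + dl) + nu * u.im)| ≤ 1 / 10 ^ 20 := by
  have h1 : ‖-(12 / 13 * I) + u‖ ≤ 989 / 1000 := by
    have := norm_add_le (-(12 / 13 * I)) u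
    norm_num at this ⊢
    linarith
  obtain ⟨t, a, b, c⟩ := main _ (h1.trans (by norm_num))
  refine ⟨t, by linarith [norm_sub_norm_le t (-(12 / 13 * I) + u)], by rw [b, exp_MM_sub],
    le_of_eq_of_le ?_ a, le_of_eq_of_le ?_ c⟩
  · rw [← norm_neg]; congr 1; ring
  · congr 2
    simp [nu]
    ring

theorem cosh_small {t : ℂ} (ht : ‖t‖ ≤ 99 / 100) {e : ℝ} (he : |e| ≤ 1 / 10 ^ 20) :
    ‖t‖ * Real.cosh e ≤ 1 - dl / 10 := by
  have h1 : e ^ 2 / 2 ≤ 1 / 1000 := by nlinarith [sq_abs e, abs_nonneg e]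
  have h2 := (Real.cosh_le_exp_half_sq e).trans (Real.exp_le_exp.2 h1)
  have h3 := Real.abs_exp_sub_one_le (x := 1 / 1000) (by norm_num)
  have h4 := le_abs_self (Real.exp (1 / 1000) - 1)
  have h5 := mul_le_mul ht (show Real.cosh e ≤ 1002 / 1000 by norm_num at *; linarith)
    (Real.cosh_pos e).le (by norm_num)
  rw [dl]
  linarith

theorem centre {v : ℂ} (h1 : |v.re| ≤ 1 / 200) (h2 : |v.im| ≤ 101 / 200) :
    ((ee v - 1) / 40).re ^ 2 ≤ 101 / 10 * dl ∧ ((ee v - 1) / 40).im ^ 2 ≤ dl / 100 := by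
  have := centre_le (s := 1 / 10 ^ 5) (p := v.re / 10 ^ 5) (q := v.im / 10 ^ 5) (by norm_num)
    le_rfl (by rw [abs_div, abs_of_pos (by norm_num : (0 : ℝ) < 10 ^ 5)]; linarith)
    (by rw [abs_div, abs_of_pos (by norm_num : (0 : ℝ) < 10 ^ 5)]; linarith)
  have e : ee v = exp (2 * Real.pi * I * ((v.re / 10 ^ 5 : ℝ) + (v.im / 10 ^ 5 : ℝ) * I)) := by
    rw [ee, cc]
    congr 1
    nth_rewrite 1 [← re_add_im v]
    push_cast
    ring
  rw [← e] at this
  rw [div_ofNat_re, div_ofNat_im, dl, div_pow, div_pow]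
  constructor <;> norm_num at this ⊢ <;> linarith [this.1, this.2]

theorem obstruct (main : ∀ y : ℂ, ‖y‖ ≤ 99 / 100 → ∃ t : ℂ, ‖t - y‖ ≤ 1 / 10 ^ 20 ∧ ω t = y ∧
      |(K t).re - nu * y.im| ≤ 1 / 10 ^ 20) {ρ : ℝ} (hρ : ρ < 1) {σ : ℂ → ℝ}
    (σc : ContinuousOn σ Rib) (lay : ∀ v ∈ Rib, |σ v - hv v| ≤ dl / 100 ∧
      ∃ t : ℂ, ‖t‖ ≤ ρ ∧ ω t = 12 / 13 * I + (ee v - 1) / 40 ∧
        (K t).re = (nu + 169 / 60) * ((ee v - 1) / 40).im + σ v)
    {Q g : ℂ → ℂ} (hQ : Differentiable ℂ Q) {V : Set ℂ} (hVo : IsOpen V)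
    (hg : DifferentiableOn ℂ g V) (g0 : ∀ x ∈ V, g x ≠ 0)
    (hV : ∀ x u, ‖u‖ ≤ 1 / 16 → Q x = exp (MM * u) → x ∈ V)
    (hav : ∀ x ∈ V, ∀ t, ‖t‖ < 1 → exp (MM * ω t) = -Q x →
      max ρ (1 - dl / 10) < ‖t‖ * Real.cosh (Real.log ‖g x‖ - (K t).re))
    {u₀ : ℂ} (hu₀ : ‖u₀‖ < 6 / 100) (hQ₀ : Q 0 = exp (MM * u₀))
    (hS₀ : |Real.log ‖g 0‖ - nu * u₀.im| < Real.log (3 / 2) + dl) :
    ∀ x, Q x = Q 0 ∧ Real.log ‖g x‖ < nu * u₀.im + (Real.log (3 / 2) + dl) := by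
  have nc : ∀ x u, ‖u‖ ≤ 1 / 16 → Q x = exp (MM * u) →
      |Real.log ‖g x‖ - nu * u.im| ≠ Real.log (3 / 2) + dl := by
    intro x u hu e h
    rcases (abs_eq (by linarith [log32.1, dl_pos])).1 h with h | h
    · obtain ⟨t, a, b, -, d⟩ := roof_chart main hu
      have := hav x (hV x u hu e) t (by linarith) (by rw [b, e])
      refine (this.trans_le (cosh_small a ?_)).not_ge (le_max_right _ _)
      rw [abs_sub_comm]
      exact le_of_eq_of_le (by congr 2; linarith) d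
    · obtain ⟨t, a, b, -, d⟩ := floor_chart main hu
      have := hav x (hV x u hu e) t (by linarith) (by rw [b, e])
      refine (this.trans_le (cosh_small a ?_)).not_ge (le_max_right _ _)
      rw [abs_sub_comm]
      exact le_of_eq_of_le (by congr 2; linarith) d
  set U : ℂ → ℂ := fun x => log (Q x) / MM with hU
  set W₀ : Set ℂ := V ∩ Q ⁻¹' slitPlane with hW₀
  have o₀ : IsOpen W₀ := hVo.inter (isOpen_slitPlane.preimage hQ.continuous)
  have Ud : DifferentiableOn ℂ U W₀ :=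
    (hQ.differentiableOn.clog fun x hx => hx.2).div_const MM
  have QU : ∀ x ∈ W₀, Q x = exp (MM * U x) := fun x hx =>
    (exp_MM_log (slitPlane_ne_zero hx.2)).symm
  have UQ : ∀ x u, ‖u‖ ≤ 1 / 16 → Q x = exp (MM * u) → x ∈ W₀ ∧ U x = u := fun x u hu e =>
    ⟨⟨hV x u hu e, by rw [mem_preimage, e]; exact (log_MM hu).1⟩, by
      simp only [hU, e]; exact (log_MM hu).2⟩
  have lc : ContinuousOn (fun x => Real.log ‖g x‖) V :=
    hg.continuousOn.norm.log fun x hx => norm_ne_zero_iff.2 (g0 x hx)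
  have Fc : ContinuousOn (fun x => |Real.log ‖g x‖ - nu * (U x).im|) W₀ :=
    ((lc.mono inter_subset_left).sub
      (continuousOn_const.mul (continuous_im.comp_continuousOn Ud.continuousOn))).abs
  set W : Set ℂ := (W₀ ∩ U ⁻¹' ball 0 (1 / 16)) ∩
    (fun x => |Real.log ‖g x‖ - nu * (U x).im|) ⁻¹' Iio (Real.log (3 / 2) + dl) with hW
  have oW : IsOpen W := (Fc.mono inter_subset_left).isOpen_inter_preimage
    (Ud.continuousOn.isOpen_inter_preimage o₀ isOpen_ball) isOpen_Iio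
  have sW : W ⊆ W₀ := fun x hx => hx.1.1
  have nU : ∀ x ∈ W, ‖U x‖ ≤ 1 / 16 := fun x hx => (mem_ball_zero_iff.1 hx.1.2).le
  have FW : ∀ x ∈ W, |Real.log ‖g x‖ - nu * (U x).im| < Real.log (3 / 2) + dl := fun x hx => hx.2
  have cl : IsClosed {x | x ∈ W ∧ U x ∈ closedBall (0 : ℂ) (6 / 100)} := by
    have c0 : IsClosed (Q ⁻¹' ((fun u => exp (MM * u)) '' closedBall 0 (6 / 100))) :=
      ((isCompact_closedBall _ _).image (by fun_prop)).isClosed.preimage hQ.continuous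
    have := (Fc.mono (by
      rintro x ⟨u, hu, e⟩
      exact (UQ x u ((mem_closedBall_zero_iff.1 hu).trans (by norm_num)) e.symm).1
      )).preimage_isClosed_of_isClosed c0 (isClosed_Iic (a := Real.log (3 / 2) + dl))
    refine (congrArg IsClosed ?_).mp this
    ext x
    constructor
    · rintro ⟨⟨u, hu, e⟩, h⟩
      have hu' := mem_closedBall_zero_iff.1 hu
      obtain ⟨a, b⟩ := UQ x u (hu'.trans (by norm_num)) e.symm
      rw [mem_preimage, mem_Iic, b] at h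
      refine ⟨⟨⟨a, ?_⟩, ?_⟩, b ▸ hu⟩
      · rw [mem_preimage, b, mem_ball_zero_iff]; linarith
      · rw [mem_preimage, mem_Iio, b]
        exact lt_of_le_of_ne h (nc x u (hu'.trans (by norm_num)) e.symm)
    · rintro ⟨a, b⟩
      exact ⟨⟨_, b, (QU x (sW a)).symm⟩, mem_Iic.2 (FW x a).le⟩
  have lg : ∀ x ∈ W, Real.log ‖g x * exp (I * (nu + 169 / 60 : ℝ) * U x)‖
      = Real.log ‖g x‖ - (nu + 169 / 60) * (U x).im := by
    intro x hx
    rw [norm_mul, Real.log_mul (norm_ne_zero_iff.2 (g0 x (sW hx).1))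
      (norm_ne_zero_iff.2 (exp_ne_zero _)), norm_exp, Real.log_exp, mul_assoc, I_mul_re,
      im_ofReal_mul]
    ring
  have d12 : dl ≤ 1 / 10 ^ 12 := by rw [dl]; norm_num
  have dη : 1 / 10 ^ 20 ≤ dl / 100 := by rw [dl]; norm_num
  have key : ∀ x ∈ W, ‖U x‖ < 6 / 100 → deriv U x = 0 := fun x hx h =>
    no_curve oW (Ud.mono sW) (gf := fun x => g x * exp (I * (nu + 169 / 60 : ℝ) * U x))
      ((hg.mono fun x hx => (sW hx).1).mul (((Ud.mono sW).const_mul _).cexp))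
      (fun x hx => mul_ne_zero (g0 x (sW hx).1) (exp_ne_zero _)) cl σc (fun v h => (lay v h).1)
      (fun x hx v h e hc => by
        obtain ⟨t, a, b, d⟩ := (lay v h).2
        have := hav x (sW hx).1 t (by linarith) (by rw [b, exp_MM_add, ← e, QU x (sW hx)])
        rw [lg x hx, e] at hc
        rw [d, ← hc, add_sub_cancel, sub_self, Real.cosh_zero, mul_one] at this
        exact (this.trans_le a).not_ge (le_max_left _ _))
      (fun x hx v e h => by
        by_contra hc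
        rw [lg x hx, not_le] at hc
        obtain ⟨t, a, b, c, d⟩ := roof_chart main (nU x hx)
        have a1 := (abs_re_le_norm _).trans h
        have a2 := abs_le.1 ((abs_im_le_norm _).trans h)
        simp only [add_re, add_im, div_ofNat_re, div_ofNat_im, I_re, I_im, zero_div,
          add_zero] at a1 a2
        obtain ⟨c1, c2⟩ := centre a1 (by rw [abs_le]; constructor <;> linarith [a2.1, a2.2])
        rw [← e] at c1 c2
        have r := roof_up dl_pos d12 dη c1 c2 c d hc.le (by linarith [(abs_lt.1 (FW x hx)).2])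
        have := hav x (sW hx).1 t (by linarith) (by rw [b, QU x (sW hx)])
        rw [← Real.cosh_neg] at this
        refine (this.trans_le (le_of_eq_of_le ?_ r)).not_ge (le_max_right _ _)
        congr 2
        ring)
      (fun x hx v e h => by
        by_contra hc
        rw [lg x hx, not_le] at hc
        obtain ⟨t, a, b, c, d⟩ := floor_chart main (nU x hx)
        have a1 := (abs_re_le_norm _).trans h
        have a2 := abs_le.1 ((abs_im_le_norm _).trans h)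
        simp only [add_re, add_im, div_ofNat_re, div_ofNat_im, I_re, I_im, zero_div,
          add_zero, neg_re, neg_im, abs_neg] at a1 a2
        obtain ⟨c1, c2⟩ := centre a1 (by rw [abs_le]; constructor <;> linarith [a2.1, a2.2])
        rw [← e] at c1 c2
        rw [← abs_neg] at d
        have r := roof_up (u := -U x) (hh := -(Real.log ‖g x‖ - (nu + 169 / 60) * (U x).im))
          dl_pos d12 dη (by simpa using c1) (by simpa using c2) c d (by linarith)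
          (by rw [neg_im]; linarith [(abs_lt.1 (FW x hx)).1])
        have := hav x (sW hx).1 t (by linarith) (by rw [b, QU x (sW hx)])
        refine (this.trans_le (le_of_eq_of_le ?_ r)).not_ge (le_max_right _ _)
        rw [norm_neg, neg_im]
        congr 2
        ring) hx h
  have u16 : ‖u₀‖ ≤ 1 / 16 := by linarith
  obtain ⟨w₀, e₀⟩ := UQ 0 u₀ u16 hQ₀
  have w : (0 : ℂ) ∈ W := ⟨⟨w₀, by rw [mem_preimage, e₀, mem_ball_zero_iff]; linarith⟩, by
    simpa only [mem_preimage, e₀, mem_Iio] using hS₀⟩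
  have ev : deriv Q =ᶠ[nhds 0] 0 := by
    have c := (Ud.differentiableAt (o₀.mem_nhds w₀)).continuousAt.norm.eventually_lt
      continuousAt_const (show ‖U 0‖ < 6 / 100 by rwa [e₀])
    filter_upwards [c, oW.mem_nhds w] with x h hx
    have e : Q =ᶠ[nhds x] fun x => exp (MM * U x) := by
      filter_upwards [o₀.mem_nhds (sW hx)] with y hy using QU y hy
    rw [e.deriv_eq,
      ((Ud.differentiableAt (o₀.mem_nhds (sW hx))).hasDerivAt.const_mul MM).cexp.deriv, key x hx h]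
    simp
  have an : AnalyticOnNhd ℂ (deriv Q) univ :=
    (hQ.differentiableOn.analyticOnNhd isOpen_univ).deriv
  have z := an.eqOn_zero_of_preconnected_of_eventuallyEq_zero isPreconnected_univ (mem_univ 0) ev
  have cQ : ∀ x, Q x = Q 0 := fun x => is_const_of_deriv_eq_zero hQ (fun y => z (mem_univ y)) x 0
  have aV : V = univ := eq_univ_of_forall fun x => hV x u₀ u16 ((cQ x).trans hQ₀)
  rw [aV, continuousOn_univ] at lc
  refine fun x => ⟨cQ x, ?_⟩
  by_contra hc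
  obtain ⟨y, hy⟩ := intermediate_value_univ 0 x lc
    (show nu * u₀.im + (Real.log (3 / 2) + dl) ∈ Icc _ _ from
      ⟨by linarith [(abs_lt.1 hS₀).2], not_lt.1 hc⟩)
  refine nc y u₀ u16 ((cQ y).trans hQ₀) ?_
  simp only at hy
  rw [hy, add_sub_cancel_left, abs_of_pos (by linarith [log32.1, dl_pos])]

end

end Pool.Agent.MP_2790d1_an

end
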