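import Pool.Agent.MP_2790d1_an.Defs
import Pool.Agent.MP_2790d1_an.Mg.Obstruct

-- part MP_2790d1_an.Ball
section

/-! Circle-equivariant maps of the ball of `ℂ²`. -/

open Complex Set Metric Filter Topology

namespace Pool.Agent.MP_2790d1_an

abbrev E2 := EuclideanSpace ℂ (Fin 2)

/-- `(z, w) ↦ (z lam(2zw), w mu(2zw))` -/
noncomputable def eqv (lam mu : ℂ → ℂ) (x : E2) : E2 :=
  !₂[x 0 * lam (2 * x 0 * x 1), x 1 * mu (2 * x 0 * x 1)]

theorem norm_sq_eq (x : E2) : ‖x‖ ^ 2 = ‖x 0‖ ^ 2 + ‖x 1‖ ^ 2 := by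
  rw [EuclideanSpace.norm_sq_eq, Fin.sum_univ_two]

theorem norm_t_le (x : E2) : ‖2 * x 0 * x 1‖ ≤ ‖x‖ ^ 2 := by
  rw [norm_sq_eq, norm_mul, norm_mul, Complex.norm_ofNat]
  nlinarith [sq_nonneg (‖x 0‖ - ‖x 1‖)]

/-- the norm in terms of `t = 2zw` and the height `log |z/w|` -/
theorem norm_sq_cosh {x : E2} (h0 : x 0 ≠ 0) (h1 : x 1 ≠ 0) :
    ‖x‖ ^ 2 = ‖2 * x 0 * x 1‖ * Real.cosh (Real.log ‖x 0 / x 1‖) := by
  have a0 : 0 < ‖x 0‖ := norm_pos_iff.2 h0
  have a1 : 0 < ‖x 1‖ := norm_pos_iff.2 h1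
  rw [Real.cosh_log (by rw [norm_div]; positivity), norm_sq_eq, norm_mul, norm_mul,
    Complex.norm_ofNat, norm_div]
  field_simp

theorem t_mem {x : E2} (hx : x ∈ ball (0 : E2) 1) : 2 * x 0 * x 1 ∈ ball (0 : ℂ) 1 := by
  rw [mem_ball_zero_iff] at hx ⊢
  have := norm_t_le x
  nlinarith [norm_nonneg x]

theorem an_coord (i : Fin 2) (x : E2) : AnalyticAt ℂ (fun y : E2 => y i) x :=
  (EuclideanSpace.proj (𝕜 := ℂ) i).analyticAt x

theorem an_t (x : E2) : AnalyticAt ℂ (fun y : E2 => 2 * y 0 * y 1) x :=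
  (analyticAt_const.mul (an_coord 0 x)).mul (an_coord 1 x)

theorem eqv_analytic {lam mu : ℂ → ℂ} (hl : DifferentiableOn ℂ lam (ball 0 1))
    (hm : DifferentiableOn ℂ mu (ball 0 1)) : AnalyticOnNhd ℂ (eqv lam mu) (ball 0 1) := by
  intro x hx
  have ht := t_mem hx
  have h0 : AnalyticAt ℂ (fun y : E2 => y 0 * lam (2 * y 0 * y 1)) x :=
    (an_coord 0 x).mul (AnalyticAt.comp (f := fun y : E2 => 2 * y 0 * y 1)
      (hl.analyticAt (isOpen_ball.mem_nhds ht)) (an_t x))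
  have h1 : AnalyticAt ℂ (fun y : E2 => y 1 * mu (2 * y 0 * y 1)) x :=
    (an_coord 1 x).mul (AnalyticAt.comp (f := fun y : E2 => 2 * y 0 * y 1)
      (hm.analyticAt (isOpen_ball.mem_nhds ht)) (an_t x))
  have h2 : AnalyticAt ℂ (fun y : E2 => (![y 0 * lam (2 * y 0 * y 1),
      y 1 * mu (2 * y 0 * y 1)] : Fin 2 → ℂ)) x := by
    refine AnalyticAt.pi fun i => ?_
    fin_cases i
    · exact h0
    · exact h1
  exact ((PiLp.continuousLinearEquiv 2 ℂ (fun _ : Fin 2 => ℂ)).symm.analyticAt _).comp h2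

theorem fd_coord (i : Fin 2) (x : E2) :
    HasFDerivAt (fun y : E2 => y i) (EuclideanSpace.proj (𝕜 := ℂ) i) x :=
  (EuclideanSpace.proj (𝕜 := ℂ) i).hasFDerivAt

theorem eqv_fderiv_apply {lam mu : ℂ → ℂ} (hl : DifferentiableOn ℂ lam (ball 0 1))
    (hm : DifferentiableOn ℂ mu (ball 0 1)) {x : E2} (hx : x ∈ ball (0 : E2) 1) (v : E2) :
    (fderiv ℂ (eqv lam mu) x v) 0 = v 0 * lam (2 * x 0 * x 1) +
        x 0 * (deriv lam (2 * x 0 * x 1) * (2 * v 0 * x 1 + 2 * x 0 * v 1)) ∧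
    (fderiv ℂ (eqv lam mu) x v) 1 = v 1 * mu (2 * x 0 * x 1) +
        x 1 * (deriv mu (2 * x 0 * x 1) * (2 * v 0 * x 1 + 2 * x 0 * v 1)) := by
  have ht := t_mem hx
  have hd := (eqv_analytic hl hm x hx).differentiableAt.hasFDerivAt
  have hT := ((fd_coord 0 x).const_mul 2).mul (fd_coord 1 x)
  have hL := (hl.differentiableAt (isOpen_ball.mem_nhds ht)).hasDerivAt
  have hM := (hm.differentiableAt (isOpen_ball.mem_nhds ht)).hasDerivAt
  have h0 := (fd_coord 0 x).mul (hL.comp_hasFDerivAt x hT)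
  have h1 := (fd_coord 1 x).mul (hM.comp_hasFDerivAt x hT)
  have e0 := ((fd_coord 0 (eqv lam mu x)).comp x hd).unique h0
  have e1 := ((fd_coord 1 (eqv lam mu x)).comp x hd).unique h1
  have f0 := congrArg (fun L : E2 →L[ℂ] ℂ => L v) e0
  have f1 := congrArg (fun L : E2 →L[ℂ] ℂ => L v) e1
  simp only [ContinuousLinearMap.comp_apply, add_apply,
    smul_apply, smul_eq_mul, Function.comp_apply, Pi.mul_apply,
    EuclideanSpace.coe_proj] at f0 f1
  constructor
  · rw [f0]; ring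
  · rw [f1]; ring

theorem eqv_fderiv_zero {lam mu : ℂ → ℂ} (hl : DifferentiableOn ℂ lam (ball 0 1))
    (hm : DifferentiableOn ℂ mu (ball 0 1)) (hl0 : lam 0 = 1) (hm0 : mu 0 = 1) :
    fderiv ℂ (eqv lam mu) 0 = ContinuousLinearMap.id ℂ E2 := by
  ext v i
  obtain ⟨a, b⟩ := eqv_fderiv_apply hl hm (mem_ball_self one_pos) v
  fin_cases i
  · simpa [hl0] using a
  · simpa [hm0] using b

theorem eqv_fderiv_inj {lam mu : ℂ → ℂ} (hl : DifferentiableOn ℂ lam (ball 0 1))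
    (hm : DifferentiableOn ℂ mu (ball 0 1))
    (hd : ∀ t ∈ ball (0 : ℂ) 1, deriv (fun t => t * lam t * mu t) t ≠ 0) :
    ∀ x ∈ ball (0 : E2) 1, Function.Injective (fderiv ℂ (eqv lam mu) x) := by
  intro x hx
  have ht := t_mem hx
  have hL := (hl.differentiableAt (isOpen_ball.mem_nhds ht)).hasDerivAt
  have hM := (hm.differentiableAt (isOpen_ball.mem_nhds ht)).hasDerivAt
  have hD := hd _ ht
  have hp : HasDerivAt (fun t => t * lam t * mu t) _ (2 * x 0 * x 1) :=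
    ((hasDerivAt_id' _).mul hL).mul hM
  rw [hp.deriv] at hD
  rw [injective_iff_map_eq_zero]
  intro v hv
  obtain ⟨a, b⟩ := eqv_fderiv_apply hl hm hx v
  rw [hv] at a b
  simp only [PiLp.zero_apply] at a b
  simp only [Pi.mul_apply] at hD
  set l := lam (2 * x 0 * x 1)
  set m := mu (2 * x 0 * x 1)
  set l' := deriv lam (2 * x 0 * x 1)
  set m' := deriv mu (2 * x 0 * x 1)
  have v0 : v 0 = 0 := by
    refine (mul_eq_zero.1 (?_ : v 0 * _ = 0)).resolve_right hD
    linear_combination (-(m + 2 * x 0 * x 1 * m')) * a + (2 * x 0 * x 0 * l') * b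
  have v1 : v 1 = 0 := by
    refine (mul_eq_zero.1 (?_ : v 1 * _ = 0)).resolve_right hD
    linear_combination (-(l + 2 * x 0 * x 1 * l')) * b + (2 * x 1 * x 1 * m') * a
  ext i
  fin_cases i
  · exact v0
  · exact v1

/-- Cauchy estimate along complex lines -/
theorem norm_fderiv_apply_le {g : E2 → E2} {y : E2} {ρ ε : ℝ} (hρ : 0 < ρ)
    (hg : ∀ z ∈ closedBall y ρ, DifferentiableAt ℂ g z) (hb : ∀ z ∈ closedBall y ρ, ‖g z‖ ≤ ε)
    {V : E2} (hV : ‖V‖ = 1) : ‖fderiv ℂ g y V‖ ≤ ε / ρ := by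
  have hmem : ∀ s ∈ closedBall (0 : ℂ) ρ, y + s • V ∈ closedBall y ρ := fun s hs => by
    rw [mem_closedBall_zero_iff] at hs
    rw [mem_closedBall, dist_eq_norm, add_sub_cancel_left, norm_smul, hV, mul_one]
    exact hs
  have hl : ∀ s : ℂ, HasDerivAt (fun s : ℂ => y + s • V) V s := fun s => by
    simpa using ((hasDerivAt_id s).smul_const V).const_add y
  have hdiff : ∀ s ∈ closedBall (0 : ℂ) ρ, DifferentiableAt ℂ (fun s : ℂ => g (y + s • V)) s :=
    fun s hs => (hg _ (hmem s hs)).comp s (hl s).differentiableAt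
  have hdc : DiffContOnCl ℂ (fun s : ℂ => g (y + s • V)) (ball 0 ρ) := by
    refine DifferentiableOn.diffContOnCl ?_
    rw [closure_ball _ hρ.ne']
    exact fun s hs => (hdiff s hs).differentiableWithinAt
  have h := Complex.norm_deriv_le_of_forall_mem_sphere_norm_le hρ hdc
    (fun s hs => hb _ (hmem s (sphere_subset_closedBall hs)))
  have h0 : HasFDerivAt g (fderiv ℂ g y) (y + (0 : ℂ) • V) := by
    rw [zero_smul, add_zero]
    exact (hg y (mem_closedBall_self hρ.le)).hasFDerivAt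
  have h1 : HasDerivAt (fun s : ℂ => g (y + s • V)) (fderiv ℂ g y V) 0 :=
    h0.comp_hasDerivAt (0 : ℂ) (hl 0)
  rwa [h1.deriv] at h

/-- an interior minimum of the distance to `a` at a point with onto derivative is a preimage -/
theorem eq_of_isMin {g : E2 → E2} {y a : E2} (hg : DifferentiableAt ℂ g y)
    (hi : Function.Injective (fderiv ℂ g y)) (hmin : IsLocalMin (fun z => ‖g z - a‖ ^ 2) y) :
    g y = a := by
  have hs : Function.Surjective (fderiv ℂ g y) :=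
    (LinearMap.injective_iff_surjective (f := (fderiv ℂ g y : E2 →ₗ[ℂ] E2))).1 hi
  obtain ⟨V, hV⟩ := hs (g y - a)
  have hl : HasDerivAt (fun s : ℝ => y + s • V) V 0 := by
    simpa using ((hasDerivAt_id (0 : ℝ)).smul_const V).const_add y
  have h0 : HasFDerivAt g ((fderiv ℂ g y).restrictScalars ℝ) (y + (0 : ℝ) • V) := by
    rw [zero_smul, add_zero]
    exact hg.hasFDerivAt.restrictScalars ℝ
  have h1 := (h0.comp_hasDerivAt (0 : ℝ) hl).sub_const a
  have h2 := h1.norm_sq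
  have hm : IsLocalMin (fun s : ℝ => ‖(g ∘ fun s : ℝ => y + s • V) s - a‖ ^ 2) 0 := by
    have hc : ContinuousAt (fun s : ℝ => y + s • V) 0 := hl.continuousAt
    have hmin' : IsLocalMin (fun z => ‖g z - a‖ ^ 2) (y + (0 : ℝ) • V) := by
      rwa [zero_smul, add_zero]
    exact IsLocalMin.comp_continuous (g := fun s : ℝ => y + s • V) hmin' hc
  have h3 := hm.hasDerivAt_eq_zero h2
  simp only [Function.comp_apply, zero_smul, add_zero, ContinuousLinearMap.coe_restrictScalars',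
    hV, real_inner_self_eq_norm_sq] at h3
  have : ‖g y - a‖ = 0 := by nlinarith [norm_nonneg (g y - a)]
  exact sub_eq_zero.1 (norm_eq_zero.1 this)

/-- approximants eventually cover the image of a smaller ball -/
theorem eventually_covers {f : E2 → E2} (hf : AnalyticOnNhd ℂ f (ball 0 1))
    (hi : InjOn f (ball 0 1)) (hd : ∀ x ∈ ball (0 : E2) 1, Function.Injective (fderiv ℂ f x))
    {Ψ : ℕ → E2 → E2} (hΨ : ∀ k, Differentiable ℂ (Ψ k))
    (hc : ∀ K ⊆ ball (0 : E2) 1, IsCompact K → TendstoUniformlyOn Ψ f atTop K)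
    {r r' : ℝ} (hr : r < r') (hr' : r' < 1) :
    ∀ᶠ k in atTop, f '' closedBall 0 r ⊆ Ψ k '' ball 0 r' := by
  obtain ⟨ρ, hρ, hρr⟩ : ∃ ρ : ℝ, 0 < ρ ∧ r + 2 * ρ < r' := ⟨(r' - r) / 3, by linarith, by linarith⟩
  have hsub : ∀ s : ℝ, s ≤ r + 2 * ρ → closedBall (0 : E2) s ⊆ ball 0 1 := fun s hs =>
    closedBall_subset_ball (by linarith)
  have hcf : ContinuousOn f (ball 0 1) := hf.continuousOn
  have hadd : ∀ {x u : E2} {s t : ℝ}, x ∈ closedBall (0 : E2) s → u ∈ closedBall x t →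
      u ∈ closedBall (0 : E2) (s + t) := fun {x u s t} hx hu => by
    rw [mem_closedBall] at *
    linarith [dist_triangle u x 0]
  -- separation on spheres
  obtain ⟨m, hm, hm'⟩ : ∃ m : ℝ, 0 < m ∧ ∀ p ∈ closedBall (0 : E2) r ×ˢ sphere (0 : E2) ρ,
      m ≤ ‖f (p.1 + p.2) - f p.1‖ := by
    have hmem : ∀ p ∈ closedBall (0 : E2) r ×ˢ sphere (0 : E2) ρ,
        p.1 ∈ ball (0 : E2) 1 ∧ p.1 + p.2 ∈ ball (0 : E2) 1 := fun p hp => by
      refine ⟨hsub r (by linarith) hp.1, hsub (r + ρ) (by linarith) (hadd hp.1 ?_)⟩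
      rw [mem_closedBall, dist_eq_norm, add_sub_cancel_left]
      exact (mem_sphere_zero_iff_norm.1 hp.2).le
    refine ((isCompact_closedBall _ _).prod (isCompact_sphere _ _)).exists_forall_le'
      (f := fun p : E2 × E2 => ‖f (p.1 + p.2) - f p.1‖) ?_ (fun p hp => ?_)
    · refine ContinuousOn.norm (ContinuousOn.sub ?_ ?_)
      · exact hcf.comp (by fun_prop) (fun p hp => (hmem p hp).2)
      · exact hcf.comp (by fun_prop) (fun p hp => (hmem p hp).1)
    · refine norm_pos_iff.2 (sub_ne_zero.2 fun h => ?_)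
      have h1 := hi (hmem p hp).2 (hmem p hp).1 h
      have h2 : p.2 = 0 := by simpa using h1
      have h3 := mem_sphere_zero_iff_norm.1 hp.2
      rw [h2, norm_zero] at h3
      exact hρ.ne h3
  -- lower bound of the derivative
  obtain ⟨c, hc0, hc'⟩ : ∃ c : ℝ, 0 < c ∧ ∀ p ∈ closedBall (0 : E2) (r + ρ) ×ˢ sphere (0 : E2) 1,
      c ≤ ‖fderiv ℂ f p.1 p.2‖ := by
    refine ((isCompact_closedBall _ _).prod (isCompact_sphere _ _)).exists_forall_le'
      (f := fun p : E2 × E2 => ‖fderiv ℂ f p.1 p.2‖) ?_ (fun p hp => ?_)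
    · refine ContinuousOn.norm (ContinuousOn.clm_apply ?_ (by fun_prop))
      exact hf.fderiv.continuousOn.comp (by fun_prop)
        (fun p hp => hsub (r + ρ) (by linarith) hp.1)
    · refine norm_pos_iff.2 fun h => ?_
      have h2 : p.2 = 0 := (injective_iff_map_eq_zero _).1
        (hd p.1 (hsub (r + ρ) (by linarith) hp.1)) _ h
      have h3 := mem_sphere_zero_iff_norm.1 hp.2
      rw [h2, norm_zero] at h3
      exact zero_ne_one h3
  have hε : 0 < min (m / 3) (c * ρ / 2) := lt_min (by linarith) (by positivity)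
  filter_upwards [Metric.tendstoUniformlyOn_iff.1
    (hc _ (hsub (r + 2 * ρ) le_rfl) (isCompact_closedBall _ _)) _ hε] with k hk
  rintro _ ⟨x, hx, rfl⟩
  have hk' : ∀ z ∈ closedBall (0 : E2) (r + 2 * ρ), ‖Ψ k z - f z‖ ≤ min (m / 3) (c * ρ / 2) :=
    fun z hz => by
      have := (hk z hz).le
      rwa [dist_comm, dist_eq_norm] at this
  obtain ⟨y, hy, hmin⟩ := (isCompact_closedBall x ρ).exists_isMinOn
    (f := fun z => ‖Ψ k z - f x‖ ^ 2) ⟨x, mem_closedBall_self hρ.le⟩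
    (((hΨ k).continuous.sub continuous_const).norm.pow 2).continuousOn
  have hy0 : y ∈ closedBall (0 : E2) (r + ρ) := hadd hx hy
  have hx2 : x ∈ closedBall (0 : E2) (r + 2 * ρ) := closedBall_subset_closedBall (by linarith) hx
  have hy2 : y ∈ closedBall (0 : E2) (r + 2 * ρ) := closedBall_subset_closedBall (by linarith) hy0
  have hle : ‖Ψ k y - f x‖ ≤ m / 3 := by
    have h1 : ‖Ψ k y - f x‖ ^ 2 ≤ ‖Ψ k x - f x‖ ^ 2 := hmin (mem_closedBall_self hρ.le)
    exact ((pow_le_pow_iff_left₀ (norm_nonneg _) (norm_nonneg _) two_ne_zero).1 h1).trans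
      ((hk' x hx2).trans (min_le_left _ _))
  have hyb : y ∈ ball x ρ := by
    by_contra hn
    have h1 : dist y x = ρ := le_antisymm hy (not_lt.1 hn)
    have h2 := hm' (x, y - x) ⟨hx, by rwa [mem_sphere_zero_iff_norm, ← dist_eq_norm]⟩
    simp only [add_sub_cancel] at h2
    have h3 := (hk' y hy2).trans (min_le_left _ _)
    have h4 : f y - f x = (Ψ k y - f x) - (Ψ k y - f y) := by abel
    rw [h4] at h2
    linarith [norm_sub_le (Ψ k y - f x) (Ψ k y - f y)]
  refine ⟨y, closedBall_subset_ball (by linarith) hy0, eq_of_isMin (hΨ k y) ?_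
    (hmin.isLocalMin (mem_of_superset (isOpen_ball.mem_nhds hyb) ball_subset_closedBall))⟩
  have hfd : ∀ z ∈ closedBall y ρ, DifferentiableAt ℂ f z := fun z hz =>
    (hf z (hsub (r + ρ + ρ) (by linarith) (hadd hy0 hz))).differentiableAt
  rw [injective_iff_map_eq_zero]
  intro v hv
  by_contra hv0
  have hn : (‖v‖ : ℂ) ≠ 0 := by simpa using hv0
  have hV : ‖(‖v‖ : ℂ)⁻¹ • v‖ = 1 := by
    rw [norm_smul, norm_inv, Complex.norm_real, norm_norm]
    exact inv_mul_cancel₀ (norm_ne_zero_iff.2 hv0)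
  have h1 := norm_fderiv_apply_le (g := fun z => Ψ k z - f z) hρ
    (fun z hz => (hΨ k z).sub (hfd z hz))
    (fun z hz => (hk' z (by
      have := hadd hy0 hz
      rwa [add_assoc, ← two_mul] at this)).trans (min_le_right _ _)) hV
  have h2 := hc' (y, (‖v‖ : ℂ)⁻¹ • v) ⟨hy0, mem_sphere_zero_iff_norm.2 hV⟩
  rw [fderiv_fun_sub (hΨ k y) (hfd y (mem_closedBall_self hρ.le)), sub_apply,
    map_smul, hv, smul_zero, zero_sub, norm_neg] at h1
  have h3 : c * ρ / 2 / ρ = c / 2 := by field_simp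
  rw [h3] at h1
  simp only at h2
  linarith

/-- a coordinate function on the image of an injective immersion is holomorphic -/
theorem differentiableOn_comp_invFunOn {f : E2 → E2} (hf : AnalyticOnNhd ℂ f (ball 0 1))
    (hi : InjOn f (ball 0 1)) (hd : ∀ x ∈ ball (0 : E2) 1, Function.Injective (fderiv ℂ f x)) :
    DifferentiableOn ℂ (Function.invFunOn f (ball 0 1)) (f '' ball 0 1) := by
  rintro _ ⟨x, hx, rfl⟩
  have hb : Function.Bijective (fderiv ℂ f x) := ⟨hd x hx,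
    (LinearMap.injective_iff_surjective (f := (fderiv ℂ f x : E2 →ₗ[ℂ] E2))).1 (hd x hx)⟩
  let e : E2 ≃L[ℂ] E2 :=
    (LinearEquiv.ofBijective (fderiv ℂ f x : E2 →ₗ[ℂ] E2) hb).toContinuousLinearEquiv
  have he : (e : E2 →L[ℂ] E2) = fderiv ℂ f x := by ext v; rfl
  have hs : HasStrictFDerivAt f (e : E2 →L[ℂ] E2) x := by
    rw [he]
    exact (hf x hx).hasStrictFDerivAt
  refine (hs.to_local_left_inverse ?_).hasFDerivAt.differentiableAt.differentiableWithinAt
  filter_upwards [isOpen_ball.mem_nhds hx] with z hz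
  exact hi.leftInvOn_invFunOn hz

theorem differentiableAt_mvPoly (P : MvPolynomial (Fin 2) ℂ) {v : ℂ → Fin 2 → ℂ} {z : ℂ}
    (hv : ∀ i, DifferentiableAt ℂ (fun z => v z i) z) :
    DifferentiableAt ℂ (fun z => MvPolynomial.eval (v z) P) z := by
  induction P using MvPolynomial.induction_on with
  | C a => simp
  | add p q hp hq =>
    simp only [map_add]
    exact hp.add hq
  | mul_X p i hp =>
    simp only [map_mul, MvPolynomial.eval_X]
    exact hp.mul (hv i)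

/-- circle means of a function which is close to a constant on the circle -/
theorem circle_mean_near {Q : ℂ → ℂ} {R ε : ℝ} {a : ℂ} (hR : 0 < R)
    (hQ : ∀ z : ℂ, z ≠ 0 → DifferentiableAt ℂ Q z) (h : ∀ z ∈ sphere (0 : ℂ) R, ‖Q z - a‖ ≤ ε) :
    ‖(∮ z in C(0, R), (z - 0)⁻¹ • Q z) - 2 * Real.pi * I * a‖ ≤ 2 * Real.pi * ε := by
  have hz : ∀ z ∈ sphere (0 : ℂ) R, z ≠ 0 := fun z hz h0 => by
    rw [h0, mem_sphere_zero_iff_norm, norm_zero] at hz
    exact hR.ne hz
  have hi : ContinuousOn (fun z : ℂ => (z - 0)⁻¹) (sphere 0 R) :=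
    ContinuousOn.inv₀ (by fun_prop) (fun z h => by simpa using hz z h)
  have hQc : ContinuousOn Q (sphere 0 R) := fun z h =>
    (hQ z (hz z h)).continuousAt.continuousWithinAt
  have h1 : (∮ z in C(0, R), (z - 0)⁻¹ • a) = 2 * Real.pi * I * a := by
    rw [circleIntegral.integral_smul_const, circleIntegral.integral_sub_center_inv _ hR.ne',
      smul_eq_mul]
  have i1 : CircleIntegrable (fun z : ℂ => (z - 0)⁻¹ • Q z) 0 R :=
    ContinuousOn.circleIntegrable hR.le (hi.smul hQc)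
  have i2 : CircleIntegrable (fun z : ℂ => (z - 0)⁻¹ • a) 0 R :=
    ContinuousOn.circleIntegrable hR.le (hi.smul continuousOn_const)
  rw [← h1, ← circleIntegral.integral_sub i1 i2]
  have h2 := circleIntegral.norm_integral_le_of_norm_le_const (c := 0) hR.le
    (f := fun z : ℂ => (z - 0)⁻¹ • Q z - (z - 0)⁻¹ • a) (C := ε / R) (fun z hz' => by
      rw [← smul_sub, norm_smul, norm_inv, sub_zero, mem_sphere_zero_iff_norm.1 hz',
        div_eq_inv_mul]
      exact mul_le_mul_of_nonneg_left (h z hz') (by positivity))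
  refine h2.trans (le_of_eq ?_)
  field_simp

theorem circle_mean_eq {Q : ℂ → ℂ} {R R' : ℝ} (hR : 0 < R) (hR' : 0 < R')
    (hQ : ∀ z : ℂ, z ≠ 0 → DifferentiableAt ℂ Q z) :
    (∮ z in C(0, R), (z - 0)⁻¹ • Q z) = ∮ z in C(0, R'), (z - 0)⁻¹ • Q z := by
  wlog h : R' ≤ R generalizing R R'
  · exact (this hR' hR (not_le.1 h).le).symm
  refine Complex.circleIntegral_sub_center_inv_smul_eq_of_differentiable_on_annulus_off_countable
    hR' h countable_empty (fun z hz => (hQ z ?_).continuousAt.continuousWithinAt)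
    (fun z hz => hQ z ?_)
  · rintro rfl
    exact hz.2 (mem_ball_self hR')
  · rintro rfl
    exact hz.1.2 (mem_closedBall_self hR'.le)

/-- two circles over the same value of `ζ a` coming from different values of `t` -/
theorem not_runge {lam mu : ℂ → ℂ} (hl : DifferentiableOn ℂ lam (ball 0 1))
    (hm : DifferentiableOn ℂ mu (ball 0 1)) (hi : InjOn (eqv lam mu) (ball 0 1))
    (hd : ∀ t ∈ ball (0 : ℂ) 1, deriv (fun t => t * lam t * mu t) t ≠ 0)
    {t₁ t₂ : ℂ} (h₁ : ‖t₁‖ < 1) (h₂ : ‖t₂‖ < 1) (hne : t₁ ≠ t₂)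
    (heq : t₁ * lam t₁ * mu t₁ = t₂ * lam t₂ * mu t₂) (h0 : t₁ * lam t₁ * mu t₁ ≠ 0) :
    ¬ IsRunge (eqv lam mu '' ball 0 1) := by
  intro hR
  set T := t₁ * lam t₁ * mu t₁ with hT
  let cur : ℂ → E2 := fun ζ => !₂[ζ, T / (2 * ζ)]
  let g : E2 → ℂ := fun p => 2 * (Function.invFunOn (eqv lam mu) (ball 0 1) p) 0 *
    (Function.invFunOn (eqv lam mu) (ball 0 1) p) 1
  have hinv := differentiableOn_comp_invFunOn (eqv_analytic hl hm) hi (eqv_fderiv_inj hl hm hd)
  have hg : DifferentiableOn ℂ g (eqv lam mu '' ball 0 1) := fun p hp =>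
    (an_t _).differentiableAt.comp_differentiableWithinAt p (hinv p hp)
  -- the circles
  have key : ∀ t : ℂ, ‖t‖ < 1 → t * lam t * mu t = T → ∃ R : ℝ, 0 < R ∧
      ∀ ζ ∈ sphere (0 : ℂ) R, cur ζ ∈ eqv lam mu '' ball 0 1 ∧ g (cur ζ) = t := by
    intro t ht htT
    rw [← htT] at h0
    have ht0 : t ≠ 0 := left_ne_zero_of_mul (left_ne_zero_of_mul h0)
    have hl0 : lam t ≠ 0 := right_ne_zero_of_mul (left_ne_zero_of_mul h0)
    have htp : 0 < ‖t‖ := norm_pos_iff.2 ht0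
    have hlp : 0 < ‖lam t‖ := norm_pos_iff.2 hl0
    have hsq : 0 < Real.sqrt (‖t‖ / 2) := Real.sqrt_pos.2 (by positivity)
    refine ⟨Real.sqrt (‖t‖ / 2) * ‖lam t‖, by positivity, fun ζ hζ => ?_⟩
    rw [mem_sphere_zero_iff_norm] at hζ
    have hζ0 : ζ ≠ 0 := norm_pos_iff.1 (by rw [hζ]; positivity)
    let x : E2 := !₂[ζ / lam t, t * lam t / (2 * ζ)]
    have hx0 : x 0 = ζ / lam t := rfl
    have hx1 : x 1 = t * lam t / (2 * ζ) := rfl
    have hxt : 2 * x 0 * x 1 = t := by rw [hx0, hx1]; field_simp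
    have hxb : x ∈ ball (0 : E2) 1 := by
      rw [mem_ball_zero_iff]
      have e : ‖x‖ ^ 2 = ‖t‖ := by
        have s2 : Real.sqrt (‖t‖ / 2) ^ 2 = ‖t‖ / 2 := Real.sq_sqrt (by positivity)
        rw [norm_sq_eq, hx0, hx1, norm_div, norm_div, norm_mul, norm_mul, Complex.norm_ofNat, hζ]
        have e1 : Real.sqrt (‖t‖ / 2) * ‖lam t‖ / ‖lam t‖ = Real.sqrt (‖t‖ / 2) := by field_simp
        have e2 : ‖t‖ * ‖lam t‖ / (2 * (Real.sqrt (‖t‖ / 2) * ‖lam t‖)) = Real.sqrt (‖t‖ / 2) := by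
          rw [div_eq_iff (by positivity)]
          linear_combination (-2 * ‖lam t‖) * s2
        rw [e1, e2, s2]; ring
      nlinarith [norm_nonneg x]
    have hxe : eqv lam mu x = cur ζ := by
      ext i
      fin_cases i
      · change x 0 * lam (2 * x 0 * x 1) = ζ
        rw [hxt, hx0]; field_simp
      · change x 1 * mu (2 * x 0 * x 1) = T / (2 * ζ)
        rw [hxt, hx1, ← htT]; field_simp
    refine ⟨⟨x, hxb, hxe⟩, ?_⟩
    rw [← hxe]
    simp only [g]
    rw [hi.leftInvOn_invFunOn hxb, hxt]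
  obtain ⟨R₁, hR₁, k₁⟩ := key t₁ h₁ rfl
  obtain ⟨R₂, hR₂, k₂⟩ := key t₂ h₂ heq.symm
  have hdc : ∀ z : ℂ, z ≠ 0 → ∀ i, DifferentiableAt ℂ (fun z => cur z i) z := fun z hz i => by
    fin_cases i
    · exact differentiableAt_id
    · exact (differentiableAt_const T).div (by fun_prop) (mul_ne_zero two_ne_zero hz)
  have hcc : ∀ R : ℝ, 0 < R → IsCompact (cur '' sphere 0 R) := fun R hR0 => by
    refine (isCompact_sphere _ _).image_of_continuousOn fun z hz => ?_
    have hz0 : z ≠ 0 := norm_pos_iff.1 (by rw [mem_sphere_zero_iff_norm.1 hz]; exact hR0)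
    exact ((differentiableAt_piLp 2).2 (hdc z hz0)).continuousAt.continuousWithinAt
  have hpos : 0 < ‖t₁ - t₂‖ := norm_pos_iff.2 (sub_ne_zero.2 hne)
  obtain ⟨P, hP⟩ := hR g hg (cur '' sphere 0 R₁ ∪ cur '' sphere 0 R₂)
    (union_subset (by rintro _ ⟨z, hz, rfl⟩; exact (k₁ z hz).1)
      (by rintro _ ⟨z, hz, rfl⟩; exact (k₂ z hz).1))
    ((hcc R₁ hR₁).union (hcc R₂ hR₂)) (‖t₁ - t₂‖ / 3) (by positivity)
  have hQ : ∀ z : ℂ, z ≠ 0 →
      DifferentiableAt ℂ (fun z => MvPolynomial.eval (fun i => cur z i) P) z := fun z hz =>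
    differentiableAt_mvPoly P (hdc z hz)
  have a₁ := circle_mean_near (a := t₁) hR₁ hQ (fun z hz => by
    have := (hP _ (Or.inl ⟨z, hz, rfl⟩)).le
    rwa [(k₁ z hz).2] at this)
  have a₂ := circle_mean_near (a := t₂) hR₂ hQ (fun z hz => by
    have := (hP _ (Or.inr ⟨z, hz, rfl⟩)).le
    rwa [(k₂ z hz).2] at this)
  rw [circle_mean_eq hR₁ hR₂ hQ] at a₁
  have a₃ := norm_sub_le_of_le a₂ a₁
  have e : ∀ J : ℂ, J - 2 * Real.pi * I * t₂ - (J - 2 * Real.pi * I * t₁) =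
      2 * Real.pi * I * (t₁ - t₂) := fun J => by ring
  rw [e, norm_mul, norm_mul, norm_mul, Complex.norm_ofNat, Complex.norm_I, Complex.norm_real,
    Real.norm_of_nonneg Real.pi_pos.le] at a₃
  nlinarith [Real.pi_pos]

/-- a complex line through `y` which stays outside the ball of radius `‖y‖` -/
theorem exists_line (y : E2) (hy : y ≠ 0) :
    ∃ L : ℂ → E2, Differentiable ℂ L ∧ Function.Injective L ∧ L 0 = y ∧ ∀ x, ‖y‖ ≤ ‖L x‖ := by
  let v : E2 := !₂[-(starRingEnd ℂ) (y 1), (starRingEnd ℂ) (y 0)]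
  have hv0 : v 0 = -(starRingEnd ℂ) (y 1) := rfl
  have hv1 : v 1 = (starRingEnd ℂ) (y 0) := rfl
  have hv : v ≠ 0 := fun h => hy (by
    have a : v 0 = 0 := by rw [h]; rfl
    have b : v 1 = 0 := by rw [h]; rfl
    rw [hv0, neg_eq_zero, map_eq_zero] at a
    rw [hv1, map_eq_zero] at b
    ext i
    fin_cases i
    · exact b
    · exact a)
  refine ⟨fun x => y + x • v, by fun_prop, fun a b h => ?_, by simp, fun x => ?_⟩
  · exact smul_left_injective ℂ hv (add_left_cancel h)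
  · refine (pow_le_pow_iff_left₀ (norm_nonneg _) (norm_nonneg _) two_ne_zero).1 ?_
    rw [norm_sq_eq, norm_sq_eq]
    simp only [PiLp.add_apply, PiLp.smul_apply, hv0, hv1, smul_eq_mul, Complex.sq_norm,
      Complex.normSq_apply, Complex.add_re, Complex.add_im, Complex.mul_re, Complex.mul_im,
      Complex.neg_re, Complex.neg_im, Complex.conj_re, Complex.conj_im]
    nlinarith [mul_self_nonneg (x.re * (y 1).re + x.im * (y 1).im),
      mul_self_nonneg (x.re * (y 1).im - x.im * (y 1).re),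
      mul_self_nonneg (x.re * (y 0).re + x.im * (y 0).im),
      mul_self_nonneg (x.re * (y 0).im - x.im * (y 0).re)]

/-- holomorphic logarithm of `τ t / t` on the disc -/
theorem exists_log_dslope {τ : ℂ → ℂ} (hτ : DifferentiableOn ℂ τ (ball 0 1)) (h0 : τ 0 = 0)
    (hd : deriv τ 0 ≠ 0) (hz : ∀ t ∈ ball (0 : ℂ) 1, τ t = 0 → t = 0) :
    ∃ Lg : ℂ → ℂ, DifferentiableOn ℂ Lg (ball 0 1) ∧
      ∀ t ∈ ball (0 : ℂ) 1, t * exp (Lg t) = τ t := by
  have h01 : (0 : ℂ) ∈ ball (0 : ℂ) 1 := mem_ball_self one_pos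
  have hD : DifferentiableOn ℂ (dslope τ 0) (ball 0 1) :=
    (Complex.differentiableOn_dslope (isOpen_ball.mem_nhds h01)).2 hτ
  have hmul : ∀ t : ℂ, t * dslope τ 0 t = τ t := fun t => by
    have := sub_smul_dslope τ 0 t
    rwa [sub_zero, h0, sub_zero, smul_eq_mul] at this
  have hne : ∀ t ∈ ball (0 : ℂ) 1, dslope τ 0 t ≠ 0 := fun t ht h => by
    have ht0 : t = 0 := hz t ht (by rw [← hmul, h, mul_zero])
    rw [ht0, dslope_same] at h
    exact hd h
  have hq : DifferentiableOn ℂ (fun t => deriv (dslope τ 0) t / dslope τ 0 t) (ball 0 1) :=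
    (hD.deriv isOpen_ball).div hD hne
  obtain ⟨G, hG0, hG⟩ := hq.isExactOn_ball.with_val_at 0 (log (dslope τ 0 0))
  refine ⟨G, fun t ht => (hG t ht).differentiableAt.differentiableWithinAt, fun t ht => ?_⟩
  have hder : ∀ s ∈ ball (0 : ℂ) 1, HasDerivAt (fun s => exp (-G s) * dslope τ 0 s) 0 s :=
    fun s hs => by
      have h1 := ((hG s hs).neg.cexp).mul
        (hD.differentiableAt (isOpen_ball.mem_nhds hs)).hasDerivAt
      refine h1.congr_deriv ?_
      have := hne s hs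
      field_simp
      ring
  have hconst := isOpen_ball.is_const_of_deriv_eq_zero (convex_ball (0 : ℂ) 1).isPreconnected
    (fun s hs => (hder s hs).differentiableAt.differentiableWithinAt)
    (fun s hs => (hder s hs).deriv) ht h01
  rw [hG0, exp_neg, exp_neg, exp_log (hne 0 h01), inv_mul_cancel₀ (hne 0 h01)] at hconst
  rw [← hmul t]
  congr 1
  have := exp_ne_zero (G t)
  field_simp at hconst
  exact hconst.symm

end Pool.Agent.MP_2790d1_an

end

-- part MP_2790d1_an.Main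
section

/-! The counterexample. -/

open Complex Set Metric Filter Topology

namespace Pool.Agent.MP_2790d1_an

theorem eqv_zero (lam mu : ℂ → ℂ) (x : E2) : eqv lam mu x 0 = x 0 * lam (2 * x 0 * x 1) := rfl

theorem eqv_one (lam mu : ℂ → ℂ) (x : E2) : eqv lam mu x 1 = x 1 * mu (2 * x 0 * x 1) := rfl

theorem ext2 {x y : E2} (h0 : x 0 = y 0) (h1 : x 1 = y 1) : x = y := by
  ext i
  fin_cases i
  · exact h0
  · exact h1

theorem exists_height {a r : ℝ} (h1 : 92 / 100 ≤ a) (h2 : a ≤ 93 / 100) (h3 : 99 / 100 ≤ r)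
    (h4 : r ≤ 1) : ∃ Y : ℝ, 1 / 10 ≤ Y ∧ Y ≤ 6 / 10 ∧ a * Real.cosh Y = r := by
  have c1 : Real.cosh (1 / 10) ≤ 102 / 100 := by
    have h2 := Real.cosh_le_exp_half_sq (1 / 10)
    have h3 := Real.abs_exp_sub_one_le (x := (1 / 10) ^ 2 / 2) (by norm_num)
    have h4 := le_abs_self (Real.exp ((1 / 10) ^ 2 / 2) - 1)
    norm_num at h2 h3 h4 ⊢
    linarith
  have c2 : 109 / 100 ≤ Real.cosh (6 / 10) := by
    rw [Real.cosh_eq]
    linarith [Real.quadratic_le_exp_of_nonneg (x := 6 / 10) (by norm_num),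
      Real.add_one_le_exp (-(6 / 10))]
  obtain ⟨Y, hY, e⟩ := intermediate_value_Icc (f := fun y => a * Real.cosh y)
    (show (1 / 10 : ℝ) ≤ 6 / 10 by norm_num) (by fun_prop)
    (show r ∈ Icc (a * Real.cosh (1 / 10)) (a * Real.cosh (6 / 10)) from
      ⟨by nlinarith, by nlinarith⟩)
  exact ⟨Y, hY.1, hY.2, e⟩

theorem counterexample : ∃ f : E2 → E2, DifferentiableOn ℂ f (ball 0 1) ∧ InjOn f (ball 0 1) ∧
    f 0 = 0 ∧ fderiv ℂ f 0 = ContinuousLinearMap.id ℂ E2 ∧ ¬ IsRunge (f '' ball 0 1) ∧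
    ¬ ∃ Ψ : ℕ → E2 → E2, (∀ k, Differentiable ℂ (Ψ k) ∧ Function.Injective (Ψ k)) ∧
      ∀ K ⊆ ball (0 : E2) 1, IsCompact K → TendstoUniformlyOn Ψ f atTop K := by
  obtain ⟨ω, K, hω, hK, hd, inj, main, ρ, hρ, σ, σc, lay⟩ := finger
  have b0 : (0 : ℂ) ∈ ball (0 : ℂ) 1 := mem_ball_self one_pos
  have inj' : ∀ t ∈ ball (0 : ℂ) 1, ∀ t' ∈ ball (0 : ℂ) 1, ∀ S : ℝ,
      exp (MM * ω t') = exp (MM * ω t) → ‖t‖ * Real.cosh (S - (K t).re) < 1 →
        ‖t'‖ * Real.cosh (S - (K t').re) < 1 → t = t' := by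
    intro t ht t' ht' S e
    obtain ⟨n, hn⟩ := exp_eq_exp_iff_exists_int.1 e
    refine inj t ht t' ht' S n (mul_left_cancel₀ MM_ne ?_)
    rw [hn, mul_add, add_right_inj, MM]
    push_cast
    ring
  have inj0 : ∀ t ∈ ball (0 : ℂ) 1, exp (MM * ω t) = exp (MM * ω 0) → t = 0 := fun t ht e =>
    inj' t ht 0 b0 (K t).re e.symm (by simpa using ht) (by simp)
  set τ : ℂ → ℂ := fun t => exp (MM * ω t) - exp (MM * ω 0) with hτ
  have τd : ∀ t ∈ ball (0 : ℂ) 1, HasDerivAt τ (exp (MM * ω t) * (MM * deriv ω t)) t := fun t ht =>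
    ((hω.differentiableAt (isOpen_ball.mem_nhds ht)).hasDerivAt.const_mul MM).cexp.sub_const _
  have τd0 : ∀ t ∈ ball (0 : ℂ) 1, exp (MM * ω t) * (MM * deriv ω t) ≠ 0 := fun t ht =>
    mul_ne_zero (exp_ne_zero _) (mul_ne_zero MM_ne (hd t ht))
  obtain ⟨Lg, hL, eL⟩ := exists_log_dslope (τ := τ)
    (fun t ht => (τd t ht).differentiableAt.differentiableWithinAt) (sub_self _)
    (by rw [(τd 0 b0).deriv]; exact τd0 0 b0) fun t ht e => inj0 t ht (sub_eq_zero.1 e)
  set lam : ℂ → ℂ := fun t => exp ((Lg t - Lg 0) / 2 + (K t - K 0) / 2) with hlam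
  set mu : ℂ → ℂ := fun t => exp ((Lg t - Lg 0) / 2 - (K t - K 0) / 2) with hmu
  have hl : DifferentiableOn ℂ lam (ball 0 1) := by fun_prop
  have hm : DifferentiableOn ℂ mu (ball 0 1) := by fun_prop
  have l0 : ∀ t, lam t ≠ 0 := fun t => exp_ne_zero _
  have m0 : ∀ t, mu t ≠ 0 := fun t => exp_ne_zero _
  have c0 : exp (Lg 0) ≠ 0 := exp_ne_zero _
  have e1 : ∀ t ∈ ball (0 : ℂ) 1,
      exp (Lg 0) * (t * lam t * mu t) + exp (MM * ω 0) = exp (MM * ω t) := by
    intro t ht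
    have : exp (Lg 0) * (lam t * mu t) = exp (Lg t) := by
      simp only [hlam, hmu, ← exp_add]; congr 1; ring
    linear_combination t * this + eL t ht
  have e2 : ∀ t, ∀ z w : ℂ, z ≠ 0 → w ≠ 0 →
      Real.log ‖z * lam t / (w * mu t) * exp (K 0)‖ - (K t).re = Real.log ‖z / w‖ := by
    intro t z w hz hw
    have : z * lam t / (w * mu t) * exp (K 0) = z / w * exp (K t) := by
      have h : lam t * exp (K 0) = mu t * exp (K t) := by
        simp only [hlam, hmu, ← exp_add]; congr 1; ring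
      have := m0 t
      field_simp
      linear_combination h
    rw [this, norm_mul, Real.log_mul (norm_ne_zero_iff.2 (div_ne_zero hz hw))
      (norm_ne_zero_iff.2 (exp_ne_zero _)), norm_exp, Real.log_exp, add_sub_cancel_right]
  have hd' : ∀ t ∈ ball (0 : ℂ) 1, deriv (fun t => t * lam t * mu t) t ≠ 0 := by
    intro t ht
    have : (fun t => t * lam t * mu t) =ᶠ[𝓝 t] fun t => τ t / exp (Lg 0) := by
      filter_upwards [isOpen_ball.mem_nhds ht] with s hs
      rw [eq_div_iff c0]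
      linear_combination e1 s hs
    rw [this.deriv_eq, ((τd t ht).div_const _).deriv]
    exact div_ne_zero (τd0 t ht) c0
  set f := eqv lam mu with hf
  have fw : ∀ x ∈ ball (0 : E2) 1, exp (Lg 0) * (2 * f x 0 * f x 1) + exp (MM * ω 0)
      = exp (MM * ω (2 * x 0 * x 1)) := by
    intro x hx
    rw [← e1 _ (t_mem hx), hf, eqv_zero, eqv_one]; ring
  have fw' : ∀ x : E2, 2 * x 0 * x 1 ≠ 0 → ‖2 * x 0 * x 1‖ *
      Real.cosh (Real.log ‖f x 0 / f x 1 * exp (K 0)‖ - (K (2 * x 0 * x 1)).re) = ‖x‖ ^ 2 := by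
    intro x h
    have h0 := right_ne_zero_of_mul (left_ne_zero_of_mul h)
    have h1 := right_ne_zero_of_mul h
    rw [hf, eqv_zero, eqv_one, e2 _ _ _ h0 h1, norm_sq_cosh h0 h1]
  have hi : InjOn f (ball 0 1) := by
    intro x hx y hy e
    have ex := fw x hx
    rw [e, fw y hy] at ex
    have sq : ∀ x ∈ ball (0 : E2) 1, ‖x‖ ^ 2 < 1 := fun x hx =>
      pow_lt_one₀ (norm_nonneg _) (mem_ball_zero_iff.1 hx) two_ne_zero
    have et : 2 * x 0 * x 1 = 2 * y 0 * y 1 := by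
      by_cases h1 : 2 * x 0 * x 1 = 0
      · rw [h1] at ex ⊢; exact (inj0 _ (t_mem hy) ex).symm
      by_cases h2 : 2 * y 0 * y 1 = 0
      · rw [h2] at ex ⊢; exact inj0 _ (t_mem hx) ex.symm
      exact inj' _ (t_mem hx) _ (t_mem hy) _ ex (by rw [fw' x h1]; exact sq x hx)
        (by rw [e, fw' y h2]; exact sq y hy)
    have a0 : f x 0 = f y 0 := by rw [e]
    have a1 : f x 1 = f y 1 := by rw [e]
    rw [hf, eqv_zero, eqv_zero, et] at a0
    rw [hf, eqv_one, eqv_one, et] at a1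
    exact ext2 (mul_right_cancel₀ (l0 _) a0) (mul_right_cancel₀ (m0 _) a1)
  have an := eqv_analytic hl hm
  have nz : ∀ u : ℂ, ‖u‖ ≤ 1 / 16 → -exp (MM * u) ≠ exp (MM * ω 0) := by
    intro u hu e
    obtain ⟨t, a, b, c, -⟩ := roof_chart main hu
    rw [inj0 t (mem_ball_zero_iff.2 (by linarith)) (b.trans e), zero_sub, norm_neg] at c
    have := norm_sub_le (12 / 13 * I + u) u
    norm_num at this c
    linarith
  obtain ⟨t₁, a₁, b₁, c₁, d₁⟩ := roof_chart main (u := 0) (by norm_num)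
  have t1 : t₁ ∈ ball (0 : ℂ) 1 := mem_ball_zero_iff.2 (by linarith)
  refine ⟨f, an.differentiableOn, hi, ext2 (by simp [hf, eqv_zero]) (by simp [hf, eqv_one]),
    eqv_fderiv_zero hl hm (by simp [hlam]) (by simp [hmu]), ?_, ?_⟩
  · obtain ⟨t₂, a₂, b₂, c₂, -⟩ := floor_chart main (u := 0) (by norm_num)
    have t2 : t₂ ∈ ball (0 : ℂ) 1 := mem_ball_zero_iff.2 (by linarith)
    refine not_runge hl hm hi hd' (mem_ball_zero_iff.1 t1) (mem_ball_zero_iff.1 t2) ?_
      (mul_left_cancel₀ c0 (by linear_combination e1 _ t1 - e1 _ t2 + b₁ - b₂)) fun h => ?_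
    · rintro rfl
      have a := abs_le.1 ((abs_im_le_norm _).trans c₁)
      have b := abs_le.1 ((abs_im_le_norm _).trans c₂)
      norm_num at a b
      linarith [a.1, b.1]
    · have := e1 _ t1
      rw [h, mul_zero, zero_add, b₁] at this
      exact nz 0 (by norm_num) this.symm
  rintro ⟨Ψ, hΨ, hc⟩
  have d0 := dl_pos
  have d1 : dl ≤ 1 / 10 := by rw [dl]; norm_num
  set m := max ρ (1 - dl / 10) with hm'
  have m1 : m < 1 := max_lt hρ (by linarith)
  have m2 : 99 / 100 ≤ m := le_trans (by linarith) (le_max_right _ _)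
  have cov := eventually_covers an hi (eqv_fderiv_inj hl hm hd') (fun k => (hΨ k).1) hc
    (r := (1 + m) / 2) (r' := (3 + m) / 4) (by linarith) (by linarith)
  have n₁ : 92 / 100 ≤ ‖t₁‖ ∧ ‖t₁‖ ≤ 93 / 100 := by
    have := abs_le.1 ((abs_norm_sub_norm_le _ _).trans c₁)
    norm_num at this
    constructor <;> linarith [this.1, this.2]
  obtain ⟨Y, Y1, Y2, hY⟩ := exists_height n₁.1 n₁.2 (r := ((3 + m) / 4) ^ 2) (by nlinarith)
    (by nlinarith)
  have q0 : ((Real.exp (-Y) : ℝ) : ℂ) ≠ 0 := ofReal_ne_zero.2 (Real.exp_pos _).ne'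
  obtain ⟨w, hw⟩ := IsAlgClosed.exists_pow_nat_eq (t₁ / (2 * (Real.exp (-Y) : ℝ))) two_pos
  set y : E2 := !₂[(Real.exp (-Y) : ℝ) * w, w] with hy
  have ty : 2 * y 0 * y 1 = t₁ := by
    show 2 * ((Real.exp (-Y) : ℝ) * w) * w = t₁
    rw [eq_div_iff (mul_ne_zero two_ne_zero q0)] at hw
    linear_combination hw
  have t0 : 2 * y 0 * y 1 ≠ 0 := by rw [ty, ← norm_pos_iff]; linarith [n₁.1]
  have y0 := right_ne_zero_of_mul (left_ne_zero_of_mul t0)
  have y1 := right_ne_zero_of_mul t0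
  have ly : Real.log ‖y 0 / y 1‖ = -Y := by
    show Real.log ‖(Real.exp (-Y) : ℝ) * w / w‖ = -Y
    rw [mul_div_cancel_right₀ _ (show w ≠ 0 from y1), norm_real, Real.norm_eq_abs,
      abs_of_pos (Real.exp_pos _), Real.log_exp]
  have ny : ‖y‖ = (3 + m) / 4 := by
    rw [← pow_left_inj₀ (norm_nonneg _) (by linarith) two_ne_zero, norm_sq_cosh y0 y1, ty, ly,
      Real.cosh_neg, hY]
  have yb : y ∈ ball (0 : E2) 1 := mem_ball_zero_iff.2 (by linarith)
  set Qp : E2 → ℂ := fun p => -(exp (Lg 0) * (2 * p 0 * p 1) + exp (MM * ω 0)) with hQp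
  have Qy : Qp (f y) = 1 := by simp only [hQp]; rw [fw y yb, ty, b₁]; simp
  have Sy : Real.log ‖f y 0 / f y 1 * exp (K 0)‖ = (K t₁).re - Y := by
    have := e2 t₁ _ _ y0 y1
    rw [hf, eqv_zero, eqv_one, ty]
    linarith
  have f0 : f y 0 ≠ 0 := mul_ne_zero y0 (l0 _)
  have f1 : f y 1 ≠ 0 := mul_ne_zero y1 (m0 _)
  have T : Tendsto (fun k => Ψ k y) atTop (𝓝 (f y)) :=
    (hc {y} (singleton_subset_iff.2 yb) isCompact_singleton).tendsto_at (mem_singleton y)
  have cQ : ContinuousAt Qp (f y) := by fun_prop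
  have cU : ContinuousAt (fun p => log (Qp p) / MM) (f y) :=
    (cQ.clog (by rw [Qy]; exact one_mem_slitPlane)).div_const MM
  have cS : ContinuousAt (fun p : E2 => |Real.log ‖p 0 / p 1 * exp (K 0)‖
      - nu * (log (Qp p) / MM).im|) (f y) := by
    have c1 : ContinuousAt (fun p : E2 => p 0 / p 1 * exp (K 0)) (f y) :=
      ((an_coord 0 _).continuousAt.div (an_coord 1 _).continuousAt f1).mul continuousAt_const
    have c2 := c1.norm.log
      (norm_ne_zero_iff.2 (mul_ne_zero (div_ne_zero f0 f1) (exp_ne_zero _)))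
    have c3 : ContinuousAt (fun p => (log (Qp p) / MM).im) (f y) :=
      continuous_im.continuousAt.comp (f := fun p => log (Qp p) / MM) cU
    exact (c2.sub (continuousAt_const.mul c3)).abs
  have v1 := T.eventually (cQ.eventually_ne (y := 0) (by rw [Qy]; exact one_ne_zero))
  have v2 := T.eventually (cU.norm.eventually_lt (continuousAt_const (y := (6 / 100 : ℝ)))
    (by simp only [Qy]; norm_num))
  have v3 := T.eventually (cS.eventually_lt
    (continuousAt_const (y := Real.log (3 / 2) + dl)) (by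
      rw [abs_le] at d₁
      simp only [Qy, Sy, log_one, zero_div, zero_im, mul_zero, add_zero, sub_zero, abs_lt] at d₁ ⊢
      constructor <;> linarith [d₁.1, d₁.2, log32.1]))
  obtain ⟨k, ⟨⟨k1, k2⟩, k3⟩, k4⟩ := (((v1.and v2).and v3).and cov).exists
  obtain ⟨L, Ld, Li, L0, Ln⟩ := exists_line y (by rw [← norm_pos_iff]; linarith)
  have hd0 : ∀ i, Differentiable ℂ fun x => Ψ k (L x) i := fun i x =>
    (an_coord i _).differentiableAt.comp x (((hΨ k).1.comp Ld) x)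
  have := hd0 0
  have := hd0 1
  have ob := obstruct main hρ σc lay (Q := fun x => Qp (Ψ k (L x)))
    (g := fun x => Ψ k (L x) 0 / Ψ k (L x) 1 * exp (K 0)) (by simp only [hQp]; fun_prop)
    (V := {x | Ψ k (L x) 0 ≠ 0} ∩ {x | Ψ k (L x) 1 ≠ 0})
    ((isOpen_ne_fun (hd0 0).continuous continuous_const).inter
      (isOpen_ne_fun (hd0 1).continuous continuous_const))
    (((hd0 0).differentiableOn.div (hd0 1).differentiableOn fun x hx => hx.2).mul_const _)
    (fun x hx => mul_ne_zero (div_ne_zero hx.1 hx.2) (exp_ne_zero _))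
    (fun x u hu e => by
      constructor <;> intro h <;> refine nz u hu ?_ <;> rw [← e] <;> simp [hQp, h])
    (fun x hx t ht e => by
      by_contra hlt
      generalize hp : Ψ k (L x) = p at hx e hlt
      have p0 : p 0 ≠ 0 := by have := hx.1; rwa [mem_ofPred_eq, hp] at this
      have p1 : p 1 ≠ 0 := by have := hx.2; rwa [mem_ofPred_eq, hp] at this
      set z : E2 := !₂[p 0 / lam t, p 1 / mu t] with hz
      have tz : 2 * z 0 * z 1 = t := by
        show 2 * (p 0 / lam t) * (p 1 / mu t) = t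
        have h1 := e1 t (mem_ball_zero_iff.2 ht)
        have h2 : t * lam t * mu t = 2 * p 0 * p 1 :=
          mul_left_cancel₀ c0 (by simp only [hQp] at e; linear_combination h1 + e)
        have := l0 t
        have := m0 t
        field_simp
        linear_combination -h2
      have fz : f z = p := ext2 (by rw [hf, eqv_zero, tz]; exact div_mul_cancel₀ _ (l0 t))
        (by rw [hf, eqv_one, tz]; exact div_mul_cancel₀ _ (m0 t))
      have nz' := fw' z (mul_ne_zero (mul_ne_zero two_ne_zero (div_ne_zero p0 (l0 t)))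
        (div_ne_zero p1 (m0 t)))
      rw [fz, tz] at nz'
      rw [nz', not_lt] at hlt
      obtain ⟨x', hx', e'⟩ := k4 ⟨z, mem_closedBall_zero_iff.2 (by
        rw [← sq_le_sq₀ (norm_nonneg _) (by linarith)]; nlinarith [sq_nonneg (1 - m)]), fz⟩
      rw [(hΨ k).2 (e'.trans hp.symm), mem_ball_zero_iff] at hx'
      linarith [Ln x])
    (u₀ := log (Qp (Ψ k y)) / MM) k2 (by rw [L0, exp_MM_log k1]) (by rw [L0]; exact k3)
  have pc : ∀ x, Ψ k (L x) 0 * Ψ k (L x) 1 = Ψ k (L 0) 0 * Ψ k (L 0) 1 := fun x =>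
    mul_left_cancel₀ (mul_ne_zero c0 two_ne_zero) (by
      have := (ob x).1
      simp only [hQp] at this
      linear_combination -this)
  have p0 : Ψ k (L 0) 0 * Ψ k (L 0) 1 ≠ 0 := by
    intro h
    refine nz (log (Qp (Ψ k y)) / MM) (by linarith) ?_
    rw [L0] at h
    rw [exp_MM_log k1]
    simp only [hQp, mul_assoc, h, mul_zero, zero_add, neg_neg]
  obtain ⟨B, hB⟩ : ∃ B : ℝ, ∀ x, ‖Ψ k (L x) 0‖ ≤ B := by
    generalize nu * (log (Qp (Ψ k y)) / MM).im + (Real.log (3 / 2) + dl) = c at ob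
    refine ⟨Real.exp c * ‖Ψ k (L 0) 0 * Ψ k (L 0) 1 / exp (K 0)‖ + 1, fun x => ?_⟩
    have x0 := left_ne_zero_of_mul (pc x ▸ p0)
    have x1 := right_ne_zero_of_mul (pc x ▸ p0)
    have h1 := (Real.log_lt_iff_lt_exp (norm_pos_iff.2
      (mul_ne_zero (div_ne_zero x0 x1) (exp_ne_zero (K 0))))).1 (ob x).2
    have h2 : ‖Ψ k (L x) 0‖ ^ 2 = ‖Ψ k (L x) 0 / Ψ k (L x) 1 * exp (K 0)‖
        * ‖Ψ k (L 0) 0 * Ψ k (L 0) 1 / exp (K 0)‖ := by
      rw [← norm_mul, ← pc x, ← norm_pow]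
      congr 1
      field_simp
    nlinarith [mul_le_mul_of_nonneg_right h1.le
      (norm_nonneg (Ψ k (L 0) 0 * Ψ k (L 0) 1 / exp (K 0))), sq_nonneg (‖Ψ k (L x) 0‖ - 1)]
  have z0 : Ψ k (L 1) 0 = Ψ k (L 0) 0 := (hd0 0).apply_eq_apply_of_bounded
    (isBounded_iff_forall_norm_le.2 ⟨B, by rintro _ ⟨x, rfl⟩; exact hB x⟩) 1 0
  have z1 := pc 1
  rw [z0] at z1
  exact one_ne_zero (Li ((hΨ k).2 (ext2 z0 (mul_left_cancel₀ (left_ne_zero_of_mul p0) z1))))

end Pool.Agent.MP_2790d1_an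

end
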